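import Pool.Agent.Lib.UMB.Far.T4
import Pool.Agent.Lib.UMB.S1.Met

set_option autoImplicit false

/-! # UMB.Far, chunk FZ1: `y` near the outer sphere -/

open Filter Topology Set MeasureTheory
open scoped ContDiff

namespace UMB.Far

open Pool.Agent.Lib.PenroseSph (E3 S2 Tens pd trg meanCurv gradNorm normal chr avg sm admFlux fluxDensity)

lemma fz1_met {g : Tens} {a : ℝ} (hg : AF g a) : MetOn g {x : E3 | a < ‖x‖} where
  isOpen := isOpen_lt continuous_const continuous_norm
  smooth := hg.smooth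
  symm := hg.symm
  pos := hg.pos

/-- `y` is continuous at the points of the outer sphere. -/
lemma fz1_cont {P : Par} {v : E3 → ℝ} (hP : P.Ok) (hg : AF P.g P.a) (h : FlatV v (2 * P.R1) P.R) {x : E3}
    (hx : ‖x‖ = P.R) : ContinuousAt (P.y v) x := by
  have hR1 : 1 ≤ P.R := by linarith [hP.r1_ge, hP.R1_ge, hP.R_ge]
  obtain ⟨s, hs, hall⟩ := pd_th hP h
  have hκ : 0 < P.kap v := by
    unfold Par.kap
    have h1 := (Cv_eq h).2.1
    positivity
  obtain ⟨hKc, -, -⟩ := hasDeriv_FF hP hκ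
  have hev : ∀ᶠ y : E3 in 𝓝 x, P.R - s < ‖y‖ ∧ ‖y‖ < P.R + s := by
    have h1 : ContinuousAt (fun y : E3 => ‖y‖) x := continuous_norm.continuousAt
    have h2 : Ioo (P.R - s) (P.R + s) ∈ 𝓝 ‖x‖ := by
      rw [hx]
      exact Ioo_mem_nhds (by linarith) (by linarith)
    exact h1.eventually h2
  have hpd : ∀ a, ContinuousAt (pd a (P.th v)) x := by
    intro a
    have h1 : ContinuousAt (fun y => -(pd a v y) / (W.KK P.p (v y) + P.kap v)) x := by
      have h2 : Continuous (pd a v) := by
        have h3 : Continuous (fun y => fderiv ℝ v y (EuclideanSpace.single a 1)) :=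
          (h.smooth.continuous_fderiv (by norm_num)).clm_apply continuous_const
        exact h3
      have h4 : Continuous (fun y => W.KK P.p (v y) + P.kap v) :=
        (hKc.comp h.smooth.continuous).add continuous_const
      have h5 := (hall x (by rw [hx]; linarith) (by rw [hx]; linarith)).1
      exact h2.neg.continuousAt.div h4.continuousAt h5.ne'
    refine h1.congr ?_
    filter_upwards [hev] with y hy
    exact ((hall y hy.1 hy.2).2 a).symm
  have hinv : ∀ i j, ContinuousAt (fun y => (P.g y)⁻¹ i j) x := by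
    intro i j
    have hm := fz1_met hg
    have hxa : x ∈ {x : E3 | P.a < ‖x‖} := by
      show P.a < ‖x‖
      rw [hx]
      linarith [hg.lt]
    exact (hm.inv_smooth i j).continuousOn.continuousAt (hm.isOpen.mem_nhds hxa)
  have hgsq : ContinuousAt (fun y => gsq P.g (P.th v) y) x := by
    unfold gsq gradU
    refine tendsto_finsetSum _ fun a _ => ?_
    refine (hpd a).mul ?_
    refine tendsto_finsetSum _ fun j _ => ?_
    exact (hinv a j).mul (hpd j)
  have h6 : ContinuousAt (fun y => Real.sqrt (gsq P.g (P.th v) y + 0)) x :=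
    Real.continuous_sqrt.continuousAt.comp (hgsq.add continuousAt_const)
  exact h6

/-- CHUNK FZ1 (M). (FZ1): `y ≤ 4/R` near `|x| = R`.
PROOF. On the sphere `P.y v x <= (1 + s)/R <= 2/R` (`y_bdry`, `pd_th_R`). `P.y v = sqrt (gsq P.g (P.th v))` is continuous in a
neighbourhood of the sphere (`pd_th`: `pd i (P.th v) = - pd i v/(KK (v x) + kap)`, continuous; `g⁻¹` continuous). Compactness:
the set `{P.R/2 <= |x| <= P.R, P.y v x > 4/P.R}` ... take a sequence with `|x_n| -> R`, or: the function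
`s -> max over |x| = s` ; simplest: `IsCompact` of the sphere and the open set `{y < 4/R}` contain a tube `R - s < |x| < R + s`
(`IsCompact.exists_thickening_subset_open`). -/
theorem fz1 (Cg : ℝ) : ∃ C' : ℝ, 0 < C' ∧ ∀ (P : Par) (v : E3 → ℝ), P.Ok → AF P.g P.a → Dec P.g Cg →
    FlatV v (2 * P.R1) P.R → C' * P.R1 ≤ P.R →
    ∃ s : ℝ, 0 < s ∧ ∀ x : E3, P.R - s < ‖x‖ → ‖x‖ ≤ P.R → P.y v x ≤ 4 / P.R := by
  have hCH : 0 < CH := Real.exp_pos _
  refine ⟨12288 * CH + 1004 * |Cg| + 16, by positivity, ?_⟩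
  intro P v hP hg hd h hCR
  have hR1 : 1 ≤ P.R1 := by linarith [hP.r1_ge, hP.R1_ge]
  have hR : 1 ≤ P.R := by linarith [hP.r1_ge, hP.R1_ge, hP.R_ge]
  have hR0 : 0 < P.R := by linarith
  have hb1 : |Cg| ≤ |Cg| * P.R1 := le_mul_of_one_le_right (abs_nonneg _) hR1
  have hCg : Cg ≤ |Cg| := le_abs_self _
  have hCHR : 0 ≤ CH * P.R1 := by positivity
  have hcr : 12288 * (CH * P.R1) + 1004 * (|Cg| * P.R1) + 16 * P.R1 ≤ P.R := by
    calc _ = (12288 * CH + 1004 * |Cg| + 16) * P.R1 := by ring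
      _ ≤ P.R := hCR
  have hbdry : ∀ x : E3, ‖x‖ = P.R → P.y v x < 4 / P.R := by
    intro x hx
    have hn : Near P.g (Cg / P.R) x := near_of_dec hg hd hR (by nlinarith [abs_nonneg Cg]) hx
    have h1 := (y_bdry h hx hn (by linarith) (fun i => pd_th_R hP h hx i)).2
    have h2 := (abs_le.1 h1).2
    have h3 : (6144 * CH * (2 * P.R1) + 4 * Cg) / P.R ^ 2 ≤ 1 / P.R := by
      rw [div_le_div_iff₀ (by positivity) hR0]
      have h4 : 6144 * CH * (2 * P.R1) + 4 * Cg ≤ P.R := by nlinarith [abs_nonneg Cg]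
      nlinarith
    have h5 : P.y v x ≤ 2 / P.R := by
      have h6 : P.y v x = yreg P.g (P.th v) 0 x := rfl
      rw [h6]
      have h7 : (2 : ℝ) / P.R = 1 / P.R + 1 / P.R := by ring
      linarith
    have h8 : (2 : ℝ) / P.R < 4 / P.R := by
      rw [div_lt_div_iff_of_pos_right hR0]
      norm_num
    linarith
  have hsub : Metric.sphere (0 : E3) P.R ⊆ interior {x : E3 | P.y v x < 4 / P.R} := by
    intro x hx
    have hx' : ‖x‖ = P.R := by rwa [mem_sphere_zero_iff_norm] at hx
    rw [mem_interior_iff_mem_nhds]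
    exact (fz1_cont hP hg h hx').eventually (gt_mem_nhds (hbdry x hx'))
  obtain ⟨s, hs, hth⟩ := (isCompact_sphere (0 : E3) P.R).exists_thickening_subset_open isOpen_interior hsub
  refine ⟨min s P.R, lt_min hs hR0, fun x h1 h2 => ?_⟩
  have h3 : 0 < ‖x‖ := by
    have := min_le_right s P.R
    linarith
  have h4 : x ∈ interior {x : E3 | P.y v x < 4 / P.R} := by
    apply hth
    rw [Metric.mem_thickening_iff]
    refine ⟨(P.R / ‖x‖) • x, ?_, ?_⟩
    · rw [mem_sphere_zero_iff_norm, norm_smul, Real.norm_eq_abs, abs_of_pos (by positivity)]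
      field_simp
    · rw [dist_eq_norm]
      have e : x - (P.R / ‖x‖) • x = (1 - P.R / ‖x‖) • x := by rw [sub_smul, one_smul]
      rw [e, norm_smul, Real.norm_eq_abs]
      have e2 : |1 - P.R / ‖x‖| * ‖x‖ = |‖x‖ - P.R| := by
        have : ‖x‖ - P.R = (1 - P.R / ‖x‖) * ‖x‖ := by field_simp
        rw [this, abs_mul, abs_norm]
      rw [e2, abs_lt]
      have := min_le_left s P.R
      constructor <;> linarith
  exact (interior_subset h4 : x ∈ {x : E3 | P.y v x < 4 / P.R}).le

end UMB.Far
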