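import Pool.Agent.Lib.UMB.Far.T0
import Pool.Agent.Lib.UMB.Far.FZ1

set_option autoImplicit false

/-! # UMB.Far, chunk T5: transfer from the global extension to the solution, final statements -/

open Filter Topology Set MeasureTheory
open scoped ContDiff

namespace UMB.Far

open Pool.Agent.Lib.PenroseSph (E3 S2 Tens pd trg meanCurv gradNorm normal chr avg sm admFlux fluxDensity pd_congr norm_ray)
open UMB.Lin (Ann cAnn)

/-- Two functions which agree near the closed annulus. -/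
structure Agree (P : Par) (u v : E3 → ℝ) : Prop where
  ex : ∃ V : Set E3, IsOpen V ∧ cAnn P.R ⊆ V ∧ ∀ x ∈ V, u x = v x

theorem Agree.mean {P : Par} {u v : E3 → ℝ} (h : Agree P u v) {r : ℝ} (h1 : 1 ≤ r) (h2 : r ≤ P.R) :
    Par.mean v r = Par.mean u r := by
  obtain ⟨V, hVo, hKV, hVu⟩ := h.ex
  unfold Par.mean
  congr 1
  refine integral_congr_ae (Eventually.of_forall fun n => ?_)
  have hn : ‖r • (n : E3)‖ = r := norm_ray (by linarith) n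
  exact (hVu _ (hKV ⟨by rw [hn]; exact h1, by rw [hn]; exact h2⟩)).symm

theorem Agree.Cv {P : Par} (hP : P.Ok) {u v : E3 → ℝ} (h : Agree P u v) : P.Cv v = P.Cv u := by
  unfold Par.Cv
  rw [h.mean (by linarith [hP.r1_ge, hP.R1_ge]) (by linarith [hP.r1_ge, hP.R1_ge, hP.R_ge])]

theorem Agree.kap {P : Par} (hP : P.Ok) {u v : E3 → ℝ} (h : Agree P u v) : P.kap v = P.kap u := by
  unfold Par.kap
  rw [h.Cv hP]

theorem Agree.pd {P : Par} {u v : E3 → ℝ} (h : Agree P u v) {x : E3} (h1 : 1 ≤ ‖x‖) (h2 : ‖x‖ ≤ P.R) (i : Fin 3) :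
    pd i v x = pd i u x := by
  obtain ⟨V, hVo, hKV, hVu⟩ := h.ex
  exact pd_congr i (Filter.eventuallyEq_iff_exists_mem.2 ⟨V, hVo.mem_nhds (hKV ⟨h1, h2⟩), fun z hz => (hVu z hz).symm⟩)

theorem Agree.val {P : Par} {u v : E3 → ℝ} (h : Agree P u v) {x : E3} (h1 : 1 ≤ ‖x‖) (h2 : ‖x‖ ≤ P.R) :
    v x = u x := by
  obtain ⟨V, hVo, hKV, hVu⟩ := h.ex
  exact (hVu x (hKV ⟨h1, h2⟩)).symm

theorem Agree.y {P : Par} (hP : P.Ok) {u v : E3 → ℝ} (h : Agree P u v) {x : E3} (h1 : 1 ≤ ‖x‖) (h2 : ‖x‖ ≤ P.R) :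
    P.y v x = P.y u x := by
  obtain ⟨V, hVo, hKV, hVu⟩ := h.ex
  have hpd : ∀ i, Pool.Agent.Lib.PenroseSph.pd i (P.th v) x = Pool.Agent.Lib.PenroseSph.pd i (P.th u) x := by
    intro i
    refine pd_congr i (Filter.eventuallyEq_iff_exists_mem.2 ⟨V, hVo.mem_nhds (hKV ⟨h1, h2⟩), fun z hz => ?_⟩)
    show W.FF P.p (P.kap v) (v z) = W.FF P.p (P.kap u) (u z)
    rw [h.kap hP, hVu z hz]
  unfold Par.y yreg gsq gradU
  simp only [hpd]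

/-- **(FZ0)**, positivity of the flux constant, bounds in the flat zone, for the solution itself. -/
theorem far_zone {P : Par} (hP : P.Ok) (hR : 16 * P.R1 ≤ P.R) {v : E3 → ℝ} (hsol : W.Sol P.op v)
    (hpos : ∀ x : E3, 1 < ‖x‖ → ‖x‖ < P.R → 0 < v x)
    (hv1 : ∀ x : E3, P.R1 / 2 ≤ ‖x‖ → ‖x‖ ≤ P.R → v x ≤ P.v1) :
    0 < P.Cv v ∧ (∀ r : ℝ, 2 * P.R1 ≤ r → r ≤ P.R → Par.mean v r = P.Cv v * (1 / r - 1 / P.R)) ∧
    (∀ x : E3, 4 * P.R1 ≤ ‖x‖ → ‖x‖ ≤ P.R → P.Cv v / CH * (1 / ‖x‖ - 1 / P.R) ≤ v x ∧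
      v x ≤ CH * P.Cv v * (1 / ‖x‖ - 1 / P.R) ∧ ∀ i, |pd i v x| ≤ 14 * CH * P.Cv v / ‖x‖ ^ 2) ∧
    ∀ x : E3, ‖x‖ = P.R → (∀ i, pd i v x = (x i / ‖x‖) * dr v x) ∧ dr v x ≤ 0 ∧
      |dr v x + P.Cv v / P.R ^ 2| ≤ 6144 * CH * P.Cv v * P.R1 / P.R ^ 3 := by
  obtain ⟨u, hu, V, hVo, hKV, hVu⟩ := flat_ext hP hR hsol hpos hv1
  have hA : Agree P u v := ⟨V, hVo, hKV, hVu⟩
  have h1 : 1 ≤ 2 * P.R1 := by linarith [hP.r1_ge, hP.R1_ge]
  have hdr : ∀ x : E3, 1 ≤ ‖x‖ → ‖x‖ ≤ P.R → dr v x = dr u x := by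
    intro x a b
    unfold dr
    exact Finset.sum_congr rfl fun m _ => by rw [hA.pd a b m]
  rw [hA.Cv hP]
  obtain ⟨c1, c2, c3⟩ := Cv_eq hu
  obtain ⟨f1, f2⟩ := far_bounds hu
  refine ⟨c2, fun r a b => ?_, fun x a b => ?_, fun x hx => ?_⟩
  · rw [hA.mean (by linarith) b]
    exact c3 r a b
  · have a1 : 1 ≤ ‖x‖ := by linarith
    obtain ⟨g1, g2, g3⟩ := f1 x a b
    rw [hA.val a1 b]
    refine ⟨g1, g2, fun i => ?_⟩
    rw [hA.pd a1 b i]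
    exact g3 i
  · have a1 : 1 ≤ ‖x‖ := by rw [hx]; linarith
    obtain ⟨g1, g2, g3⟩ := f2 x hx
    rw [hdr x a1 hx.le]
    refine ⟨fun i => ?_, g2, g3⟩
    rw [hA.pd a1 hx.le i]
    exact g1 i

/-- **END VALUE** for the solution itself. -/
theorem end_value' (Cg : ℝ) : ∃ C' : ℝ, 0 < C' ∧ ∀ (P : Par) (v : E3 → ℝ), P.Ok → AF P.g P.a → Dec P.g Cg →
    (∀ i j, ContDiffOn ℝ ∞ (fun x => P.k x i j) {x : E3 | P.a < ‖x‖}) → W.Sol P.op v →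
    (∀ x : E3, 1 < ‖x‖ → ‖x‖ < P.R → 0 < v x) → (∀ x : E3, P.R1 / 2 ≤ ‖x‖ → ‖x‖ ≤ P.R → v x ≤ P.v1) → C' * P.R1 ≤ P.R →
    P.R * (4 * Real.pi + sphQ P.g P.k (P.y v) P.R) ≤ 8 * Real.pi * admFlux P.g P.R
      + (1 + C' * P.R1 / P.R) * trFlux P.g P.k P.R + C' * P.R1 ^ 2 / P.R := by
  obtain ⟨C1, hC1, key⟩ := end_value Cg
  refine ⟨max C1 16, by positivity, fun P v hP hg hd hk hsol hpos hv1 hCR => ?_⟩
  have hR1 : 1 ≤ P.R1 := by linarith [hP.r1_ge, hP.R1_ge]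
  have hRR : 16 * P.R1 ≤ P.R := le_trans (mul_le_mul_of_nonneg_right (le_max_right _ _) (by linarith)) hCR
  have hRC : C1 * P.R1 ≤ P.R := le_trans (mul_le_mul_of_nonneg_right (le_max_left _ _) (by linarith)) hCR
  have hRpos : 0 < P.R := by linarith
  obtain ⟨u, hu, V, hVo, hKV, hVu⟩ := flat_ext hP hRR hsol hpos hv1
  have hA : Agree P u v := ⟨V, hVo, hKV, hVu⟩
  have h1 := key P u hP hg hd hk hu hRC
  have h2 : sphQ P.g P.k (P.y v) P.R = sphQ P.g P.k (P.y u) P.R := by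
    unfold sphQ
    refine integral_congr_ae (Eventually.of_forall fun n => ?_)
    have hn : ‖P.R • (n : E3)‖ = P.R := norm_ray hRpos n
    have h3 := hA.y hP (x := P.R • (n : E3)) (by rw [hn]; linarith) (by rw [hn])
    simp only [h3]
  have h4 : 0 ≤ trFlux P.g P.k P.R := by
    unfold trFlux
    exact integral_nonneg fun n => by positivity
  rw [h2]
  refine h1.trans ?_
  have h5 : C1 * P.R1 / P.R ≤ max C1 16 * P.R1 / P.R := by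
    gcongr
    exact le_max_left _ _
  have h6 : C1 * P.R1 ^ 2 / P.R ≤ max C1 16 * P.R1 ^ 2 / P.R := by
    gcongr
    exact le_max_left _ _
  have h7 := mul_le_mul_of_nonneg_right h5 h4
  linarith

/-- **(FZ1)** for the solution itself. -/
theorem fz1' (Cg : ℝ) : ∃ C' : ℝ, 0 < C' ∧ ∀ (P : Par) (v : E3 → ℝ), P.Ok → AF P.g P.a → Dec P.g Cg → W.Sol P.op v →
    (∀ x : E3, 1 < ‖x‖ → ‖x‖ < P.R → 0 < v x) → (∀ x : E3, P.R1 / 2 ≤ ‖x‖ → ‖x‖ ≤ P.R → v x ≤ P.v1) → C' * P.R1 ≤ P.R →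
    ∃ s : ℝ, 0 < s ∧ ∀ x : E3, P.R - s < ‖x‖ → ‖x‖ ≤ P.R → P.y v x ≤ 4 / P.R := by
  obtain ⟨C1, hC1, key⟩ := fz1 Cg
  refine ⟨max C1 16, by positivity, fun P v hP hg hd hsol hpos hv1 hCR => ?_⟩
  have hR1 : 1 ≤ P.R1 := by linarith [hP.r1_ge, hP.R1_ge]
  have hRR : 16 * P.R1 ≤ P.R := le_trans (mul_le_mul_of_nonneg_right (le_max_right _ _) (by linarith)) hCR
  have hRC : C1 * P.R1 ≤ P.R := le_trans (mul_le_mul_of_nonneg_right (le_max_left _ _) (by linarith)) hCR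
  obtain ⟨u, hu, V, hVo, hKV, hVu⟩ := flat_ext hP hRR hsol hpos hv1
  have hA : Agree P u v := ⟨V, hVo, hKV, hVu⟩
  obtain ⟨s, hs, h1⟩ := key P u hP hg hd hu hRC
  refine ⟨min s (P.R - 1), lt_min hs (by linarith), fun x a b => ?_⟩
  have a1 : 1 ≤ ‖x‖ := by
    have := min_le_right s (P.R - 1)
    linarith
  rw [hA.y hP a1 b]
  exact h1 x (by have := min_le_left s (P.R - 1); linarith) b

end UMB.Far
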