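import Pool.Agent.Lib.UMB.Far.C6
import Pool.Agent.Lib.UMB.Par

set_option autoImplicit false

/-! # UMB.Far, chunk T1: the solution is flat harmonic in the far zone -/

open Filter Topology Set MeasureTheory
open scoped ContDiff

namespace UMB.Far

open Pool.Agent.Lib.PenroseSph (E3 S2 Tens pd avg sm)

/-- The scaled mollifier of `Par`. -/
lemma t1_mol {P : Par} (hP : P.Ok) : W.Mol P.d P.op.etad := by
  have hd := hP.d_pos
  have hd3 : 0 < P.d ^ 3 := pow_pos hd 3
  refine ⟨?_, ?_, ?_, ?_⟩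
  · have h1 : ContDiff ℝ ∞ fun x : E3 => P.d⁻¹ • x := by fun_prop
    exact contDiff_const.mul (hP.eta_smooth.comp h1)
  · intro x
    exact mul_nonneg (inv_nonneg.2 hd3.le) (hP.eta_nonneg _)
  · intro x hx
    have h1 : 1 ≤ ‖P.d⁻¹ • x‖ := by
      rw [norm_smul, Real.norm_eq_abs, abs_of_pos (inv_pos.2 hd), inv_mul_eq_div, le_div_iff₀ hd]
      linarith
    show (P.d ^ 3)⁻¹ * P.eta (P.d⁻¹ • x) = 0
    rw [hP.eta_supp _ h1, mul_zero]
  · have h1 := MeasureTheory.Measure.integral_comp_smul (volume : Measure E3) P.eta P.d⁻¹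
    have hfr : Module.finrank ℝ E3 = 3 := by
      simp
    rw [hfr, hP.eta_int] at h1
    have h2 : ∫ x : E3, P.op.etad x = (P.d ^ 3)⁻¹ * ∫ x : E3, P.eta (P.d⁻¹ • x) := by
      rw [← integral_const_mul]
      rfl
    rw [h2, h1]
    have h3 : |((P.d⁻¹ ^ 3)⁻¹ : ℝ)| = P.d ^ 3 := by
      rw [inv_pow, inv_inv, abs_of_pos hd3]
    rw [h3, smul_eq_mul, mul_one]
    exact inv_mul_cancel₀ hd3.ne'

lemma t1_v1 {P : Par} (hP : P.Ok) : 0 < P.v1 := by
  unfold Par.v1
  refine lt_min one_pos (Real.rpow_pos_of_pos ?_ _)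
  have h1 := hP.r1_ge
  have h2 := hP.R1_ge
  have h3 : 0 < P.R1 := by linarith
  have h4 : 0 < P.r1 := by linarith
  positivity

lemma t1_vd {P : Par} (hP : P.Ok) {v : E3 → ℝ} (hsol : W.Sol P.op v)
    (hv1 : ∀ x : E3, P.R1 / 2 ≤ ‖x‖ → ‖x‖ ≤ P.R → v x ≤ P.v1) {x : E3} (h1 : 2 * P.R1 < ‖x‖) :
    P.op.vd v x ≤ P.v1 := by
  have hm := t1_mol hP
  have hv0 := t1_v1 hP
  have hR1 : 4 ≤ P.R1 := by linarith [hP.r1_ge, hP.R1_ge]
  have hcs : HasCompactSupport P.op.etad := by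
    refine HasCompactSupport.of_support_subset_isCompact (isCompact_closedBall (0 : E3) P.d) ?_
    intro y hy
    rw [mem_closedBall_zero_iff]
    by_contra hc
    exact hy (hm.supp y (not_le.1 hc).le)
  have hi : Integrable P.op.etad := hm.smooth.continuous.integrable_of_hasCompactSupport hcs
  have hi' : Integrable fun y => P.v1 * P.op.etad (x - y) := (hi.comp_sub_left x).const_mul _
  have e1 : ∫ y, P.v1 * P.op.etad (x - y) = P.v1 := by
    rw [integral_const_mul, integral_sub_left_eq_self P.op.etad volume x, hm.int, mul_one]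
  have hext0 : ∀ y, 0 ≤ ext P.op.R v y := by
    intro y
    unfold ext
    split_ifs with h3 h4
    · exact zero_le_one
    · exact hsol.nonneg y ⟨not_lt.1 h3, h4⟩
    · exact le_rfl
  unfold OpData.vd
  rw [← e1]
  refine integral_mono_of_nonneg (Eventually.of_forall fun y =>
    mul_nonneg (hext0 y) (hm.nonneg _)) hi' (Eventually.of_forall fun y => ?_)
  show ext P.op.R v y * P.op.etad (x - y) ≤ P.v1 * P.op.etad (x - y)
  by_cases hxy : P.d ≤ ‖x - y‖
  · rw [hm.supp _ hxy, mul_zero, mul_zero]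
  · apply mul_le_mul_of_nonneg_right _ (hm.nonneg _)
    have h5 : ‖x‖ ≤ ‖x - y‖ + ‖y‖ := by
      calc ‖x‖ = ‖(x - y) + y‖ := by rw [sub_add_cancel]
        _ ≤ _ := norm_add_le _ _
    have h6 : 2 * P.R1 - 1 < ‖y‖ := by linarith [hP.d_le, not_le.1 hxy]
    unfold ext
    have h7 : ¬ ‖y‖ < 1 := by
      intro h8
      linarith
    rw [if_neg h7]
    split_ifs with h9
    · exact hv1 y (by linarith) h9
    · exact hv0.le

/-- CHUNK T1a (M). The operator is the flat Laplacian for `2 R1 < |x| < R`.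
PROOF. (1) `vd x <= v1`: `vd x = int ext v y etad (x - y) dy` is an average (`etad >= 0`, integral `1`) of values of `ext R v` at
points `y` with `|y - x| < d <= 1`, where `|y| >= 2 R1 - 1 >= R1/2`, so `ext R v y <= v1` (`v1 >= 0`). (2) So
`b (vd x) = 1` (`smoothTransition` of a number `>= 1`), `p = 2`, `aa v x = G x`. (3) `chi |x| = 0` in a neighbourhood of `x`, so
`gh = 1` there, `(gh x)⁻¹ = 1`, `chr gh = 0`; `kh x = 0`. (4) `Solves` becomes `sum_i pd i (pd i v) x = 0`. -/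
theorem lap_zero {P : Par} (hP : P.Ok) {v : E3 → ℝ} (hsol : W.Sol P.op v)
    (hv1 : ∀ x : E3, P.R1 / 2 ≤ ‖x‖ → ‖x‖ ≤ P.R → v x ≤ P.v1) {x : E3} (h1 : 2 * P.R1 < ‖x‖) (h2 : ‖x‖ < P.R) :
    lap0 v x = 0 := by
  have hv0 := t1_v1 hP
  have hR1 : 4 ≤ P.R1 := by linarith [hP.r1_ge, hP.R1_ge]
  have hR1' : 0 < P.R1 := by linarith
  have hvd := t1_vd hP hsol hv1 h1
  have hp : P.op.p (P.op.vd v x) = 2 := by
    show P.p (P.op.vd v x) = 2
    unfold Par.p Par.b
    rw [Real.smoothTransition.one_of_one_le]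
    · ring
    · rw [le_div_iff₀ hv0]
      linarith
  have hgh : ∀ y : E3, 2 * P.R1 < ‖y‖ → P.gh y = 1 := by
    intro y hy
    unfold Par.gh Par.chi
    rw [Real.smoothTransition.zero_of_nonpos]
    · simp
    · have : 2 < ‖y‖ / P.R1 := by
        rw [lt_div_iff₀ hR1']
        exact hy
      linarith
  have hG : P.op.G x = 1 := by
    show (P.gh x)⁻¹ = 1
    rw [hgh x h1, inv_one]
  have hpd : ∀ k i j, pd k (fun y => P.gh y i j) x = 0 := by
    intro k i j
    have h3 : pd k (fun y => P.gh y i j) x = pd k (fun _ => (1 : Matrix (Fin 3) (Fin 3) ℝ) i j) x := by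
      apply Pool.Agent.Lib.PenroseSph.pd_congr
      filter_upwards [(isOpen_lt continuous_const continuous_norm : IsOpen {y : E3 | 2 * P.R1 < ‖y‖}).mem_nhds h1]
        with y hy
      rw [hgh y hy]
    rw [h3]
    unfold pd
    simp
  have hGam : ∀ i, P.op.Gam i x = 0 := by
    intro i
    funext k l
    show Pool.Agent.Lib.PenroseSph.chr P.gh i k l x = 0
    unfold Pool.Agent.Lib.PenroseSph.chr
    simp [hpd]
  have hk : P.op.k x = 0 := by
    show P.kh x = 0
    unfold Par.kh Par.chk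
    rw [Real.smoothTransition.zero_of_nonpos, zero_smul]
    have : 2 < ‖x‖ / P.R1 := by
      rw [lt_div_iff₀ hR1']
      exact h1
    linarith
  have haa : P.op.aa v x = 1 := by
    funext i j
    unfold OpData.aa
    rw [hp, hG]
    ring
  have hbb : ∀ i, P.op.bb v x i = 0 := by
    intro i
    unfold OpData.bb
    rw [hGam i, hk]
    simp [tr2]
  have hs := hsol.solves x (show x ∈ UMB.Lin.Ann P.R from ⟨by linarith, h2⟩)
  rw [haa] at hs
  have h4 : ∑ i, P.op.bb v x i * D1 v x i = 0 := by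
    apply Finset.sum_eq_zero
    intro i _
    rw [hbb i, zero_mul]
  rw [h4, add_zero] at hs
  have h5 : tr2 1 (D2 v x) = lap0 v x := by
    unfold tr2 lap0 D2
    simp [Matrix.one_apply]
  rw [← h5]
  exact hs

/-- T1b. The solution is `FlatV`. -/
theorem flat_of_sol {P : Par} (hP : P.Ok) (hR : 16 * P.R1 ≤ P.R) {v : E3 → ℝ} (hv : ContDiff ℝ 3 v) (hsol : W.Sol P.op v)
    (hpos : ∀ x : E3, 1 < ‖x‖ → ‖x‖ < P.R → 0 < v x)
    (hv1 : ∀ x : E3, P.R1 / 2 ≤ ‖x‖ → ‖x‖ ≤ P.R → v x ≤ P.v1) : FlatV v (2 * P.R1) P.R where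
  smooth := hv
  r0_pos := by linarith [hP.r1_ge, hP.R1_ge]
  r0_lt := by linarith
  harm := fun x h1 h2 => lap_zero hP hsol hv1 h1 h2
  pos := fun x h1 h2 => hpos x (by linarith [hP.r1_ge, hP.R1_ge]) h2
  zero := hsol.zero

end UMB.Far
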