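import Pool.Agent.Lib.UMB.Far.H3

set_option autoImplicit false

/-! # UMB.Far, chunk H4b: tangential divergence theorem -/

open Filter Topology Set MeasureTheory
open scoped ContDiff

namespace UMB.Far

open Pool.Agent.Lib.PenroseSph (E3 S2 Tens pd trg meanCurv gradNorm normal chr avg sm admFlux fluxDensity avg_rot
  pd_mul pd_coord pd_sub sum_pd diff_coord isOpen_ext avg_sum avg_congr avg_smul norm_ray norm_sq_eq C1_coord)

/-- The auxiliary field `Z_i = sum_l (g_il - δ_il) x_l`. -/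
noncomputable def h4b_Z (g : Tens) (i : Fin 3) (x : E3) : ℝ :=
  ∑ l, (g x i l - (1 : Matrix (Fin 3) (Fin 3) ℝ) i l) * x l

theorem h4b_Z_C1 {g : Tens} {a : ℝ} (hg : ∀ i j, ContDiffOn ℝ 1 (fun x => g x i j) {x : E3 | a < ‖x‖}) (i : Fin 3) :
    ContDiffOn ℝ 1 (h4b_Z g i) {x : E3 | a < ‖x‖} := by
  unfold h4b_Z
  apply ContDiffOn.sum
  intro l _
  exact ((hg i l).sub contDiffOn_const).mul (C1_coord l)

theorem h4b_pdZ {g : Tens} {a : ℝ} (hg : ∀ i j, ContDiffOn ℝ 1 (fun x => g x i j) {x : E3 | a < ‖x‖}) {x : E3}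
    (hx : a < ‖x‖) (i j : Fin 3) :
    pd j (h4b_Z g i) x = ∑ l, pd j (fun y => g y i l) x * x l + (g x i j - (1 : Matrix (Fin 3) (Fin 3) ℝ) i j) := by
  have hd : ∀ i l, DifferentiableAt ℝ (fun y => g y i l) x := fun i l =>
    ((hg i l).differentiableOn (by norm_num)).differentiableAt ((isOpen_ext a).mem_nhds hx)
  unfold h4b_Z
  rw [sum_pd (f := fun l y => (g y i l - (1 : Matrix (Fin 3) (Fin 3) ℝ) i l) * y l) j
    (fun l => ((hd i l).sub_const _).mul (diff_coord l x))]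
  have e : ∀ l, pd j (fun y : E3 => (g y i l - (1 : Matrix (Fin 3) (Fin 3) ℝ) i l) * y l) x =
      pd j (fun y => g y i l) x * x l + (g x i l - (1 : Matrix (Fin 3) (Fin 3) ℝ) i l) * (if l = j then 1 else 0) := by
    intro l
    rw [pd_mul j ((hd i l).sub_const _) (diff_coord l x), pd_coord]
    have e2 : pd j (fun y : E3 => g y i l - (1 : Matrix (Fin 3) (Fin 3) ℝ) i l) x = pd j (fun y => g y i l) x := by
      unfold pd
      rw [fderiv_sub_const]
    rw [e2]
    ring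
  simp only [e, Finset.sum_add_distrib]
  congr 1
  simp

theorem h4b_alg (h : Fin 3 → Fin 3 → ℝ) (d : Fin 3 → Fin 3 → Fin 3 → ℝ) (x : Fin 3 → ℝ) {r : ℝ} (hr : r ≠ 0)
    (hx : x 0 ^ 2 + x 1 ^ 2 + x 2 ^ 2 = r ^ 2) :
    ∑ i, ∑ j, (x j * (x j * (∑ l, d i i l * x l + h i i) + (∑ l, h i l * x l) * (if j = i then 1 else 0))
      - x i * (x j * (∑ l, d j i l * x l + h i j) + (∑ l, h i l * x l) * (if j = j then 1 else 0))) =
    r ^ 2 * (r * (∑ i, ∑ j, d i i j * (x j / r)) + (∑ i, h i i - ∑ i, ∑ j, h i j * (x i / r) * (x j / r))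
      - r * (∑ i, ∑ j, ∑ k, d k i j * (x i / r) * (x j / r) * (x k / r)) - 2 * (∑ i, ∑ j, h i j * (x i / r) * (x j / r))) := by
  have e1 : r * (∑ i, ∑ j, d i i j * (x j / r)) = ∑ i, ∑ j, d i i j * x j := by
    simp only [Finset.mul_sum]
    refine Finset.sum_congr rfl fun i _ => Finset.sum_congr rfl fun j _ => ?_
    field_simp
  have e2 : r ^ 2 * (∑ i, ∑ j, h i j * (x i / r) * (x j / r)) = ∑ i, ∑ j, h i j * x i * x j := by
    simp only [Finset.mul_sum]
    refine Finset.sum_congr rfl fun i _ => Finset.sum_congr rfl fun j _ => ?_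
    field_simp
  have e3 : r ^ 2 * (r * (∑ i, ∑ j, ∑ k, d k i j * (x i / r) * (x j / r) * (x k / r))) =
      ∑ i, ∑ j, ∑ k, d k i j * x i * x j * x k := by
    simp only [Finset.mul_sum]
    refine Finset.sum_congr rfl fun i _ => Finset.sum_congr rfl fun j _ => Finset.sum_congr rfl fun k _ => ?_
    field_simp
  have e4 : r ^ 2 * (r * (∑ i, ∑ j, d i i j * (x j / r)) + (∑ i, h i i - ∑ i, ∑ j, h i j * (x i / r) * (x j / r))
      - r * (∑ i, ∑ j, ∑ k, d k i j * (x i / r) * (x j / r) * (x k / r))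
      - 2 * (∑ i, ∑ j, h i j * (x i / r) * (x j / r))) =
      r ^ 2 * (∑ i, ∑ j, d i i j * x j + ∑ i, h i i) - 3 * (∑ i, ∑ j, h i j * x i * x j)
        - ∑ i, ∑ j, ∑ k, d k i j * x i * x j * x k := by
    rw [← e3, ← e2, ← e1]
    ring
  rw [e4]
  simp only [Fin.sum_univ_three]
  simp
  rw [← hx]
  ring

/-- CHUNK H4b (M). The tangential divergence theorem on the sphere of radius `r`, applied to `Z_i = h_ij n_j`:
`avg ( r dD + (hT - hN) - r dN - 2 hN ) = 0`.
PROOF. Let `F_ij = x_j Z_i`, `Z_i = sum_l (g_il - δ_il) x_l` (polynomial factor instead of `n`, harmless on a fixed sphere).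
`avg_rot` gives `avg (x_j ∂_i f - x_i ∂_j f) = 0` for every `f` of class `C¹` on `{a < |x|}`; take `f = F_ij` and sum over `i /= j`
(for `i = j` the expression is `0`): `sum_ij (x_j ∂_i - x_i ∂_j)(x_j Z_i) = |x|^2 (∂_i Z_i) - x_i x_j ∂_j Z_i - 2 x.Z`. With
`∂_i Z_i = sum ∂_i g_il x_l + sum (g_ii - 1)`, `x_i x_j ∂_j Z_i = sum x_i x_j x_l ∂_j g_il + sum x_i x_j (g_ij - δ_ij)`,
`x.Z = sum (g_il - δ_il) x_i x_l`: on `|x| = r` this is `r^2 (r dD + hT) - r^2 (r dN + hN) - 2 r^2 hN`. Divide by `r^2`. -/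
theorem tang_div {g : Tens} {a r : ℝ} (ha : 0 ≤ a) (har : a < r)
    (hg : ∀ i j, ContDiffOn ℝ 1 (fun x => g x i j) {x : E3 | a < ‖x‖}) :
    avg (fun x => ‖x‖ * dD g x + (hT g x - hN g x) - ‖x‖ * dN g x - 2 * hN g x) r = 0 := by
  have hr : 0 < r := lt_of_le_of_lt ha har
  have hF : ∀ i j : Fin 3, ContDiffOn ℝ 1 (fun x => x j * h4b_Z g i x) {x : E3 | a < ‖x‖} := fun i j =>
    (C1_coord j).mul (h4b_Z_C1 hg i)
  have hpc : ∀ (f : E3 → ℝ), ContDiffOn ℝ 1 f {x : E3 | a < ‖x‖} → ∀ m, ContinuousOn (pd m f) {x : E3 | a < ‖x‖} := by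
    intro f hf m
    unfold pd
    exact ((hf.continuousOn_fderiv_of_isOpen (isOpen_ext a) (by norm_num))).clm_apply continuousOn_const
  have hA : ∀ i j : Fin 3, avg (fun x => x j * pd i (fun y => y j * h4b_Z g i y) x
      - x i * pd j (fun y => y j * h4b_Z g i y) x) r = 0 := by
    intro i j
    by_cases hij : i = j
    · subst hij
      have : (fun x : E3 => x i * pd i (fun y => y i * h4b_Z g i y) x
        - x i * pd i (fun y => y i * h4b_Z g i y) x) = fun _ => 0 := by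
        funext x; ring
      rw [this]
      unfold avg
      simp
    · exact avg_rot ha har (hF i j) (fun h => hij h.symm)
  have hcA : ∀ i j : Fin 3, ContinuousOn (fun x : E3 => x j * pd i (fun y => y j * h4b_Z g i y) x
      - x i * pd j (fun y => y j * h4b_Z g i y) x) {x : E3 | a < ‖x‖} := by
    intro i j
    exact ((C1_coord j).continuousOn.mul (hpc _ (hF i j) i)).sub ((C1_coord i).continuousOn.mul (hpc _ (hF i j) j))
  have hsum : avg (fun x => ∑ i, ∑ j, (x j * pd i (fun y => y j * h4b_Z g i y) x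
      - x i * pd j (fun y => y j * h4b_Z g i y) x)) r = 0 := by
    rw [avg_sum ha har Finset.univ (fun i => continuousOn_finsetSum _ (fun j _ => hcA i j))]
    apply Finset.sum_eq_zero
    intro i _
    rw [avg_sum ha har Finset.univ (fun j => hcA i j)]
    exact Finset.sum_eq_zero (fun j _ => hA i j)
  have hpt : ∀ n : S2, (fun x : E3 => ∑ i, ∑ j, (x j * pd i (fun y => y j * h4b_Z g i y) x
      - x i * pd j (fun y => y j * h4b_Z g i y) x)) (r • (n : E3)) =
      (fun x : E3 => r ^ 2 * (‖x‖ * dD g x + (hT g x - hN g x) - ‖x‖ * dN g x - 2 * hN g x)) (r • (n : E3)) := by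
    intro n
    set x : E3 := r • (n : E3) with hxdef
    have hxn : ‖x‖ = r := norm_ray hr n
    have hxa : a < ‖x‖ := by rw [hxn]; exact har
    have hdZ : ∀ i, DifferentiableAt ℝ (h4b_Z g i) x := fun i =>
      ((h4b_Z_C1 hg i).differentiableOn (by norm_num)).differentiableAt ((isOpen_ext a).mem_nhds hxa)
    have e1 : ∀ i j k : Fin 3, pd k (fun y : E3 => y j * h4b_Z g i y) x =
        x j * pd k (h4b_Z g i) x + h4b_Z g i x * (if j = k then 1 else 0) := by
      intro i j k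
      rw [pd_mul k (diff_coord j x) (hdZ i), pd_coord]
    have hsq : x 0 ^ 2 + x 1 ^ 2 + x 2 ^ 2 = r ^ 2 := by rw [← norm_sq_eq, hxn]
    simp only [e1, h4b_pdZ hg hxa]
    unfold hN hT dD dN h4b_Z
    rw [hxn]
    have key := h4b_alg (fun i j => g x i j - (1 : Matrix (Fin 3) (Fin 3) ℝ) i j) (fun k i j => pd k (fun y => g y i j) x)
      (fun i => x i) hr.ne' hsq
    have e5 : ∀ i : Fin 3, g x i i - 1 = g x i i - (1 : Matrix (Fin 3) (Fin 3) ℝ) i i := by
      intro i
      rw [Matrix.one_apply_eq]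
    simp only [e5]
    exact key
  have h7 : avg (fun x : E3 => ∑ i, ∑ j, (x j * pd i (fun y => y j * h4b_Z g i y) x
      - x i * pd j (fun y => y j * h4b_Z g i y) x)) r = avg (fun x : E3 =>
    r ^ 2 * (‖x‖ * dD g x + (hT g x - hN g x) - ‖x‖ * dN g x - 2 * hN g x)) r := by
    unfold avg
    congr 1
    exact integral_congr_ae (Eventually.of_forall hpt)
  rw [h7, avg_smul] at hsum
  have hr2 : r ^ 2 ≠ 0 := by positivity
  exact (mul_eq_zero.1 hsum).resolve_left hr2

end UMB.Far
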