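import Pool.Agent.Lib.UMB.Far.H4a
import Pool.Agent.Lib.UMB.Far.H4b
import Pool.Agent.Lib.UMB.SS.Red2

set_option autoImplicit false

/-! # UMB.Far, chunk H4c: `4π - (1/4) ∫ H² dA` -/

/-! # UMB.Far, chunk H4c: `4π - (1/4) ∫ H² dA` -/

open Filter Topology Set MeasureTheory
open scoped ContDiff

namespace UMB.Far

open Pool.Agent.Lib.PenroseSph (E3 S2 Tens pd trg meanCurv gradNorm normal chr avg sm admFlux fluxDensity avg_rot)

theorem h4c_n {x : E3} (hx : x ≠ 0) (i : Fin 3) : ContDiffAt ℝ ∞ (fun y : E3 => y i / ‖y‖) x := by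
  have h1 : ContDiffAt ℝ ∞ (fun y : E3 => y i) x :=
    ((EuclideanSpace.proj i : E3 →L[ℝ] ℝ).contDiff).contDiffAt
  exact h1.div (contDiffAt_norm ℝ hx) (norm_ne_zero_iff.mpr hx)

theorem h4c_chr {g : Tens} {a : ℝ} {x : E3} (hg : SmM g a) (hx : a < ‖x‖) (k i j : Fin 3) :
    ContDiffAt ℝ ∞ (chr g k i j) x := by
  unfold chr
  exact contDiffAt_const.mul (ContDiffAt.sum fun l _ => (hg.inv hx k l).mul
    (((contDiffAt_pd (hg.sm.at hx j l) i).add (contDiffAt_pd (hg.sm.at hx i l) j)).sub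
      (contDiffAt_pd (hg.sm.at hx i j) l)))

theorem h4c_mc {g : Tens} {a : ℝ} {x : E3} (hg : SmM g a) (hx : a < ‖x‖) (hx0 : x ≠ 0) :
    ContDiffAt ℝ ∞ (meanCurv g (fun y => ‖y‖)) x := by
  have hw := pd_norm_ne hx0
  have hws : ContDiffAt ℝ ∞ (fun y : E3 => ‖y‖) x := contDiffAt_norm ℝ hx0
  unfold meanCurv
  refine ContDiffAt.div ?_ (hg.gradNorm_at hx hw hws) (hg.gradNorm_pos hx hw).ne'
  exact ContDiffAt.sum fun i _ => ContDiffAt.sum fun j _ => ((hg.inv hx i j).sub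
    ((hg.normal_at hx hw hws i).mul (hg.normal_at hx hw hws j))).mul
    ((contDiffAt_pd (contDiffAt_pd hws j) i).sub
      (ContDiffAt.sum fun k _ => (h4c_chr hg hx k i j).mul (contDiffAt_pd hws k)))

theorem h4c_area {g : Tens} {a : ℝ} {x : E3} (hg : SmM g a) (hx : a < ‖x‖) (hx0 : x ≠ 0) :
    ContinuousAt (areaD g) x := by
  have hws : ContDiffAt ℝ ∞ (fun y : E3 => ‖y‖) x := contDiffAt_norm ℝ hx0
  unfold areaD
  refine ContinuousAt.mul ?_ (hg.gradNorm_cont hx hws)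
  unfold vol
  exact ((s_det_at (fun i j => hg.sm.at hx i j)).continuousAt).sqrt

theorem h4c_d {g : Tens} {a : ℝ} {x : E3} (hg : SmM g a) (hx : a < ‖x‖) (hx0 : x ≠ 0) :
    ContinuousAt (hT g) x ∧ ContinuousAt (hN g) x ∧ ContinuousAt (dD g) x ∧ ContinuousAt (dT g) x ∧
      ContinuousAt (dN g) x := by
  refine ⟨?_, ?_, ?_, ?_, ?_⟩
  · unfold hT
    exact (ContDiffAt.sum fun i _ => (hg.sm.at hx i i).sub contDiffAt_const).continuousAt
  · unfold hN
    exact (ContDiffAt.sum fun i _ => ContDiffAt.sum fun j _ =>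
      (((hg.sm.at hx i j).sub contDiffAt_const).mul (h4c_n hx0 i)).mul (h4c_n hx0 j)).continuousAt
  · unfold dD
    exact (ContDiffAt.sum fun i _ => ContDiffAt.sum fun j _ =>
      (contDiffAt_pd (hg.sm.at hx i j) i).mul (h4c_n hx0 j)).continuousAt
  · unfold dT
    exact (ContDiffAt.sum fun j _ => ContDiffAt.sum fun k _ =>
      (contDiffAt_pd (hg.sm.at hx j j) k).mul (h4c_n hx0 k)).continuousAt
  · unfold dN
    exact (ContDiffAt.sum fun i _ => ContDiffAt.sum fun j _ => ContDiffAt.sum fun k _ =>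
      (((contDiffAt_pd (hg.sm.at hx i j) k).mul (h4c_n hx0 i)).mul (h4c_n hx0 j)).mul (h4c_n hx0 k)).continuousAt

theorem h4c_flux {g : Tens} {a : ℝ} {x : E3} (hs : ∀ x : E3, a < ‖x‖ → (g x).IsSymm) (hx : a < ‖x‖) :
    fluxDensity g x = dD g x - dT g x := by
  have h1 : ∀ i j k, pd k (fun y => g y i j) x = pd k (fun y => g y j i) x := by
    intro i j k
    refine Pool.Agent.Lib.PenroseSph.pd_congr k ?_
    filter_upwards [(isOpen_ext' a).mem_nhds hx] with y hy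
    exact (hs y hy).apply j i
  unfold fluxDensity dD dT
  simp only [Fin.sum_univ_three]
  rw [h1 1 0 1, h1 2 0 2, h1 2 1 2, h1 1 0 0, h1 2 0 0, h1 2 1 1]
  ring

theorem h4c_int {T F : S2 → ℝ} (hT : Integrable T sm) (hF : Integrable F sm) (c : ℝ) (h0 : ∫ n, T n ∂sm = 0) :
    ∫ n, (1 - T n / 2 - c * F n) ∂sm = 4 * Real.pi - c * ∫ n, F n ∂sm := by
  have h1 : Integrable (fun n => 1 - T n / 2) sm := (integrable_const 1).sub (hT.div_const 2)
  rw [integral_sub h1 (hF.const_mul c), integral_sub (integrable_const 1) (hT.div_const 2), integral_div, h0,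
    integral_const_mul, integral_const, Pool.Agent.Lib.PenroseSph.sm_univ]
  simp

/-- CHUNK H4c (M). `|4π - (1/4) ∫ r² A H² - 8π admFlux/r| ≤ C ε²`.
PROOF. Integrate `H_sq_approx` over the sphere (`sm_univ`: total mass `4 pi`, continuity of all functions on the sphere of
radius `r`): `4 pi - (1/4) int r^2 A H^2 = - 4 pi avg (r H1 + (hT - hN)/2) + O(4 pi 10^5 ε^2)`. By `tang_div`,
`avg (r H1 + (hT-hN)/2) = avg (-(hT-hN)/2 + hN - r dD + r dT/2 + r dN/2) = avg (- r dD/2 + r dT/2)`, and `dD - dT = fluxDensity`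
(rename the summation indices), `admFlux g r = (1/(16 pi)) int r^2 fluxDensity`. -/
theorem willmore_approx {g : Tens} {a r ε : ℝ} (ha : 0 ≤ a) (har : a < r)
    (hg : ∀ i j, ContDiffOn ℝ ∞ (fun x => g x i j) {x : E3 | a < ‖x‖})
    (hs : ∀ x : E3, a < ‖x‖ → (g x).IsSymm) (hpos : ∀ x : E3, a < ‖x‖ → ∀ v : Fin 3 → ℝ, v ≠ 0 → 0 < quad g x v)
    (hn : ∀ x : E3, ‖x‖ = r → Near g ε x) :
    |4 * Real.pi - (∫ n : S2, r ^ 2 * (areaD g (r • (n : E3)) * meanCurv g (fun y => ‖y‖) (r • (n : E3)) ^ 2) ∂sm) / 4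
      - 8 * Real.pi * admFlux g r / r| ≤ 2000000 * ε ^ 2 := by
  have hr : 0 < r := lt_of_le_of_lt ha har
  have hS : SmM g a := ⟨hg, hs, hpos⟩
  have hne : ∀ x : E3, a < ‖x‖ → x ≠ 0 := by
    intro x hx h0
    rw [h0, norm_zero] at hx
    linarith
  have hnr : ∀ n : S2, ‖r • (n : E3)‖ = r := fun n => Pool.Agent.Lib.PenroseSph.norm_ray hr n
  have hc : ∀ f : E3 → ℝ, (∀ x : E3, a < ‖x‖ → ContinuousAt f x) → Integrable (fun n : S2 => f (r • (n : E3))) sm := by
    intro f hf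
    apply Pool.Agent.Lib.PenroseSph.integrable_S2
    exact Pool.Agent.Lib.PenroseSph.cont_ray ha (fun x hx => (hf x hx).continuousWithinAt) har
  have cn : ∀ x : E3, ContinuousAt (fun y : E3 => ‖y‖) x := fun x => continuous_norm.continuousAt
  -- the functions
  have i1 : Integrable (fun n : S2 => r ^ 2 * (areaD g (r • (n : E3)) *
      meanCurv g (fun y => ‖y‖) (r • (n : E3)) ^ 2) / 4) sm := by
    refine (hc (fun x => r ^ 2 * (areaD g x * meanCurv g (fun y => ‖y‖) x ^ 2) / 4) ?_)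
    intro x hx
    exact (continuousAt_const.mul ((h4c_area hS hx (hne x hx)).mul
      ((h4c_mc hS hx (hne x hx)).continuousAt.pow 2))).div_const 4
  have iT : Integrable (fun n : S2 => (fun x => ‖x‖ * dD g x + (hT g x - hN g x) - ‖x‖ * dN g x - 2 * hN g x)
      (r • (n : E3))) sm := by
    refine hc (fun x => ‖x‖ * dD g x + (hT g x - hN g x) - ‖x‖ * dN g x - 2 * hN g x) ?_
    intro x hx
    obtain ⟨c1, c2, c3, c4, c5⟩ := h4c_d hS hx (hne x hx)
    exact ((((cn x).mul c3).add (c1.sub c2)).sub ((cn x).mul c5)).sub (continuousAt_const.mul c2)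
  have iF : Integrable (fun n : S2 => (fun x => dD g x - dT g x) (r • (n : E3))) sm := by
    refine hc (fun x => dD g x - dT g x) ?_
    intro x hx
    obtain ⟨c1, c2, c3, c4, c5⟩ := h4c_d hS hx (hne x hx)
    exact c3.sub c4
  have hTd := tang_div (g := g) ha har (fun i j => (hg i j).of_le (by simp))
  have hT0 : ∫ n : S2, (fun x => ‖x‖ * dD g x + (hT g x - hN g x) - ‖x‖ * dN g x - 2 * hN g x) (r • (n : E3)) ∂sm = 0 := by
    unfold avg at hTd
    have hpi : (4 * Real.pi)⁻¹ ≠ 0 := by positivity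
    exact (mul_eq_zero.mp hTd).resolve_left hpi
  have hf2 : ∀ n : S2, 1 + ‖r • (n : E3)‖ * H1 g (r • (n : E3)) + (hT g (r • (n : E3)) - hN g (r • (n : E3))) / 2 =
      1 - (fun x => ‖x‖ * dD g x + (hT g x - hN g x) - ‖x‖ * dN g x - 2 * hN g x) (r • (n : E3)) / 2 -
        r / 2 * (fun x => dD g x - dT g x) (r • (n : E3)) := by
    intro n
    simp only [hnr n]
    unfold H1
    rw [hnr n]
    field_simp
    ring
  have i2 : Integrable (fun n : S2 => 1 - (fun x => ‖x‖ * dD g x + (hT g x - hN g x) - ‖x‖ * dN g x - 2 * hN g x)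
      (r • (n : E3)) / 2 - r / 2 * (fun x => dD g x - dT g x) (r • (n : E3))) sm :=
    ((integrable_const 1).sub (iT.div_const 2)).sub (iF.const_mul (r / 2))
  have hI2 : ∫ n : S2, (1 - (fun x => ‖x‖ * dD g x + (hT g x - hN g x) - ‖x‖ * dN g x - 2 * hN g x)
      (r • (n : E3)) / 2 - r / 2 * (fun x => dD g x - dT g x) (r • (n : E3))) ∂sm =
      4 * Real.pi - r / 2 * ∫ n : S2, (fun x => dD g x - dT g x) (r • (n : E3)) ∂sm := by
    exact h4c_int iT iF (r / 2) hT0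
  have hflux : admFlux g r = (1 / (16 * Real.pi)) * (r ^ 2 * ∫ n : S2, (fun x => dD g x - dT g x) (r • (n : E3)) ∂sm) := by
    unfold admFlux
    congr 1
    rw [← integral_const_mul]
    refine integral_congr_ae (Eventually.of_forall fun n => ?_)
    have h1 : a < ‖r • (n : E3)‖ := by rw [hnr n]; exact har
    show r ^ 2 * fluxDensity g (r • (n : E3)) = r ^ 2 * (dD g (r • (n : E3)) - dT g (r • (n : E3)))
    rw [h4c_flux hs h1]
  have hb : ‖∫ n : S2, (r ^ 2 * (areaD g (r • (n : E3)) * meanCurv g (fun y => ‖y‖) (r • (n : E3)) ^ 2) / 4 -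
      (1 - (fun x => ‖x‖ * dD g x + (hT g x - hN g x) - ‖x‖ * dN g x - 2 * hN g x)
      (r • (n : E3)) / 2 - r / 2 * (fun x => dD g x - dT g x) (r • (n : E3)))) ∂sm‖ ≤
      100000 * ε ^ 2 * sm.real (univ : Set S2) := by
    apply norm_integral_le_of_norm_le_const
    refine Eventually.of_forall fun n => ?_
    rw [← hf2 n, Real.norm_eq_abs]
    have h1 : a < ‖r • (n : E3)‖ := by rw [hnr n]; exact har
    have h2 := H_sq_approx (hn _ (hnr n)) (by
      filter_upwards [(isOpen_ext' a).mem_nhds h1] with y hy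
      exact hs y hy)
    rw [hnr n] at h2 ⊢
    exact h2
  rw [integral_sub i1 i2, hI2, integral_div, Pool.Agent.Lib.PenroseSph.sm_univ, Real.norm_eq_abs] at hb
  rw [hflux]
  generalize (∫ n : S2, (fun x => dD g x - dT g x) (r • (n : E3)) ∂sm) = J at hb ⊢
  generalize (∫ n : S2, r ^ 2 * (areaD g (r • (n : E3)) * meanCurv g (fun y => ‖y‖) (r • (n : E3)) ^ 2) ∂sm) = F at hb ⊢
  have e : 4 * Real.pi - F / 4 - 8 * Real.pi * (1 / (16 * Real.pi) * (r ^ 2 * J)) / r =
      -(F / 4 - (4 * Real.pi - r / 2 * J)) := by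
    have hpi : Real.pi ≠ 0 := Real.pi_ne_zero
    field_simp
    ring
  rw [e, abs_neg]
  have hpi4 : Real.pi < 4 := by linarith [Real.pi_lt_d2]
  have h0 : 0 ≤ ε ^ 2 := sq_nonneg ε
  calc |F / 4 - (4 * Real.pi - r / 2 * J)| ≤ 100000 * ε ^ 2 * (4 * Real.pi) := hb
    _ ≤ 2000000 * ε ^ 2 := by nlinarith

end UMB.Far
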