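import Pool.Agent.Lib.UMB.Far.Defs
import Pool.Agent.Lib.UMB.Lin.M5

set_option autoImplicit false

/-! # UMB.Far, chunk A1: maximum principle for the flat Laplacian -/

open Filter Topology Set MeasureTheory
open scoped ContDiff

namespace UMB.Far

open Pool.Agent.Lib.PenroseSph (E3 pd)

/-- CHUNK A1 (S). Weak maximum principle for the flat Laplacian.
PROOF. `UMB.Lin.m5_weak` with `a = fun _ => 1`, `b = 0`, `lam = B = 1`: `Lm 1 0 w x = lap0 w x` (double sum of the unit matrix),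
`Ell` is immediate. -/
theorem max_flat {Om : Set E3} (hO : IsOpen Om) (hbd : Bornology.IsBounded Om) {w : E3 → ℝ}
    (hc : ContinuousOn w (closure Om)) (hw : ContDiffOn ℝ 2 w Om) (hL : ∀ x ∈ Om, 0 ≤ lap0 w x) {M : ℝ}
    (hM : ∀ x ∈ frontier Om, w x ≤ M) : ∀ x ∈ closure Om, w x ≤ M := by
  intro x0 hx0
  by_contra hcon
  push Not at hcon
  obtain ⟨D, hD⟩ := hbd.closure.exists_norm_le
  have hcomp : IsCompact (closure Om) := Metric.isCompact_of_isClosed_isBounded isClosed_closure hbd.closure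
  set δ : ℝ := w x0 - M with hδ
  have hδ0 : 0 < δ := by rw [hδ]; linarith
  set ε : ℝ := δ / (2 * (D ^ 2 + 1)) with hε
  have hD1 : 0 < 2 * (D ^ 2 + 1) := by positivity
  have hε0 : 0 < ε := div_pos hδ0 hD1
  have hεD : ε * D ^ 2 < δ := by
    have h1 : ε * (2 * (D ^ 2 + 1)) = δ := div_mul_cancel₀ _ hD1.ne'
    nlinarith [mul_nonneg hε0.le (sq_nonneg D)]
  have hqc : Continuous (fun x : E3 => ‖x‖ ^ 2) := by fun_prop
  have hq2 : ContDiff ℝ 2 (fun x : E3 => ‖x‖ ^ 2) := contDiff_norm_sq ℝ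
  obtain ⟨y, hy, hmax⟩ := hcomp.exists_isMaxOn ⟨x0, hx0⟩
    (f := fun x => 1 * w x + ε * ‖x‖ ^ 2)
    ((continuousOn_const.mul hc).add (continuousOn_const.mul hqc.continuousOn))
  have hy0 : w x0 ≤ 1 * w y + ε * ‖y‖ ^ 2 := by
    have h1 : 1 * w x0 + ε * ‖x0‖ ^ 2 ≤ 1 * w y + ε * ‖y‖ ^ 2 := hmax hx0
    nlinarith [mul_nonneg hε0.le (sq_nonneg ‖x0‖)]
  have hyO : y ∈ Om := by
    by_contra hn
    have hf : y ∈ frontier Om := ⟨hy, by rwa [hO.interior_eq]⟩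
    have h1 := hM y hf
    have h2 : ‖y‖ ≤ D := hD y hy
    have h3 : ‖y‖ ^ 2 ≤ D ^ 2 := pow_le_pow_left₀ (norm_nonneg y) h2 2
    have h4 := mul_le_mul_of_nonneg_left h3 hε0.le
    linarith
  have hwy : ContDiffAt ℝ 2 w y := hw.contDiffAt (hO.mem_nhds hyO)
  have hqy : ContDiffAt ℝ 2 (fun x : E3 => ‖x‖ ^ 2) y := hq2.contDiffAt
  have huy : ContDiffAt ℝ 2 (fun x : E3 => 1 * w x + ε * ‖x‖ ^ 2) y :=
    (contDiffAt_const.mul hwy).add (contDiffAt_const.mul hqy)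
  have hloc : IsLocalMax (fun x : E3 => 1 * w x + ε * ‖x‖ ^ 2) y := by
    filter_upwards [hO.mem_nhds hyO] with z hz
    exact hmax (subset_closure hz)
  have hq : ∀ i, Pool.Agent.Lib.PenroseSph.pd i
      (Pool.Agent.Lib.PenroseSph.pd i (fun x : E3 => ‖x‖ ^ 2)) y = 2 := by
    intro i
    have h1 : Pool.Agent.Lib.PenroseSph.pd i (fun x : E3 => ‖x‖ ^ 2) = fun x => 2 * x i := by
      funext x
      unfold Pool.Agent.Lib.PenroseSph.pd
      rw [(hasStrictFDerivAt_norm_sq x).hasFDerivAt.fderiv]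
      simp [UMB.Lin.m3_inner]
    rw [h1]
    unfold Pool.Agent.Lib.PenroseSph.pd
    have h2 : HasFDerivAt (fun x : E3 => 2 * x i) ((2 : ℝ) • (EuclideanSpace.proj i : E3 →L[ℝ] ℝ)) y :=
      (EuclideanSpace.proj i : E3 →L[ℝ] ℝ).hasFDerivAt.const_mul 2
    rw [h2.fderiv]
    simp
  have hi : ∀ i, Pool.Agent.Lib.PenroseSph.pd i (Pool.Agent.Lib.PenroseSph.pd i w) y + 2 * ε ≤ 0 := by
    intro i
    have h1 := UMB.Lin.max_hess huy hloc (fun j => if j = i then 1 else 0)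
    have h2 : ∑ a, ∑ b, Pool.Agent.Lib.PenroseSph.pd a (Pool.Agent.Lib.PenroseSph.pd b
        (fun x : E3 => 1 * w x + ε * ‖x‖ ^ 2)) y * (if a = i then (1 : ℝ) else 0)
          * (if b = i then (1 : ℝ) else 0) = Pool.Agent.Lib.PenroseSph.pd i
          (Pool.Agent.Lib.PenroseSph.pd i (fun x : E3 => 1 * w x + ε * ‖x‖ ^ 2)) y := by
      simp
    rw [h2, UMB.Lin.m4_pd2_lin hwy hqy, hq i] at h1
    linarith
  have h3 := hL y hyO
  unfold lap0 at h3
  rw [Fin.sum_univ_three] at h3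
  linarith [hi 0, hi 1, hi 2]

end UMB.Far
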