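import Pool.Agent.Lib.UMB.Far.A1

set_option autoImplicit false

/-! # UMB.Far, chunk A2: maximum principle on annuli and half annuli -/

open Filter Topology Set MeasureTheory
open scoped ContDiff

namespace UMB.Far

open Pool.Agent.Lib.PenroseSph (E3 pd)

theorem a2_ip_cont (e : E3) : Continuous (fun x : E3 => ip x e) := by
  unfold ip
  fun_prop

/-- CHUNK A2 (S/M), first statement: annulus.
PROOF. `max_flat` on `Om = {r1 < |x| < r2}` (open, bounded); `closure Om` is contained in the closed annulus, a point of the frontier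
is in the closed annulus and not in `Om`, so its norm is `r1` or `r2`. A point of the closed annulus is in `Om` or has norm `r1` or
`r2`. -/
theorem max_ann {r1 r2 : ℝ} {w : E3 → ℝ}
    (hc : ContinuousOn w {x : E3 | r1 ≤ ‖x‖ ∧ ‖x‖ ≤ r2}) (hw : ContDiffOn ℝ 2 w {x : E3 | r1 < ‖x‖ ∧ ‖x‖ < r2})
    (hL : ∀ x : E3, r1 < ‖x‖ → ‖x‖ < r2 → 0 ≤ lap0 w x) {M : ℝ} (hM1 : ∀ x : E3, ‖x‖ = r1 → w x ≤ M)
    (hM2 : ∀ x : E3, ‖x‖ = r2 → w x ≤ M) : ∀ x : E3, r1 ≤ ‖x‖ → ‖x‖ ≤ r2 → w x ≤ M := by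
  intro x h1 h2
  have hO : IsOpen {x : E3 | r1 < ‖x‖ ∧ ‖x‖ < r2} :=
    (isOpen_lt continuous_const continuous_norm).inter (isOpen_lt continuous_norm continuous_const)
  have hC : IsClosed {x : E3 | r1 ≤ ‖x‖ ∧ ‖x‖ ≤ r2} :=
    (isClosed_le continuous_const continuous_norm).inter (isClosed_le continuous_norm continuous_const)
  have hcl : closure {x : E3 | r1 < ‖x‖ ∧ ‖x‖ < r2} ⊆ {x : E3 | r1 ≤ ‖x‖ ∧ ‖x‖ ≤ r2} :=
    closure_minimal (fun y hy => ⟨hy.1.le, hy.2.le⟩) hC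
  have hbd : Bornology.IsBounded {x : E3 | r1 < ‖x‖ ∧ ‖x‖ < r2} :=
    (Metric.isBounded_closedBall (x := (0 : E3)) (r := r2)).subset (fun y hy => by
      rw [mem_closedBall_zero_iff]; exact hy.2.le)
  by_cases hx : x ∈ {x : E3 | r1 < ‖x‖ ∧ ‖x‖ < r2}
  · refine max_flat hO hbd (hc.mono hcl) hw (fun y hy => hL y hy.1 hy.2) (fun y hy => ?_) x (subset_closure hx)
    have hy1 := hcl hy.1
    have hy2 : y ∉ {x : E3 | r1 < ‖x‖ ∧ ‖x‖ < r2} := by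
      have := hy.2
      rwa [hO.interior_eq] at this
    rcases hy1.1.eq_or_lt with h3 | h3
    · exact hM1 y h3.symm
    · rcases hy1.2.eq_or_lt with h4 | h4
      · exact hM2 y h4
      · exact absurd ⟨h3, h4⟩ hy2
  · rcases h1.eq_or_lt with h3 | h3
    · exact hM1 x h3.symm
    · rcases h2.eq_or_lt with h4 | h4
      · exact hM2 x h4
      · exact absurd ⟨h3, h4⟩ hx

/-- CHUNK A2 (S/M), second statement: half annulus.
PROOF. The same with `Om = {r1 < |x| < r2, 0 < ip x e}` and `M = 0`; `ip x e` is continuous in `x`. Points with `ip x e = 0` are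
covered by `hM3`, points of norm `r1`, `r2` by `hM1`, `hM2`, the others are in `Om`. -/
theorem max_half {r1 r2 : ℝ} (e : E3) {w : E3 → ℝ}
    (hc : ContinuousOn w {x : E3 | r1 ≤ ‖x‖ ∧ ‖x‖ ≤ r2}) (hw : ContDiffOn ℝ 2 w {x : E3 | r1 < ‖x‖ ∧ ‖x‖ < r2})
    (hL : ∀ x : E3, r1 < ‖x‖ → ‖x‖ < r2 → 0 < ip x e → 0 ≤ lap0 w x)
    (hM1 : ∀ x : E3, ‖x‖ = r1 → 0 ≤ ip x e → w x ≤ 0) (hM2 : ∀ x : E3, ‖x‖ = r2 → 0 ≤ ip x e → w x ≤ 0)
    (hM3 : ∀ x : E3, r1 ≤ ‖x‖ → ‖x‖ ≤ r2 → ip x e = 0 → w x ≤ 0) :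
    ∀ x : E3, r1 ≤ ‖x‖ → ‖x‖ ≤ r2 → 0 ≤ ip x e → w x ≤ 0 := by
  intro x h1 h2 h0
  have hic := a2_ip_cont e
  have hO : IsOpen {x : E3 | (r1 < ‖x‖ ∧ ‖x‖ < r2) ∧ 0 < ip x e} :=
    ((isOpen_lt continuous_const continuous_norm).inter
      (isOpen_lt continuous_norm continuous_const)).inter (isOpen_lt continuous_const hic)
  have hC : IsClosed {x : E3 | (r1 ≤ ‖x‖ ∧ ‖x‖ ≤ r2) ∧ 0 ≤ ip x e} :=
    ((isClosed_le continuous_const continuous_norm).inter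
      (isClosed_le continuous_norm continuous_const)).inter (isClosed_le continuous_const hic)
  have hcl : closure {x : E3 | (r1 < ‖x‖ ∧ ‖x‖ < r2) ∧ 0 < ip x e}
      ⊆ {x : E3 | (r1 ≤ ‖x‖ ∧ ‖x‖ ≤ r2) ∧ 0 ≤ ip x e} :=
    closure_minimal (fun y hy => ⟨⟨hy.1.1.le, hy.1.2.le⟩, hy.2.le⟩) hC
  have hbd : Bornology.IsBounded {x : E3 | (r1 < ‖x‖ ∧ ‖x‖ < r2) ∧ 0 < ip x e} :=
    (Metric.isBounded_closedBall (x := (0 : E3)) (r := r2)).subset (fun y hy => by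
      rw [mem_closedBall_zero_iff]; exact hy.1.2.le)
  have key : ∀ y : E3, y ∈ {x : E3 | (r1 ≤ ‖x‖ ∧ ‖x‖ ≤ r2) ∧ 0 ≤ ip x e} →
      y ∉ {x : E3 | (r1 < ‖x‖ ∧ ‖x‖ < r2) ∧ 0 < ip x e} → w y ≤ 0 := by
    intro y hy hn
    rcases hy.1.1.eq_or_lt with h3 | h3
    · exact hM1 y h3.symm hy.2
    · rcases hy.1.2.eq_or_lt with h4 | h4
      · exact hM2 y h4 hy.2
      · rcases hy.2.eq_or_lt with h5 | h5
        · exact hM3 y hy.1.1 hy.1.2 h5.symm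
        · exact absurd ⟨⟨h3, h4⟩, h5⟩ hn
  by_cases hx : x ∈ {x : E3 | (r1 < ‖x‖ ∧ ‖x‖ < r2) ∧ 0 < ip x e}
  · refine max_flat hO hbd (hc.mono (fun y hy => (hcl hy).1)) (hw.mono (fun y hy => hy.1))
      (fun y hy => hL y hy.1.1 hy.1.2 hy.2) (fun y hy => ?_) x (subset_closure hx)
    refine key y (hcl hy.1) ?_
    have := hy.2
    rwa [hO.interior_eq] at this
  · exact key x ⟨⟨h1, h2⟩, h0⟩ hx

end UMB.Far
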