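import Pool.Agent.Lib.UMB.Far.Defs

set_option autoImplicit false

/-! # UMB.Far, chunk A4: mean value property -/

open Filter Topology Set MeasureTheory
open scoped ContDiff

namespace UMB.Far

open Pool.Agent.Lib.PenroseSph (E3 S2 pd avg sm hasDerivAt_avg flux_deriv)

/-- Continuity of the averages in the radius. -/
lemma a4_cont {f : E3 → ℝ} (hf : Continuous f) : Continuous (avg f) := by
  have h1 : Continuous (fun s : ℝ => ∫ n in (univ : Set S2), f (s • (n : E3)) ∂sm) := by
    apply continuous_parametric_integral_of_continuous _ isCompact_univ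
    show Continuous (fun q : ℝ × S2 => f (q.1 • (q.2 : E3)))
    fun_prop
  have h2 : avg f = fun s : ℝ => (4 * Real.pi)⁻¹ * ∫ n in (univ : Set S2), f (s • (n : E3)) ∂sm := by
    funext s
    rw [setIntegral_univ]
    rfl
  rw [h2]
  exact continuous_const.mul h1

/-- Continuity of the averages at zero radius.
PROOF (part of CHUNK A4). `avg f s = (4 pi)^-1 int f(s n)`, `sm_univ`; `|avg f s - f 0| <= sup |f(s n) - f 0|`; continuity of `f`
at `0`. (For instance continuity of the parametric integral on the compact sphere.) -/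
theorem avg_tendsto {f : E3 → ℝ} (hf : Continuous f) : Tendsto (avg f) (𝓝 0) (𝓝 (f 0)) := by
  have h := (a4_cont hf).tendsto 0
  have e : avg f 0 = f 0 := by
    have : avg f 0 = avg (fun _ => f 0) 0 := by
      apply Pool.Agent.Lib.PenroseSph.avg_congr
      intro n
      rw [zero_smul]
    rw [this, Pool.Agent.Lib.PenroseSph.avg_const]
  rwa [e] at h

/-- A function with zero derivative on `(0, rho)` equals its limit at `0`. -/
lemma a4_const {g : ℝ → ℝ} {L ρ : ℝ} (hd : ∀ s, 0 < s → s < ρ → HasDerivAt g 0 s)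
    (hL : Tendsto g (𝓝[>] 0) (𝓝 L)) {t : ℝ} (h0 : 0 < t) (ht : t < ρ) : g t = L := by
  have hc : ∀ s ∈ Ioo (0 : ℝ) ρ, g s = g t := by
    intro s hs
    refine isOpen_Ioo.is_const_of_deriv_eq_zero isPreconnected_Ioo ?_ ?_ hs (show t ∈ Ioo (0 : ℝ) ρ from ⟨h0, ht⟩)
    · intro s hs
      exact (hd s hs.1 hs.2).differentiableAt.differentiableWithinAt
    · intro s hs
      exact (hd s hs.1 hs.2).deriv
  have hev : ∀ᶠ s in 𝓝[>] (0 : ℝ), g s = g t := by
    filter_upwards [Ioo_mem_nhdsGT (lt_trans h0 ht)] with s hs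
    exact hc s hs
  have h1 : Tendsto g (𝓝[>] 0) (𝓝 (g t)) :=
    (tendsto_const_nhds (x := g t) (f := 𝓝[>] (0 : ℝ))).congr' (hev.mono fun s hs => hs.symm)
  exact tendsto_nhds_unique h1 hL

lemma a4_pd {f : E3 → ℝ} {n m : WithTop ℕ∞} (hf : ContDiff ℝ m f) (hn : n + 1 ≤ m) (i : Fin 3) :
    ContDiff ℝ n (pd i f) := by
  have h1 : ContDiff ℝ n (fun x => fderiv ℝ f x (EuclideanSpace.single i 1)) :=
    (hf.fderiv_right hn).clm_apply contDiff_const
  exact h1

/-- CHUNK A4 (M). Mean value property.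
PROOF. `flux_deriv` (with `a = 0`, `Y i = pd i f`): `phi s = s * avg (sum pd i f x_i) s` has derivative `s^2 avg (lap0 f) s = 0` for
`0 < s < rho`, so it is constant on `(0, rho)`; as `|phi s| <= C s^2` (the field is bounded near `0`, `|x_i| <= s`) the constant
is `0`. By `hasDerivAt_avg`, `(avg f)' (s) = avg (sum (x_m/|x|) pd m f) s = phi s / s^2 = 0` (`avg_congr`: `|s n| = s`,
`avg_smul`), so `avg f` is constant on `(0, rho)`; its limit at `0` is `f 0` (`avg_tendsto`). -/
theorem mean_value {f : E3 → ℝ} (hf : ContDiff ℝ 2 f) {ρ : ℝ} (hh : ∀ x : E3, ‖x‖ < ρ → lap0 f x = 0) {t : ℝ}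
    (h0 : 0 < t) (ht : t < ρ) : avg f t = f 0 := by
  have hpd : ∀ i, ContDiff ℝ 1 (pd i f) := fun i => a4_pd (n := 1) hf (by norm_num) i
  have hGc : Continuous (fun x : E3 => ∑ i, pd i f x * x i) := by
    apply continuous_finsetSum
    intro i _
    exact (hpd i).continuous.mul (EuclideanSpace.proj i : E3 →L[ℝ] ℝ).continuous
  have hphi : ∀ s, 0 < s → s < ρ → s * avg (fun x => ∑ i, pd i f x * x i) s = 0 := by
    intro s hs hsr
    refine a4_const (g := fun s => s * avg (fun x => ∑ i, pd i f x * x i) s) (ρ := ρ) ?_ ?_ hs hsr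
    · intro r hr hrr
      have h := flux_deriv (a := 0) le_rfl hr (Y := fun i => pd i f) (fun i => (hpd i).contDiffOn)
      have e : r ^ 2 * avg (fun x => ∑ i, pd i (pd i f) x) r = 0 := by
        have : avg (fun x => ∑ i, pd i (pd i f) x) r = avg (fun _ => 0) r := by
          apply Pool.Agent.Lib.PenroseSph.avg_congr
          intro n
          exact hh _ (by rw [Pool.Agent.Lib.PenroseSph.norm_ray hr]; exact hrr)
        rw [this, Pool.Agent.Lib.PenroseSph.avg_const, mul_zero]
      rw [e] at h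
      exact h
    · have h1 : Tendsto (fun s : ℝ => s * avg (fun x => ∑ i, pd i f x * x i) s) (𝓝 0)
          (𝓝 (0 * (fun x : E3 => ∑ i, pd i f x * x i) 0)) := tendsto_id.mul (avg_tendsto hGc)
      rw [zero_mul] at h1
      exact h1.mono_left nhdsWithin_le_nhds
  refine a4_const (g := avg f) (ρ := ρ) ?_ ((avg_tendsto hf.continuous).mono_left nhdsWithin_le_nhds) h0 ht
  intro s hs hsr
  have h := hasDerivAt_avg (a := 0) le_rfl hs (f := f) ((hf.of_le (by norm_num)).contDiffOn)
  have e : avg (fun x => ∑ m, (x m / ‖x‖) * pd m f x) s = s⁻¹ * avg (fun x => ∑ i, pd i f x * x i) s := by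
    rw [← Pool.Agent.Lib.PenroseSph.avg_smul]
    apply Pool.Agent.Lib.PenroseSph.avg_congr
    intro n
    rw [Pool.Agent.Lib.PenroseSph.norm_ray hs, Finset.mul_sum]
    apply Finset.sum_congr rfl
    intro m _
    ring
  have h3 := hphi s hs hsr
  have h4 : avg (fun x => ∑ i, pd i f x * x i) s = 0 := by
    rcases mul_eq_zero.1 h3 with h5 | h5
    · exact absurd h5 hs.ne'
    · exact h5
  rw [e, h4, mul_zero] at h
  exact h

end UMB.Far
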