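import Pool.Agent.Lib.UMB.Far.A4

set_option autoImplicit false

/-! # UMB.Far, chunk A5: mean value formula for the gradient -/

open Filter Topology Set MeasureTheory
open scoped ContDiff

namespace UMB.Far

open Pool.Agent.Lib.PenroseSph (E3 S2 pd avg sm hasDerivAt_avg flux_deriv)

/-- Second partial derivatives commute. -/
lemma a5_comm {v : E3 → ℝ} (hv : ContDiff ℝ 2 v) (i j : Fin 3) (x : E3) :
    pd i (pd j v) x = pd j (pd i v) x := by
  have key : ∀ a b : Fin 3, pd a (pd b v) x =
      fderiv ℝ (fderiv ℝ v) x (EuclideanSpace.single a 1) (EuclideanSpace.single b 1) := by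
    intro a b
    have hd : DifferentiableAt ℝ (fderiv ℝ v) x :=
      ((hv.fderiv_right (m := 1) (by norm_num)).differentiable (by norm_num)) x
    have h1 : HasFDerivAt (fun y => fderiv ℝ v y (EuclideanSpace.single b 1))
        ((ContinuousLinearMap.apply ℝ ℝ (EuclideanSpace.single b (1 : ℝ))).comp (fderiv ℝ (fderiv ℝ v) x)) x :=
      (ContinuousLinearMap.apply ℝ ℝ (EuclideanSpace.single b (1 : ℝ))).hasFDerivAt.comp x hd.hasFDerivAt
    show fderiv ℝ (fun y => fderiv ℝ v y (EuclideanSpace.single b 1)) x (EuclideanSpace.single a 1) = _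
    rw [h1.fderiv]
    rfl
  rw [key, key]
  exact (hv.contDiffAt.isSymmSndFDerivAt (by simp)).eq _ _

/-- The partial derivatives of a harmonic function are harmonic (open set version).
PROOF (part of CHUNK A5). `f` is `C^3`; on the open set `{r1 < |x| < r2}` or `{|x| < rho}` the function `lap0 f` vanishes, so
`pd i (lap0 f) = 0` there, and `pd i (pd j (pd j f)) = pd j (pd j (pd i f))` by symmetry of second derivatives (twice,
`ContDiffAt.isSymmSndFDerivAt` or `second_derivative_symmetric`). -/
theorem pd_harm {f : E3 → ℝ} (hf : ContDiff ℝ 3 f) {U : Set E3} (hU : IsOpen U) (hh : ∀ x ∈ U, lap0 f x = 0) (i : Fin 3) :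
    ContDiff ℝ 2 (pd i f) ∧ ∀ x ∈ U, lap0 (pd i f) x = 0 := by
  have hpd : ∀ j, ContDiff ℝ 2 (pd j f) := fun j => a4_pd (n := 2) hf (by norm_num) j
  have hpd2 : ∀ j, ContDiff ℝ 1 (pd j (pd j f)) := fun j => a4_pd (n := 1) (hpd j) (by norm_num) j
  refine ⟨hpd i, fun x hx => ?_⟩
  have e1 : ∀ j, pd j (pd j (pd i f)) x = pd i (pd j (pd j f)) x := by
    intro j
    have h1 : pd j (pd i f) = pd i (pd j f) := by
      funext y
      exact a5_comm (hf.of_le (by norm_num)) j i y
    rw [h1]
    exact a5_comm (hpd j) j i x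
  have e2 : pd i (lap0 f) x = ∑ j, pd i (pd j (pd j f)) x := by
    have hl : lap0 f = fun y => (pd 0 (pd 0 f) y + pd 1 (pd 1 f) y) + pd 2 (pd 2 f) y := by
      funext y
      unfold lap0
      rw [Fin.sum_univ_three]
    rw [hl, Pool.Agent.Lib.PenroseSph.pd_add, Pool.Agent.Lib.PenroseSph.pd_add, Fin.sum_univ_three]
    · exact ((hpd2 0).differentiable (by norm_num)) x
    · exact ((hpd2 1).differentiable (by norm_num)) x
    · exact (((hpd2 0).differentiable (by norm_num)) x).fun_add (((hpd2 1).differentiable (by norm_num)) x)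
    · exact ((hpd2 2).differentiable (by norm_num)) x
  have e3 : pd i (lap0 f) x = 0 := by
    have h1 : pd i (lap0 f) x = pd i (fun _ => (0 : ℝ)) x := by
      apply Pool.Agent.Lib.PenroseSph.pd_congr
      filter_upwards [hU.mem_nhds hx] with y hy
      exact hh y hy
    rw [h1]
    unfold pd
    simp
  unfold lap0
  rw [Finset.sum_congr rfl (fun j _ => e1 j), ← e2, e3]

/-- CHUNK A5 (M). Mean value formula for the gradient.
PROOF. By `pd_harm` and `mean_value`, `avg (pd i f) s = pd i f 0` for `0 < s < rho`. By `flux_deriv` with `Y j = f` for `j = i` and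
`0` otherwise, `(s * avg (f x_i) s)' = s^2 avg (pd i f) s = s^2 pd i f 0`; so `s * avg (f x_i) s - (s^3/3) pd i f 0` is constant on
`(0, rho)`, and it tends to `0` at `0`. -/
theorem pd_mean {f : E3 → ℝ} (hf : ContDiff ℝ 3 f) {ρ : ℝ} (hh : ∀ x : E3, ‖x‖ < ρ → lap0 f x = 0) {t : ℝ}
    (h0 : 0 < t) (ht : t < ρ) (i : Fin 3) : pd i f 0 = 3 / t ^ 2 * avg (fun x => f x * x i) t := by
  have hU : IsOpen {x : E3 | ‖x‖ < ρ} := isOpen_lt continuous_norm continuous_const
  obtain ⟨hc, hl⟩ := pd_harm hf hU hh i
  have hc1 : Continuous (fun x : E3 => f x * x i) :=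
    hf.continuous.mul (EuclideanSpace.proj i : E3 →L[ℝ] ℝ).continuous
  have key : t * avg (fun x => f x * x i) t - t ^ 3 / 3 * pd i f 0 = 0 := by
    refine a4_const (g := fun s => s * avg (fun x => f x * x i) s - s ^ 3 / 3 * pd i f 0) (ρ := ρ) ?_ ?_ h0 ht
    · intro s hs hsr
      have h := flux_deriv (a := 0) le_rfl hs (Y := fun j => if j = i then f else fun _ => 0) (by
        intro j
        by_cases hj : j = i
        · simp only [hj, if_true]
          exact (hf.of_le (by norm_num)).contDiffOn
        · simp only [hj, if_false]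
          exact contDiffOn_const)
      have e1 : (fun s : ℝ => s * avg (fun x => ∑ j, (if j = i then f else fun _ => 0) x * x j) s)
          = fun s => s * avg (fun x => f x * x i) s := by
        funext s
        congr 2
        funext x
        rw [Finset.sum_eq_single i]
        · simp
        · intro j _ hj
          simp [hj]
        · intro h
          exact absurd (Finset.mem_univ i) h
      have e2 : (fun x : E3 => ∑ j, pd j ((fun j => if j = i then f else fun _ => (0 : ℝ)) j) x) = pd i f := by
        funext x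
        rw [Finset.sum_eq_single i]
        · simp
        · intro j _ hj
          simp only [hj, if_false]
          unfold pd
          simp
        · intro h
          exact absurd (Finset.mem_univ i) h
      have e3 : avg (pd i f) s = pd i f 0 := mean_value hc hl hs hsr
      rw [e2, e3] at h
      have h' : HasDerivAt (fun s : ℝ => s * avg (fun x => f x * x i) s) (s ^ 2 * pd i f 0) s := by
        rw [← e1]
        exact h
      have h2 : HasDerivAt (fun s : ℝ => s ^ 3 / 3 * pd i f 0) ((3 * s ^ 2) / 3 * pd i f 0) s := by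
        have h3 := ((hasDerivAt_pow 3 s).div_const 3).mul_const (pd i f 0)
        refine h3.congr_deriv ?_
        norm_num
      refine (h'.sub h2).congr_deriv ?_
      ring
    · have h1 : Tendsto (fun s : ℝ => s * avg (fun x => f x * x i) s - s ^ 3 / 3 * pd i f 0) (𝓝 0)
          (𝓝 (0 * avg (fun x => f x * x i) 0 - 0 ^ 3 / 3 * pd i f 0)) := by
        apply Continuous.tendsto
        have := a4_cont hc1
        fun_prop
      have h2 : (0 * avg (fun x => f x * x i) 0 - 0 ^ 3 / 3 * pd i f 0 : ℝ) = 0 := by ring
      rw [h2] at h1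
      exact h1.mono_left nhdsWithin_le_nhds
  field_simp
  have h4 : t * (avg (fun x => f x * x i) t - t ^ 2 / 3 * pd i f 0) = 0 := by
    rw [← key]; ring
  rcases mul_eq_zero.1 h4 with h5 | h5
  · exact absurd h5 h0.ne'
  · linarith

end UMB.Far
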