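import Pool.Agent.Lib.UMB.Far.A5

set_option autoImplicit false

/-! # UMB.Far, chunk A6: gradient estimate for nonnegative harmonic functions -/

open Filter Topology Set MeasureTheory
open scoped ContDiff

namespace UMB.Far

open Pool.Agent.Lib.PenroseSph (E3 S2 pd avg sm)

/-- Partial derivatives and translations. -/
lemma a6_trans (v : E3 → ℝ) (x0 : E3) (i : Fin 3) : pd i (fun y => v (y + x0)) = fun y => pd i v (y + x0) := by
  funext y
  unfold pd
  rw [fderiv_comp_add_right]

/-- CHUNK A6 (M). Gradient estimate for nonnegative harmonic functions on a ball.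
PROOF. `f x = v (x + x0)`: `pd i f x = pd i v (x + x0)` (chain rule with a translation, also for second derivatives), so `f` is
`C^3` and harmonic for `|x| < rho`. For `0 < t < rho`: `sum e_i pd i f 0 = (3/t^2) avg (f * sum e_i x_i) t` (`pd_mean`, linearity of
the integral), and `|sum e_i x_i| <= |e| t`, `f >= 0` on `|x| = t`, so the absolute value is
`<= (3/t^2) |e| t avg f t = (3/t) |e| f 0` (`mean_value`). Let `t` tend to `rho` (`le_of_tendsto`, or: for every `t < rho`). -/
theorem grad_est {v : E3 → ℝ} (hv : ContDiff ℝ 3 v) {x0 : E3} {ρ : ℝ} (hρ : 0 < ρ)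
    (hh : ∀ x : E3, ‖x - x0‖ < ρ → lap0 v x = 0) (hp : ∀ x : E3, ‖x - x0‖ < ρ → 0 ≤ v x) (e : Fin 3 → ℝ) :
    |∑ i, e i * pd i v x0| ≤ 3 / ρ * Real.sqrt (∑ i, e i ^ 2) * v x0 := by
  set f : E3 → ℝ := fun y => v (y + x0) with hfdef
  have hf : ContDiff ℝ 3 f := hv.comp (contDiff_id.add contDiff_const)
  have hpd : ∀ i, pd i f = fun y => pd i v (y + x0) := fun i => a6_trans v x0 i
  have hfh : ∀ x : E3, ‖x‖ < ρ → lap0 f x = 0 := by
    intro x hx
    have h1 : lap0 f x = lap0 v (x + x0) := by
      unfold lap0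
      apply Finset.sum_congr rfl
      intro i _
      rw [hpd i, a6_trans (pd i v) x0 i]
    rw [h1]
    apply hh
    simpa using hx
  have hf0 : f 0 = v x0 := by simp [hfdef]
  have hpf0 : ∀ i, pd i f 0 = pd i v x0 := by
    intro i
    rw [hpd i]
    simp
  have hfc : Continuous f := hf.continuous
  set N : ℝ := Real.sqrt (∑ i, e i ^ 2) with hN
  have hcs : ∀ x : E3, |∑ i, e i * x i| ≤ N * ‖x‖ := by
    intro x
    have h1 : (∑ i, e i * x i) ^ 2 ≤ (∑ i, e i ^ 2) * ∑ i, x i ^ 2 :=
      Finset.sum_mul_sq_le_sq_mul_sq _ _ _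
    have h2 : ‖x‖ ^ 2 = ∑ i, x i ^ 2 := by
      rw [EuclideanSpace.norm_sq_eq]
      simp
    rw [← h2] at h1
    have h3 : (∑ i, e i * x i) ^ 2 ≤ (N * ‖x‖) ^ 2 := by
      rw [mul_pow, hN, Real.sq_sqrt (Finset.sum_nonneg fun i _ => sq_nonneg _)]
      exact h1
    exact abs_le_of_sq_le_sq h3 (by positivity)
  have key : ∀ t : ℝ, 0 < t → t < ρ → |∑ i, e i * pd i v x0| ≤ 3 / t * N * v x0 := by
    intro t ht htr
    have hEc : Continuous (fun x : E3 => f x * ∑ i, e i * x i) := by
      apply hfc.mul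
      apply continuous_finsetSum
      intro i _
      exact continuous_const.mul (EuclideanSpace.proj i : E3 →L[ℝ] ℝ).continuous
    have h1 : ∑ i, e i * pd i v x0 = 3 / t ^ 2 * avg (fun x => f x * ∑ i, e i * x i) t := by
      have h2 : (fun x : E3 => f x * ∑ i, e i * x i) = fun x => ∑ i, (fun i (x : E3) => e i * (f x * x i)) i x := by
        funext x
        rw [Finset.mul_sum]
        apply Finset.sum_congr rfl
        intro i _
        ring
      have h5 : avg (fun x => ∑ i, (fun i (x : E3) => e i * (f x * x i)) i x) t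
          = ∑ i, avg ((fun i (x : E3) => e i * (f x * x i)) i) t :=
        Pool.Agent.Lib.PenroseSph.avg_sum (a := 0) le_rfl ht Finset.univ
          (f := fun i (x : E3) => e i * (f x * x i)) (fun i =>
          (continuous_const.mul (hfc.mul (EuclideanSpace.proj i : E3 →L[ℝ] ℝ).continuous)).continuousOn)
      rw [h2, h5, Finset.mul_sum]
      apply Finset.sum_congr rfl
      intro i _
      have h3 := pd_mean hf hfh ht htr i
      rw [hpf0] at h3
      have h4 : avg ((fun i (x : E3) => e i * (f x * x i)) i) t = e i * avg (fun x => f x * x i) t :=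
        Pool.Agent.Lib.PenroseSph.avg_smul (e i) (fun x => f x * x i) t
      rw [h4, h3]
      ring
    have hmv : avg f t = v x0 := by
      rw [mean_value (hf.of_le (by norm_num)) hfh ht htr, hf0]
    have hpos : ∀ n : S2, 0 ≤ f (t • (n : E3)) := by
      intro n
      apply hp
      have : t • (n : E3) + x0 - x0 = t • (n : E3) := by abel
      rw [this, Pool.Agent.Lib.PenroseSph.norm_ray ht]
      exact htr
    have hb : ∀ n : S2, |f (t • (n : E3)) * ∑ i, e i * (t • (n : E3)) i| ≤ N * t * f (t • (n : E3)) := by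
      intro n
      rw [abs_mul, abs_of_nonneg (hpos n)]
      have := hcs (t • (n : E3))
      rw [Pool.Agent.Lib.PenroseSph.norm_ray ht] at this
      calc f (t • (n : E3)) * |∑ i, e i * (t • (n : E3)) i| ≤ f (t • (n : E3)) * (N * t) :=
            mul_le_mul_of_nonneg_left this (hpos n)
        _ = N * t * f (t • (n : E3)) := by ring
    have hub : avg (fun x => f x * ∑ i, e i * x i) t ≤ N * t * v x0 := by
      rw [← hmv, ← Pool.Agent.Lib.PenroseSph.avg_smul]
      exact Pool.Agent.Lib.PenroseSph.avg_mono (a := 0) le_rfl ht hEc.continuousOn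
        (continuous_const.mul hfc).continuousOn (fun n => (abs_le.1 (hb n)).2)
    have hlb : -(N * t * v x0) ≤ avg (fun x => f x * ∑ i, e i * x i) t := by
      rw [← neg_mul, ← hmv, ← Pool.Agent.Lib.PenroseSph.avg_smul]
      refine Pool.Agent.Lib.PenroseSph.avg_mono (a := 0) le_rfl ht
        (continuous_const.mul hfc).continuousOn hEc.continuousOn (fun n => ?_)
      have := (abs_le.1 (hb n)).1
      linarith
    rw [h1, abs_mul, abs_of_pos (by positivity : (0 : ℝ) < 3 / t ^ 2)]
    calc 3 / t ^ 2 * |avg (fun x => f x * ∑ i, e i * x i) t| ≤ 3 / t ^ 2 * (N * t * v x0) :=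
          mul_le_mul_of_nonneg_left (abs_le.2 ⟨hlb, hub⟩) (by positivity)
      _ = 3 / t * N * v x0 := by field_simp
  have hlim : Tendsto (fun t : ℝ => 3 / t * N * v x0) (𝓝[<] ρ) (𝓝 (3 / ρ * N * v x0)) := by
    have h1 : Tendsto (fun t : ℝ => 3 / t * N * v x0) (𝓝 ρ) (𝓝 (3 / ρ * N * v x0)) :=
      ((tendsto_const_nhds.div tendsto_id hρ.ne').mul_const N).mul_const (v x0)
    exact h1.mono_left nhdsWithin_le_nhds
  refine ge_of_tendsto hlim ?_
  filter_upwards [Ioo_mem_nhdsLT hρ] with t ht
  exact key t ht.1 ht.2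

end UMB.Far
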