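import Pool.Agent.Lib.UMB.Far.Defs

set_option autoImplicit false

/-! # UMB.Far, chunk B1: the flux and the averages -/

open Filter Topology Set MeasureTheory
open scoped ContDiff

namespace UMB.Far

open Pool.Agent.Lib.PenroseSph (E3 S2 pd avg sm hasDerivAt_avg flux_deriv)

variable {v : E3 → ℝ} {r0 R : ℝ}

lemma b1_const {g : ℝ → ℝ} {a b : ℝ} (hab : a ≤ b) (hc : ∀ s ∈ Icc a b, ContinuousAt g s)
    (hd : ∀ s ∈ Ioo a b, HasDerivAt g 0 s) : g a = g b := by
  rcases hab.eq_or_lt with h | h
  · rw [h]
  · obtain ⟨c, -, hc2⟩ := exists_hasDerivAt_eq_slope g (fun _ => 0) h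
      (fun s hs => (hc s hs).continuousWithinAt) hd
    have h1 : b - a ≠ 0 := by linarith
    have h2 : (g b - g a) / (b - a) = 0 := hc2.symm
    rcases div_eq_zero_iff.1 h2 with h3 | h3
    · linarith
    · exact absurd h3 h1

lemma b1_dr (v : E3 → ℝ) {s : ℝ} (hs : 0 < s) :
    avg (dr v) s = s⁻¹ * avg (fun x => ∑ i, pd i v x * x i) s := by
  rw [← Pool.Agent.Lib.PenroseSph.avg_smul]
  apply Pool.Agent.Lib.PenroseSph.avg_congr
  intro n
  unfold dr
  rw [Pool.Agent.Lib.PenroseSph.norm_ray hs, Finset.mul_sum]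
  apply Finset.sum_congr rfl
  intro m _
  ring

/-- CHUNK B1 (M), first statement: the flux is constant.
PROOF. By `flux_deriv` (`a = 0`, `Y i = pd i v`), `phi s = s * avg (sum pd i v x_i) s` has derivative `s^2 avg (lap0 v) s` for every
`s > 0`, which is `0` for `r0 < s < R` (`lap0 v (s n) = 0`). So `phi` is constant on `[r0, R]` (`is_const_of_deriv_eq_zero` on an
interval: continuous on the closed interval, derivative zero inside). And `phi s = s^2 avg (dr v) s` for `s > 0`. -/
theorem flux_const (h : FlatV v r0 R) {r : ℝ} (h1 : r0 ≤ r) (h2 : r ≤ R) : r ^ 2 * avg (dr v) r = -fluxC v R := by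
  have hr0 := h.r0_pos
  have hpd : ∀ i, ContDiff ℝ 1 (pd i v) := fun i =>
    (h.smooth.fderiv_right (m := 1) (by norm_num)).clm_apply contDiff_const
  have hder : ∀ s : ℝ, 0 < s → HasDerivAt (fun s => s * avg (fun x => ∑ i, pd i v x * x i) s)
      (s ^ 2 * avg (fun x => ∑ i, pd i (pd i v) x) s) s := fun s hs =>
    flux_deriv (a := 0) le_rfl hs (Y := fun i => pd i v) (fun i => (hpd i).contDiffOn)
  have key : r * avg (fun x => ∑ i, pd i v x * x i) r = R * avg (fun x => ∑ i, pd i v x * x i) R := by
    refine b1_const (g := fun s => s * avg (fun x => ∑ i, pd i v x * x i) s) h2 ?_ ?_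
    · intro s hs
      exact (hder s (by linarith [hs.1])).continuousAt
    · intro s hs
      have hs0 : 0 < s := by linarith [hs.1]
      have h3 := hder s hs0
      have e : avg (fun x => ∑ i, pd i (pd i v) x) s = 0 := by
        have : avg (fun x => ∑ i, pd i (pd i v) x) s = avg (fun _ => 0) s := by
          apply Pool.Agent.Lib.PenroseSph.avg_congr
          intro n
          refine h.harm _ ?_ ?_
          · rw [Pool.Agent.Lib.PenroseSph.norm_ray hs0]
            linarith [hs.1]
          · rw [Pool.Agent.Lib.PenroseSph.norm_ray hs0]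
            exact hs.2
        rw [this, Pool.Agent.Lib.PenroseSph.avg_const]
      rw [e, mul_zero] at h3
      exact h3
  have hr : 0 < r := by linarith
  have hR : 0 < R := by linarith
  unfold fluxC
  rw [b1_dr v hr, b1_dr v hR, neg_neg]
  have e1 : r ^ 2 * (r⁻¹ * avg (fun x => ∑ i, pd i v x * x i) r) = r * avg (fun x => ∑ i, pd i v x * x i) r := by
    field_simp
  have e2 : R ^ 2 * (R⁻¹ * avg (fun x => ∑ i, pd i v x * x i) R) = R * avg (fun x => ∑ i, pd i v x * x i) R := by
    field_simp
  rw [e1, e2, key]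

/-- CHUNK B1 (M), second statement: the average.
PROOF. `hasDerivAt_avg`: `(avg v)' (s) = avg (dr v) s = -C/s^2` on `[r0, R]`, `avg v R = 0`; so `avg v s - C/s` is constant. -/
theorem avg_eq (h : FlatV v r0 R) {r : ℝ} (h1 : r0 ≤ r) (h2 : r ≤ R) : avg v r = fluxC v R * (1 / r - 1 / R) := by
  have hr0 := h.r0_pos
  have hr : 0 < r := by linarith
  have hR : 0 < R := by linarith
  have hder : ∀ s : ℝ, r ≤ s → s ≤ R → HasDerivAt (fun s => avg v s - fluxC v R / s) 0 s := by
    intro s hs1 hs2
    have hs0 : 0 < s := by linarith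
    have h3 : HasDerivAt (avg v) (avg (dr v) s) s :=
      hasDerivAt_avg (a := 0) le_rfl hs0 ((h.smooth.of_le (by norm_num)).contDiffOn)
    have h4 : HasDerivAt (fun s : ℝ => fluxC v R / s) (fluxC v R * (-(s ^ 2)⁻¹)) s := by
      have := (hasDerivAt_inv hs0.ne').const_mul (fluxC v R)
      exact this
    refine (h3.sub h4).congr_deriv ?_
    have h5 := flux_const h (r := s) (by linarith) hs2
    have h6 : avg (dr v) s = -fluxC v R / s ^ 2 := by
      field_simp
      linarith
    rw [h6]
    field_simp
    ring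
  have key := b1_const (g := fun s => avg v s - fluxC v R / s) h2
    (fun s hs => (hder s hs.1 hs.2).continuousAt) (fun s hs => hder s hs.1.le hs.2.le)
  have hv0 : avg v R = 0 := by
    have : avg v R = avg (fun _ => 0) R := by
      apply Pool.Agent.Lib.PenroseSph.avg_congr
      intro n
      exact h.zero _ (Pool.Agent.Lib.PenroseSph.norm_ray hR n)
    rw [this, Pool.Agent.Lib.PenroseSph.avg_const]
  have key2 : avg v r - fluxC v R / r = avg v R - fluxC v R / R := key
  rw [hv0] at key2
  have : avg v r = fluxC v R / r - fluxC v R / R := by linarith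
  rw [this]
  ring

end UMB.Far
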