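import Pool.Agent.Lib.UMB.Far.A6

set_option autoImplicit false

/-! # UMB.Far, chunk C1: interior gradient bound -/

open Filter Topology Set MeasureTheory
open scoped ContDiff

namespace UMB.Far

open Pool.Agent.Lib.PenroseSph (E3 S2 pd avg sm rotLin rotLin_norm rotLin_i rotLin_j hasDerivAt_rot)

variable {v : E3 → ℝ} {r0 R : ℝ}

/-- CHUNK C1 (S/M): interior gradient bound.
PROOF. `grad_est` with `x0 = x`, `rho = |x|/2`: if `|y - x| < |x|/2` then `r0 <= |x|/2 < |y| < 3|x|/2 <= R`. -/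
theorem grad_int (h : FlatV v r0 R) {x : E3} (h1 : 2 * r0 ≤ ‖x‖) (h2 : 3 * ‖x‖ ≤ 2 * R) (e : Fin 3 → ℝ) :
    |∑ i, e i * pd i v x| ≤ 6 / ‖x‖ * Real.sqrt (∑ i, e i ^ 2) * v x := by
  have hr0 := h.r0_pos
  have hx : 0 < ‖x‖ := by linarith
  have hin : ∀ y : E3, ‖y - x‖ < ‖x‖ / 2 → r0 < ‖y‖ ∧ ‖y‖ < R := by
    intro y hy
    have a1 : ‖x‖ ≤ ‖y‖ + ‖y - x‖ := by
      have := norm_sub_le y (y - x)
      rwa [sub_sub_cancel] at this
    have a2 : ‖y‖ ≤ ‖x‖ + ‖y - x‖ := by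
      have := norm_add_le x (y - x)
      rwa [add_sub_cancel] at this
    constructor <;> linarith
  have h3 := grad_est h.smooth (x0 := x) (ρ := ‖x‖ / 2) (by linarith)
    (fun y hy => h.harm y (hin y hy).1 (hin y hy).2)
    (fun y hy => (h.pos y (hin y hy).1 (hin y hy).2).le) e
  have e1 : 3 / (‖x‖ / 2) = 6 / ‖x‖ := by
    field_simp
    norm_num
  rw [e1] at h3
  exact h3

end UMB.Far
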