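import Pool.Agent.Lib.UMB.Far.C1

set_option autoImplicit false

/-! # UMB.Far, chunk C2: Harnack inequality on a sphere -/

open Filter Topology Set MeasureTheory
open scoped ContDiff

namespace UMB.Far

open Pool.Agent.Lib.PenroseSph (E3 S2 pd avg sm rotLin rotLin_norm rotLin_i rotLin_j hasDerivAt_rot)

variable {v : E3 → ℝ} {r0 R : ℝ}

theorem c2_angle (a b : ℝ) : ∃ s : ℝ, |s| ≤ Real.pi ∧
    Real.cos s * a - Real.sin s * b = Real.sqrt (a ^ 2 + b ^ 2) ∧ Real.sin s * a + Real.cos s * b = 0 := by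
  set z : ℂ := ⟨a, b⟩ with hz
  have h1 := Complex.norm_mul_cos_arg z
  have h2 := Complex.norm_mul_sin_arg z
  have h3 : ‖z‖ = Real.sqrt (a ^ 2 + b ^ 2) := by
    rw [Complex.norm_def, Complex.normSq_apply]
    congr 1
    ring
  have hcs := Real.sin_sq_add_cos_sq z.arg
  refine ⟨-z.arg, ?_, ?_, ?_⟩
  · rw [abs_neg]
    exact Complex.abs_arg_le_pi z
  · rw [Real.cos_neg, Real.sin_neg, ← h3]
    have e1 : a = ‖z‖ * Real.cos z.arg := h1.symm
    have e2 : b = ‖z‖ * Real.sin z.arg := h2.symm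
    calc Real.cos z.arg * a - -Real.sin z.arg * b
        = Real.cos z.arg * (‖z‖ * Real.cos z.arg) - -Real.sin z.arg * (‖z‖ * Real.sin z.arg) := by
          rw [← e1, ← e2]
      _ = ‖z‖ * (Real.sin z.arg ^ 2 + Real.cos z.arg ^ 2) := by ring
      _ = ‖z‖ := by rw [hcs, mul_one]
  · rw [Real.cos_neg, Real.sin_neg]
    have e1 : a = ‖z‖ * Real.cos z.arg := h1.symm
    have e2 : b = ‖z‖ * Real.sin z.arg := h2.symm
    calc -Real.sin z.arg * a + Real.cos z.arg * b
        = -Real.sin z.arg * (‖z‖ * Real.cos z.arg) + Real.cos z.arg * (‖z‖ * Real.sin z.arg) := by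
          rw [← e1, ← e2]
      _ = 0 := by ring

theorem c2_norm_sq (x : E3) : ‖x‖ ^ 2 = x 0 ^ 2 + x 1 ^ 2 + x 2 ^ 2 := by
  rw [EuclideanSpace.norm_sq_eq, Fin.sum_univ_three]
  simp [sq_abs]

theorem c2_two_sq {i j : Fin 3} (hij : i ≠ j) (x : E3) : x i ^ 2 + x j ^ 2 ≤ ‖x‖ ^ 2 := by
  rw [c2_norm_sq]
  have h0 := sq_nonneg (x 0)
  have h1 := sq_nonneg (x 1)
  have h2 := sq_nonneg (x 2)
  fin_cases i <;> fin_cases j <;> first | exact absurd rfl hij | skip
  all_goals simp
  all_goals linarith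

theorem c2_rot (h : FlatV v r0 R) {i j : Fin 3} (hij : i ≠ j) {z : E3} (hz : ‖z‖ = 2 * r0) (s : ℝ) :
    |Real.log (v (rotLin i j s z)) - Real.log (v z)| ≤ 6 * |s| := by
  have hr0 := h.r0_pos
  have hr1 := h.r0_lt
  have hnorm : ∀ t, ‖rotLin i j t z‖ = 2 * r0 := fun t => by rw [rotLin_norm hij, hz]
  have hpos : ∀ t, 0 < v (rotLin i j t z) := fun t =>
    h.pos _ (by rw [hnorm]; linarith) (by rw [hnorm]; linarith)
  have hd : ∀ t, HasDerivAt (fun t => v (rotLin i j t z))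
      (-(rotLin i j t z j) * pd i v (rotLin i j t z) + (rotLin i j t z i) * pd j v (rotLin i j t z)) t := by
    intro t
    have h1 : HasFDerivAt v (fderiv ℝ v (rotLin i j t z)) (rotLin i j t z) :=
      (h.smooth.differentiable (by norm_num)).differentiableAt.hasFDerivAt
    have h2 := h1.comp_hasDerivAt t (hasDerivAt_rot hij t z)
    refine h2.congr_deriv ?_
    rw [map_add, map_smul, map_smul]
    rfl
  have hlog : ∀ t, HasDerivAt (fun t => Real.log (v (rotLin i j t z)))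
      ((-(rotLin i j t z j) * pd i v (rotLin i j t z) + (rotLin i j t z i) * pd j v (rotLin i j t z)) /
        v (rotLin i j t z)) t := fun t => (hd t).log (hpos t).ne'
  have hbound : ∀ t, ‖deriv (fun t => Real.log (v (rotLin i j t z))) t‖ ≤ 6 := by
    intro t
    rw [(hlog t).deriv, Real.norm_eq_abs, abs_div, abs_of_pos (hpos t), div_le_iff₀ (hpos t)]
    set w := rotLin i j t z with hw
    have hwn : ‖w‖ = 2 * r0 := hnorm t
    have hg := grad_int h (x := w) (by rw [hwn]) (by rw [hwn]; linarith)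
      (fun k => -(w j) * (if k = i then 1 else 0) + w i * (if k = j then 1 else 0))
    have e1 : ∑ k, (-(w j) * (if k = i then 1 else 0) + w i * (if k = j then 1 else 0)) * pd k v w =
        -(w j) * pd i v w + w i * pd j v w := by
      simp only [add_mul, Finset.sum_add_distrib, mul_assoc, ite_mul, one_mul, zero_mul, mul_ite, mul_zero,
        Finset.sum_ite_eq', Finset.mem_univ, if_true]
    have e2 : ∑ k, (-(w j) * (if k = i then 1 else 0) + w i * (if k = j then 1 else 0)) ^ 2 =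
        w i ^ 2 + w j ^ 2 := by
      have : ∀ k : Fin 3, (-(w j) * (if k = i then 1 else 0) + w i * (if k = j then 1 else 0)) ^ 2 =
          w j ^ 2 * (if k = i then 1 else 0) + w i ^ 2 * (if k = j then 1 else 0) := by
        intro k
        by_cases hk : k = i
        · have hkj : k ≠ j := fun hc => hij (hk ▸ hc)
          rw [if_pos hk, if_neg hkj]
          ring
        · by_cases hkj : k = j
          · rw [if_neg hk, if_pos hkj]
            ring
          · rw [if_neg hk, if_neg hkj]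
            ring
      rw [Finset.sum_congr rfl (fun k _ => this k)]
      simp only [Finset.sum_add_distrib, mul_ite, mul_one, mul_zero,
        Finset.sum_ite_eq', Finset.mem_univ, if_true]
      ring
    rw [e1, e2] at hg
    have h3 : Real.sqrt (w i ^ 2 + w j ^ 2) ≤ ‖w‖ := by
      apply Real.sqrt_le_iff.2
      exact ⟨norm_nonneg _, c2_two_sq hij w⟩
    have hwpos : 0 < ‖w‖ := by rw [hwn]; linarith
    have h4 : 6 / ‖w‖ * Real.sqrt (w i ^ 2 + w j ^ 2) ≤ 6 := by
      calc 6 / ‖w‖ * Real.sqrt (w i ^ 2 + w j ^ 2) ≤ 6 / ‖w‖ * ‖w‖ :=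
            mul_le_mul_of_nonneg_left h3 (by positivity)
        _ = 6 := by field_simp
    calc |-(w j) * pd i v w + w i * pd j v w| ≤ 6 / ‖w‖ * Real.sqrt (w i ^ 2 + w j ^ 2) * v w := hg
      _ ≤ 6 * v w := mul_le_mul_of_nonneg_right h4 (hpos t).le
  have key := Convex.norm_image_sub_le_of_norm_deriv_le (s := (Set.univ : Set ℝ))
    (f := fun t => Real.log (v (rotLin i j t z))) (C := 6) (x := 0) (y := s)
    (fun t _ => (hlog t).differentiableAt) (fun t _ => hbound t) convex_univ (Set.mem_univ _) (Set.mem_univ _)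
  have e0 : rotLin i j 0 z = z := by
    ext k
    rw [Pool.Agent.Lib.PenroseSph.rotLin_apply]
    simp
  rw [e0, sub_zero, Real.norm_eq_abs, Real.norm_eq_abs] at key
  exact key

theorem c2_to_e0 (h : FlatV v r0 R) {z : E3} (hz : ‖z‖ = 2 * r0) :
    |Real.log (v z) - Real.log (v (EuclideanSpace.single 0 (2 * r0)))| ≤ 12 * Real.pi := by
  obtain ⟨s1, hs1, h1a, h1b⟩ := c2_angle (z 1) (z 2)
  obtain ⟨s2, hs2, h2a, h2b⟩ := c2_angle (z 0) (Real.sqrt (z 1 ^ 2 + z 2 ^ 2))
  have h12 : (1 : Fin 3) ≠ 2 := by decide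
  have h01 : (0 : Fin 3) ≠ 1 := by decide
  have hz1 : ‖rotLin 1 2 s1 z‖ = 2 * r0 := by rw [rotLin_norm h12, hz]
  have a1 := c2_rot h h12 hz s1
  have a2 := c2_rot h h01 hz1 s2
  have hr0 := h.r0_pos
  have e : rotLin 0 1 s2 (rotLin 1 2 s1 z) = EuclideanSpace.single 0 (2 * r0) := by
    have c1 : rotLin 1 2 s1 z 1 = Real.sqrt (z 1 ^ 2 + z 2 ^ 2) := by
      rw [rotLin_i h12, h1a]
    have c2 : rotLin 1 2 s1 z 2 = 0 := by
      rw [rotLin_j h12, h1b]
    have c0 : rotLin 1 2 s1 z 0 = z 0 := by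
      rw [Pool.Agent.Lib.PenroseSph.rotLin_apply, if_neg (by decide), if_neg (by decide)]
      ring
    have hnn : 0 ≤ z 1 ^ 2 + z 2 ^ 2 := by positivity
    have hsq : Real.sqrt (z 0 ^ 2 + Real.sqrt (z 1 ^ 2 + z 2 ^ 2) ^ 2) = 2 * r0 := by
      rw [Real.sq_sqrt hnn, ← hz, ← Real.sqrt_sq (norm_nonneg z), c2_norm_sq]
      congr 1
      ring
    have d0 : rotLin 0 1 s2 (rotLin 1 2 s1 z) 0 = 2 * r0 := by
      rw [rotLin_i h01, c0, c1, h2a, hsq]
    have d1 : rotLin 0 1 s2 (rotLin 1 2 s1 z) 1 = 0 := by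
      rw [rotLin_j h01, c0, c1, h2b]
    have d2 : rotLin 0 1 s2 (rotLin 1 2 s1 z) 2 = 0 := by
      rw [Pool.Agent.Lib.PenroseSph.rotLin_apply 0 1 s2, if_neg (by decide), if_neg (by decide), c2]
      ring
    ext k
    fin_cases k
    · simpa using d0
    · simpa using d1
    · simpa using d2
  rw [e] at a2
  have p1 : 6 * |s1| ≤ 6 * Real.pi := by linarith
  have p2 : 6 * |s2| ≤ 6 * Real.pi := by linarith
  rw [abs_le] at a1 a2 ⊢
  constructor <;> linarith [a1.1, a1.2, a2.1, a2.2]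

/-- CHUNK C2 (M): Harnack inequality on `|x| = 2 r0`.
PROOF. (1) For `i /= j` and `|z| = 2 r0` the function `s -> log v (rotLin i j s z)` has derivative
`(z'_i pd j v z' - z'_j pd i v z')/v z'`, `z' = rotLin i j s z` (`hasDerivAt_rot`), of absolute value `<= (6/|z|) sqrt(z'_i^2 +
z'_j^2) <= 6` (`grad_int`; `3 * 2 r0 <= 2 R`). So `|log v (rotLin i j s z) - log v z| <= 6 |s|`. (2) Every `z` is moved to
`|z| e_0` by `rotLin 1 2 s1` and then `rotLin 0 1 s2` with `|s1|, |s2| <= pi` (for `a, b` real there is `s` with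
`cos s * a - sin s * b = sqrt(a^2 + b^2)`, `sin s * a + cos s * b = 0`: `s = - arg(a + i b)`). (3) So `|log v x - log v y| <= 24 pi
<= 200`. -/
theorem harnack (h : FlatV v r0 R) {x y : E3} (hx : ‖x‖ = 2 * r0) (hy : ‖y‖ = 2 * r0) : v x ≤ CH * v y := by
  have hr0 := h.r0_pos
  have hr1 := h.r0_lt
  have hvx : 0 < v x := h.pos x (by rw [hx]; linarith) (by rw [hx]; linarith)
  have hvy : 0 < v y := h.pos y (by rw [hy]; linarith) (by rw [hy]; linarith)
  have a1 := c2_to_e0 h hx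
  have a2 := c2_to_e0 h hy
  have hpi := Real.pi_lt_four
  have h1 : Real.log (v x) ≤ 200 + Real.log (v y) := by
    rw [abs_le] at a1 a2
    linarith [a1.1, a1.2, a2.1, a2.2]
  have h2 := Real.exp_le_exp.2 h1
  rw [Real.exp_log hvx, Real.exp_add, Real.exp_log hvy] at h2
  exact h2

end UMB.Far
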