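import Pool.Agent.Lib.UMB.Far.Defs

set_option autoImplicit false

/-! # UMB.Far, chunk C3: explicit harmonic functions -/

open Filter Topology Set MeasureTheory
open scoped ContDiff

namespace UMB.Far

open Pool.Agent.Lib.PenroseSph (E3 pd)

theorem c3_pd_contDiffAt {u : E3 → ℝ} {x : E3} (hu : ContDiffAt ℝ 2 u x) (i : Fin 3) :
    ContDiffAt ℝ 1 (pd i u) x := by
  have h1 : ContDiffAt ℝ 1 (fderiv ℝ u) x := hu.fderiv_right (by norm_num)
  exact h1.clm_apply contDiffAt_const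

theorem c3_ev_diff {u : E3 → ℝ} {x : E3} (hu : ContDiffAt ℝ 2 u x) :
    ∀ᶠ y in 𝓝 x, DifferentiableAt ℝ u y := by
  have h1 := hu.eventually (by norm_num)
  exact h1.mono fun y hy => hy.differentiableAt (by norm_num)

/-- CHUNK C3 (S), third statement: linearity of `lap0`. -/
theorem lap0_add {u w : E3 → ℝ} {x : E3} (hu : ContDiffAt ℝ 2 u x) (hw : ContDiffAt ℝ 2 w x) (c d : ℝ) :
    lap0 (fun y => c * u y + d * w y) x = c * lap0 u x + d * lap0 w x := by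
  unfold lap0
  rw [Finset.mul_sum, Finset.mul_sum, ← Finset.sum_add_distrib]
  apply Finset.sum_congr rfl
  intro i _
  have h1 : pd i (fun y => c * u y + d * w y) =ᶠ[𝓝 x] fun y => c * pd i u y + d * pd i w y := by
    filter_upwards [c3_ev_diff hu, c3_ev_diff hw] with y hy1 hy2
    rw [Pool.Agent.Lib.PenroseSph.pd_add i (hy1.const_mul c) (hy2.const_mul d),
      Pool.Agent.Lib.PenroseSph.pd_const_mul i c hy1, Pool.Agent.Lib.PenroseSph.pd_const_mul i d hy2]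
  rw [Pool.Agent.Lib.PenroseSph.pd_congr i h1]
  have d1 := (c3_pd_contDiffAt hu i).differentiableAt (by norm_num)
  have d2 := (c3_pd_contDiffAt hw i).differentiableAt (by norm_num)
  rw [Pool.Agent.Lib.PenroseSph.pd_add i (d1.const_mul c) (d2.const_mul d),
      Pool.Agent.Lib.PenroseSph.pd_const_mul i c d1, Pool.Agent.Lib.PenroseSph.pd_const_mul i d d2]

theorem c3_norm_contDiffAt {x : E3} (hx : x ≠ 0) : ContDiffAt ℝ 2 (fun y : E3 => ‖y‖) x :=
  contDiffAt_norm ℝ hx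

theorem c3_inv_contDiffAt {x : E3} (hx : x ≠ 0) (n : ℕ) : ContDiffAt ℝ 2 (fun y : E3 => 1 / ‖y‖ ^ n) x :=
  contDiffAt_const.div ((c3_norm_contDiffAt hx).pow n) (pow_ne_zero n (norm_ne_zero_iff.2 hx))

theorem c3_ne {x : E3} (hx : x ≠ 0) : ∀ᶠ y in 𝓝 x, y ≠ 0 := isOpen_ne.mem_nhds hx

theorem c3_hasDeriv (n : ℕ) {t : ℝ} (ht : t ≠ 0) :
    HasDerivAt (fun t : ℝ => 1 / t ^ n) (-(n : ℝ) / t ^ (n + 1)) t := by
  have h1 := (hasDerivAt_const t (1 : ℝ)).fun_div (hasDerivAt_pow n t) (pow_ne_zero n ht)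
  refine h1.congr_deriv ?_
  rcases n with _ | n
  · simp
  · have e : n + 1 - 1 = n := rfl
    rw [e]
    field_simp
    ring

theorem c3_pd_inv (n : ℕ) {x : E3} (hx : x ≠ 0) (k : Fin 3) :
    pd k (fun y : E3 => 1 / ‖y‖ ^ n) x = -(n : ℝ) / ‖x‖ ^ (n + 2) * x k := by
  have hn : ‖x‖ ≠ 0 := norm_ne_zero_iff.2 hx
  have h := c3_hasDeriv n hn
  rw [Pool.Agent.Lib.PenroseSph.pd_radial (F := fun t : ℝ => 1 / t ^ n) hx h.differentiableAt k, h.deriv]
  field_simp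
  ring

theorem c3_pd_inv_mul (n : ℕ) {x : E3} (hx : x ≠ 0) (j k : Fin 3) :
    pd k (fun y : E3 => 1 / ‖y‖ ^ n * y j) x =
      1 / ‖x‖ ^ n * (if j = k then 1 else 0) + x j * (-(n : ℝ) / ‖x‖ ^ (n + 2) * x k) := by
  rw [Pool.Agent.Lib.PenroseSph.pd_mul k ((c3_inv_contDiffAt hx n).differentiableAt (by norm_num))
    (Pool.Agent.Lib.PenroseSph.diff_coord j x), c3_pd_inv n hx, Pool.Agent.Lib.PenroseSph.pd_coord]

theorem c3_norm_sq (x : E3) : ‖x‖ ^ 2 = x 0 ^ 2 + x 1 ^ 2 + x 2 ^ 2 := by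
  rw [EuclideanSpace.norm_sq_eq, Fin.sum_univ_three]
  simp [sq_abs]

theorem c3_pd_const (k : Fin 3) (a : ℝ) (x : E3) : pd k (fun _ : E3 => a) x = 0 := by
  unfold pd
  simp

/-- CHUNK C3 (M), first statement.
PROOF. `pd_radial` (PenroseSph/Calc): `pd k (1/|x|) = -x_k/|x|^3`, and again (product rule, `pd_radial_mul`):
`pd k pd k = -1/|x|^3 + 3 x_k^2/|x|^5`, the sum is `0`. -/
theorem lap0_inv {x : E3} (hx : x ≠ 0) (c d : ℝ) :
    ContDiffAt ℝ 2 (fun y : E3 => c * (1 / ‖y‖ - d)) x ∧ lap0 (fun y : E3 => c * (1 / ‖y‖ - d)) x = 0 := by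
  have hn : ‖x‖ ≠ 0 := norm_ne_zero_iff.2 hx
  have hc : ContDiffAt ℝ 2 (fun y : E3 => 1 / ‖y‖) x :=
    contDiffAt_const.div (c3_norm_contDiffAt hx) hn
  constructor
  · exact contDiffAt_const.mul (hc.sub contDiffAt_const)
  · unfold lap0
    have h1 : ∀ i : Fin 3, pd i (fun y : E3 => c * (1 / ‖y‖ - d)) =ᶠ[𝓝 x]
        fun y => (-c) * (1 / ‖y‖ ^ 3 * y i) := by
      intro i
      filter_upwards [c3_ne hx] with y hy
      have hny : ‖y‖ ≠ 0 := norm_ne_zero_iff.2 hy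
      have hdy : DifferentiableAt ℝ (fun y : E3 => 1 / ‖y‖) y :=
        (contDiffAt_const.div (c3_norm_contDiffAt hy) hny).differentiableAt (n := 2) (by norm_num)
      rw [Pool.Agent.Lib.PenroseSph.pd_const_mul i c (hdy.sub_const d),
        Pool.Agent.Lib.PenroseSph.pd_sub i hdy (differentiableAt_const d), c3_pd_const, sub_zero]
      have e1 := c3_pd_inv 1 hy i
      simp only [pow_one] at e1
      rw [e1]
      push_cast
      field_simp
    have h2 : ∀ i : Fin 3, pd i (pd i (fun y : E3 => c * (1 / ‖y‖ - d))) x =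
        (-c) * (1 / ‖x‖ ^ 3 + x i * (-3 / ‖x‖ ^ 5 * x i)) := by
      intro i
      rw [Pool.Agent.Lib.PenroseSph.pd_congr i (h1 i), Pool.Agent.Lib.PenroseSph.pd_const_mul i (-c)
        (((c3_inv_contDiffAt hx 3).differentiableAt (by norm_num)).fun_mul
          (Pool.Agent.Lib.PenroseSph.diff_coord i x)), c3_pd_inv_mul 3 hx i i, if_pos rfl]
      push_cast
      ring
    rw [Finset.sum_congr rfl (fun i _ => h2 i), Fin.sum_univ_three]
    have hs := c3_norm_sq x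
    have h5 : ‖x‖ ^ 5 = ‖x‖ ^ 3 * (x 0 ^ 2 + x 1 ^ 2 + x 2 ^ 2) := by rw [← hs]; ring
    have hs0 : x 0 ^ 2 + x 1 ^ 2 + x 2 ^ 2 ≠ 0 := by rw [← hs]; exact pow_ne_zero 2 hn
    have h3 : ‖x‖ ^ 3 ≠ 0 := pow_ne_zero 3 hn
    rw [h5]
    field_simp
    ring

theorem c3_lap_dip (j : Fin 3) {x : E3} (hx : x ≠ 0) :
    lap0 (fun y : E3 => 1 / ‖y‖ ^ 3 * y j) x = 0 := by
  have hn : ‖x‖ ≠ 0 := norm_ne_zero_iff.2 hx
  unfold lap0
  have h1 : ∀ i : Fin 3, pd i (fun y : E3 => 1 / ‖y‖ ^ 3 * y j) =ᶠ[𝓝 x]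
      fun y => (if j = i then 1 else 0) * (1 / ‖y‖ ^ 3) + (-3) * ((1 / ‖y‖ ^ 5 * y j) * y i) := by
    intro i
    filter_upwards [c3_ne hx] with y hy
    rw [c3_pd_inv_mul 3 hy j i]
    push_cast
    ring
  have h2 : ∀ i : Fin 3, pd i (pd i (fun y : E3 => 1 / ‖y‖ ^ 3 * y j)) x =
      (if j = i then 1 else 0) * (-3 / ‖x‖ ^ 5 * x i) +
        (-3) * ((1 / ‖x‖ ^ 5 * x j) + x i * (1 / ‖x‖ ^ 5 * (if j = i then 1 else 0) +
          x j * (-5 / ‖x‖ ^ 7 * x i))) := by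
    intro i
    have d3 : DifferentiableAt ℝ (fun y : E3 => 1 / ‖y‖ ^ 3) x :=
      (c3_inv_contDiffAt hx 3).differentiableAt (by norm_num)
    have d5 : DifferentiableAt ℝ (fun y : E3 => 1 / ‖y‖ ^ 5 * y j) x :=
      ((c3_inv_contDiffAt hx 5).differentiableAt (by norm_num)).fun_mul
          (Pool.Agent.Lib.PenroseSph.diff_coord j x)
    have d6 : DifferentiableAt ℝ (fun y : E3 => (1 / ‖y‖ ^ 5 * y j) * y i) x :=
      d5.fun_mul (Pool.Agent.Lib.PenroseSph.diff_coord i x)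
    rw [Pool.Agent.Lib.PenroseSph.pd_congr i (h1 i),
      Pool.Agent.Lib.PenroseSph.pd_add i (d3.const_mul _) (d6.const_mul _),
      Pool.Agent.Lib.PenroseSph.pd_const_mul i _ d3, Pool.Agent.Lib.PenroseSph.pd_const_mul i _ d6,
      Pool.Agent.Lib.PenroseSph.pd_mul i d5 (Pool.Agent.Lib.PenroseSph.diff_coord i x),
      c3_pd_inv 3 hx, c3_pd_inv_mul 5 hx j i, Pool.Agent.Lib.PenroseSph.pd_coord, if_pos rfl]
    push_cast
    ring
  rw [Finset.sum_congr rfl (fun i _ => h2 i), Fin.sum_univ_three]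
  have hs := c3_norm_sq x
  have h7 : ‖x‖ ^ 7 = ‖x‖ ^ 5 * (x 0 ^ 2 + x 1 ^ 2 + x 2 ^ 2) := by rw [← hs]; ring
  have hs0 : x 0 ^ 2 + x 1 ^ 2 + x 2 ^ 2 ≠ 0 := by rw [← hs]; exact pow_ne_zero 2 hn
  have h5 : ‖x‖ ^ 5 ≠ 0 := pow_ne_zero 5 hn
  rw [h7]
  fin_cases j
  all_goals
    simp
    field_simp
    ring

theorem c3_coord_contDiffAt (j : Fin 3) (x : E3) : ContDiffAt ℝ 2 (fun y : E3 => y j) x :=
  (EuclideanSpace.proj j : E3 →L[ℝ] ℝ).contDiff.contDiffAt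

theorem c3_lap_coord (j : Fin 3) (x : E3) : lap0 (fun y : E3 => y j) x = 0 := by
  unfold lap0
  apply Finset.sum_eq_zero
  intro i _
  have : pd i (fun y : E3 => y j) = fun _ => (if j = i then 1 else 0) := by
    funext y
    exact Pool.Agent.Lib.PenroseSph.pd_coord i j y
  rw [this, c3_pd_const]

theorem c3_lap_sum {ι : Type} (s : Finset ι) (f : ι → E3 → ℝ) (c : ι → ℝ) {x : E3}
    (hf : ∀ i ∈ s, ContDiffAt ℝ 2 (f i) x) :
    ContDiffAt ℝ 2 (fun y => ∑ i ∈ s, c i * f i y) x ∧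
      lap0 (fun y => ∑ i ∈ s, c i * f i y) x = ∑ i ∈ s, c i * lap0 (f i) x := by
  classical
  induction s using Finset.induction_on with
  | empty =>
    simp only [Finset.sum_empty]
    refine ⟨contDiffAt_const, ?_⟩
    unfold lap0
    apply Finset.sum_eq_zero
    intro i _
    have : pd i (fun _ : E3 => (0 : ℝ)) = fun _ => 0 := by
      funext y
      exact c3_pd_const i 0 y
    rw [this, c3_pd_const]
  | insert a s ha ih =>
    have ih' := ih (fun i hi => hf i (Finset.mem_insert_of_mem hi))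
    have e1 : (fun y => ∑ i ∈ insert a s, c i * f i y) =
        fun y => c a * f a y + 1 * (∑ i ∈ s, c i * f i y) := by
      funext y
      rw [Finset.sum_insert ha, one_mul]
    have hfa := hf a (Finset.mem_insert_self _ _)
    rw [e1]
    constructor
    · exact (contDiffAt_const.mul hfa).add (contDiffAt_const.mul ih'.1)
    · rw [lap0_add hfa ih'.1, ih'.2, Finset.sum_insert ha, one_mul]

/-- CHUNK C3 (M), second statement: `(y.e)(1/|y|^3 - d)` is harmonic.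
PROOF. `pd k ((y.e) F(|y|)) = e_k F + (y.e) F' y_k/|y|` with `F t = t^-3 - d`, `F' = -3 t^-4`; second derivative and sum:
`Delta ((y.e) F) = (y.e)(F'' + 4 F'/|y|) = (y.e)(12 t^-5 - 12 t^-5) = 0`. -/
theorem lap0_dip (e : E3) {x : E3} (hx : x ≠ 0) (c d : ℝ) :
    ContDiffAt ℝ 2 (fun y : E3 => c * (ip y e * (1 / ‖y‖ ^ 3 - d))) x ∧
      lap0 (fun y : E3 => c * (ip y e * (1 / ‖y‖ ^ 3 - d))) x = 0 := by
  have e1 : (fun y : E3 => c * (ip y e * (1 / ‖y‖ ^ 3 - d))) =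
      fun y => 1 * (∑ j : Fin 3, (c * e j) * (1 / ‖y‖ ^ 3 * y j)) +
        1 * (∑ j : Fin 3, (-(c * d * e j)) * y j) := by
    funext y
    unfold ip
    rw [Fin.sum_univ_three, Fin.sum_univ_three, Fin.sum_univ_three]
    ring
  have h1 := c3_lap_sum Finset.univ (fun (j : Fin 3) (y : E3) => 1 / ‖y‖ ^ 3 * y j) (fun j => c * e j)
    (x := x) (fun j _ => (c3_inv_contDiffAt hx 3).mul (c3_coord_contDiffAt j x))
  have h2 := c3_lap_sum Finset.univ (fun (j : Fin 3) (y : E3) => y j) (fun j => -(c * d * e j))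
    (x := x) (fun j _ => c3_coord_contDiffAt j x)
  rw [e1]
  constructor
  · exact (contDiffAt_const.mul h1.1).add (contDiffAt_const.mul h2.1)
  · rw [lap0_add h1.1 h2.1, h1.2, h2.2]
    simp only [c3_lap_dip _ hx, c3_lap_coord]
    simp

end UMB.Far
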