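import Pool.Agent.Lib.UMB.Far.A2
import Pool.Agent.Lib.UMB.Far.B1
import Pool.Agent.Lib.UMB.Far.C2
import Pool.Agent.Lib.UMB.Far.C3

set_option autoImplicit false

/-! # UMB.Far, chunk C4: barriers -/

open Filter Topology Set MeasureTheory
open scoped ContDiff

namespace UMB.Far

open Pool.Agent.Lib.PenroseSph (E3 S2 pd avg sm)

variable {v : E3 → ℝ} {r0 R : ℝ}

theorem c4_CH_one : 1 ≤ CH := by
  unfold CH
  exact Real.one_le_exp (by norm_num)

theorem c4_CH_pos : 0 < CH := lt_of_lt_of_le one_pos c4_CH_one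

theorem c4_avg_ge (h : FlatV v r0 R) {t c : ℝ} (ht : 0 < t) (hc : ∀ x : E3, ‖x‖ = t → c ≤ v x) :
    c ≤ avg v t := by
  have h1 := Pool.Agent.Lib.PenroseSph.avg_mono (a := 0) le_rfl ht (f := fun _ => c) (g := v)
    continuousOn_const h.smooth.continuous.continuousOn
    (fun n => hc _ (Pool.Agent.Lib.PenroseSph.norm_ray ht n))
  rwa [Pool.Agent.Lib.PenroseSph.avg_const] at h1

theorem c4_avg_le (h : FlatV v r0 R) {t c : ℝ} (ht : 0 < t) (hc : ∀ x : E3, ‖x‖ = t → v x ≤ c) :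
    avg v t ≤ c := by
  have h1 := Pool.Agent.Lib.PenroseSph.avg_mono (a := 0) le_rfl ht (f := v) (g := fun _ => c)
    h.smooth.continuous.continuousOn continuousOn_const
    (fun n => hc _ (Pool.Agent.Lib.PenroseSph.norm_ray ht n))
  rwa [Pool.Agent.Lib.PenroseSph.avg_const] at h1

theorem c4_sph (h : FlatV v r0 R) {y : E3} (hy : ‖y‖ = 2 * r0) :
    v y ≤ CH * avg v (2 * r0) ∧ avg v (2 * r0) ≤ CH * v y := by
  have hr0 := h.r0_pos
  have hCH := c4_CH_pos
  have ht : 0 < 2 * r0 := by linarith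
  constructor
  · have h1 : v y / CH ≤ avg v (2 * r0) := by
      apply c4_avg_ge h ht
      intro x hx
      rw [div_le_iff₀ hCH, mul_comm]
      exact harnack h hy hx
    rw [div_le_iff₀ hCH, mul_comm] at h1
    exact h1
  · exact c4_avg_le h ht (fun x hx => harnack h hx hy)

/-- CHUNK C4 (M), first statement.
PROOF. `avg_eq` at `r = 2 r0 < R`: `C (1/(2 r0) - 1/R) = avg v (2 r0) > 0` because `v > 0` on that sphere (compact, continuous). -/
theorem fluxC_pos (h : FlatV v r0 R) : 0 < fluxC v R := by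
  have hr0 := h.r0_pos
  have hr1 := h.r0_lt
  have hCH := c4_CH_pos
  have hy : ‖(EuclideanSpace.single 0 (2 * r0) : E3)‖ = 2 * r0 := by
    rw [PiLp.norm_single, Real.norm_of_nonneg (by linarith)]
  have h1 := (c4_sph h hy).1
  have h2 : 0 < v (EuclideanSpace.single 0 (2 * r0)) :=
    h.pos _ (by rw [hy]; linarith) (by rw [hy]; linarith)
  have h3 : 0 < avg v (2 * r0) := by
    by_contra hc
    push Not at hc
    nlinarith
  rw [avg_eq h (by linarith) (by linarith)] at h3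
  have h4 : 0 < 1 / (2 * r0) - 1 / R := by
    rw [sub_pos]
    apply one_div_lt_one_div_of_lt <;> linarith
  exact (mul_pos_iff_of_pos_right h4).1 h3

/-- CHUNK C4 (M), second statement.
PROOF. Put `a0 = 1/(2 r0) - 1/R > 0`. On `|y| = 2 r0`: average `v x <= CH v y` over `x` on the sphere (`harnack`): `C a0 <= CH v y`;
average `v y <= CH v x` over `x`: `v y <= CH C a0` (`avg_eq`). `max_ann` on `2 r0 <= |x| <= R` with `M = 0` for
`w = (C/CH)(1/|x| - 1/R) - v` and `w = v - CH C (1/|x| - 1/R)`, both harmonic (`lap0_inv`, `lap0_add`), both `0` on `|x| = R`. -/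
theorem barrier (h : FlatV v r0 R) {x : E3} (h1 : 2 * r0 ≤ ‖x‖) (h2 : ‖x‖ ≤ R) :
    fluxC v R / CH * (1 / ‖x‖ - 1 / R) ≤ v x ∧ v x ≤ CH * fluxC v R * (1 / ‖x‖ - 1 / R) := by
  have hr0 := h.r0_pos
  have hr1 := h.r0_lt
  have hCH := c4_CH_pos
  have hcont : ContinuousOn (fun y : E3 => 1 / ‖y‖) {x : E3 | 2 * r0 ≤ ‖x‖ ∧ ‖x‖ ≤ R} := by
    apply ContinuousOn.div continuousOn_const continuous_norm.continuousOn
    intro y hy
    have : 0 < ‖y‖ := lt_of_lt_of_le (by linarith) hy.1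
    exact this.ne'
  have hne : ∀ y : E3, 2 * r0 < ‖y‖ → y ≠ 0 := by
    intro y hy hy0
    rw [hy0, norm_zero] at hy
    linarith
  have hlap : ∀ c d a b : ℝ, ∀ y : E3, 2 * r0 < ‖y‖ → ‖y‖ < R →
      lap0 (fun y : E3 => a * (c * (1 / ‖y‖ - d)) + b * v y) y = 0 := by
    intro c d a b y hy1 hy2
    rw [lap0_add (lap0_inv (hne y hy1) c d).1 (h.smooth.contDiffAt.of_le (by norm_num)),
      (lap0_inv (hne y hy1) c d).2, h.harm y (by linarith) hy2]
    ring
  have hsm : ∀ c d a b : ℝ, ContDiffOn ℝ 2 (fun y : E3 => a * (c * (1 / ‖y‖ - d)) + b * v y)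
      {x : E3 | 2 * r0 < ‖x‖ ∧ ‖x‖ < R} := by
    intro c d a b y hy
    apply ContDiffAt.contDiffWithinAt
    exact (contDiffAt_const.mul (lap0_inv (hne y hy.1) c d).1).add
      (contDiffAt_const.mul (h.smooth.contDiffAt.of_le (by norm_num)))
  have hct : ∀ c d a b : ℝ, ContinuousOn (fun y : E3 => a * (c * (1 / ‖y‖ - d)) + b * v y)
      {x : E3 | 2 * r0 ≤ ‖x‖ ∧ ‖x‖ ≤ R} := by
    intro c d a b
    exact (continuousOn_const.mul (continuousOn_const.mul (hcont.sub continuousOn_const))).add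
      (continuousOn_const.mul h.smooth.continuous.continuousOn)
  have havg : avg v (2 * r0) = fluxC v R * (1 / (2 * r0) - 1 / R) :=
    avg_eq h (by linarith) (by linarith)
  constructor
  · have key := max_ann (r1 := 2 * r0) (r2 := R) (hct (fluxC v R / CH) (1 / R) 1 (-1))
      (hsm (fluxC v R / CH) (1 / R) 1 (-1))
      (fun y hy1 hy2 => (hlap (fluxC v R / CH) (1 / R) 1 (-1) y hy1 hy2).ge) (M := 0)
      (fun y hy => by
        have h3 := (c4_sph h hy).2
        rw [havg] at h3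
        have h4 : fluxC v R / CH * (1 / (2 * r0) - 1 / R) ≤ v y := by
          rw [div_mul_eq_mul_div, div_le_iff₀ hCH, mul_comm (v y)]
          exact h3
        show 1 * (fluxC v R / CH * (1 / ‖y‖ - 1 / R)) + -1 * v y ≤ 0
        rw [hy]
        linarith)
      (fun y hy => by
        show 1 * (fluxC v R / CH * (1 / ‖y‖ - 1 / R)) + -1 * v y ≤ 0
        rw [hy, h.zero y hy]
        simp) x h1 h2
    have key' : 1 * (fluxC v R / CH * (1 / ‖x‖ - 1 / R)) + -1 * v x ≤ 0 := key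
    linarith
  · have key := max_ann (r1 := 2 * r0) (r2 := R) (hct (CH * fluxC v R) (1 / R) (-1) 1)
      (hsm (CH * fluxC v R) (1 / R) (-1) 1)
      (fun y hy1 hy2 => (hlap (CH * fluxC v R) (1 / R) (-1) 1 y hy1 hy2).ge) (M := 0)
      (fun y hy => by
        have h3 := (c4_sph h hy).1
        rw [havg] at h3
        show -1 * (CH * fluxC v R * (1 / ‖y‖ - 1 / R)) + 1 * v y ≤ 0
        rw [hy]
        linarith)
      (fun y hy => by
        show -1 * (CH * fluxC v R * (1 / ‖y‖ - 1 / R)) + 1 * v y ≤ 0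
        rw [hy, h.zero y hy]
        simp) x h1 h2
    have key' : -1 * (CH * fluxC v R * (1 / ‖x‖ - 1 / R)) + 1 * v x ≤ 0 := key
    linarith

end UMB.Far
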