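import Pool.Agent.Lib.UMB.Far.C4

set_option autoImplicit false

/-! # UMB.Far, chunk C5: gradient on the outer sphere -/

open Filter Topology Set MeasureTheory
open scoped ContDiff

namespace UMB.Far

open Pool.Agent.Lib.PenroseSph (E3 S2 pd avg sm rotLin rotLin_norm hasDerivAt_rot)

variable {v : E3 → ℝ} {r0 R : ℝ}

theorem c5_rot (h : FlatV v r0 R) {x : E3} (hx : ‖x‖ = R) (i j : Fin 3) :
    x i * pd j v x = x j * pd i v x := by
  by_cases hij : i = j
  · rw [hij]
  · have e0 : rotLin i j 0 x = x := by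
      ext k
      rw [Pool.Agent.Lib.PenroseSph.rotLin_apply]
      simp
    have h1 : HasFDerivAt v (fderiv ℝ v (rotLin i j 0 x)) (rotLin i j 0 x) :=
      (h.smooth.differentiable (by norm_num)).differentiableAt.hasFDerivAt
    have h2 := h1.comp_hasDerivAt 0 (hasDerivAt_rot hij 0 x)
    have h3 : (v ∘ fun s => rotLin i j s x) = fun _ => 0 := by
      funext s
      exact h.zero _ (by rw [rotLin_norm hij, hx])
    rw [h3] at h2
    have h4 := h2.unique (hasDerivAt_const (0 : ℝ) (0 : ℝ))
    rw [e0, map_add, map_smul, map_smul] at h4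
    have h5 : -(x j) * pd i v x + x i * pd j v x = 0 := h4
    linarith

/-- CHUNK C5 (M), first statement: on `|x| = R` the gradient is radial.
PROOF. `s -> v (rotLin i j s x)` vanishes identically (`|rotLin i j s x| = R`), its derivative at `s = 0` is
`x_i pd j v x - x_j pd i v x = 0` (`hasDerivAt_rot`). Hence `|x|^2 pd i v x = sum_j x_j (x_j pd i v x) = sum_j x_j x_i pd j v x`. -/
theorem bdry_radial (h : FlatV v r0 R) {x : E3} (hx : ‖x‖ = R) (i : Fin 3) : pd i v x = (x i / ‖x‖) * dr v x := by
  have hr0 := h.r0_pos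
  have hr1 := h.r0_lt
  have hR : 0 < R := by linarith
  have hxn : ‖x‖ ≠ 0 := by rw [hx]; exact hR.ne'
  have hs := c2_norm_sq x
  have h1 : ‖x‖ ^ 2 * pd i v x = x i * ∑ m, x m * pd m v x := by
    rw [hs, Fin.sum_univ_three]
    have a0 := c5_rot h hx i 0
    have a1 := c5_rot h hx i 1
    have a2 := c5_rot h hx i 2
    linear_combination (-(x 0)) * a0 + (-(x 1)) * a1 + (-(x 2)) * a2
  have h2 : dr v x = (∑ m, x m * pd m v x) / ‖x‖ := by
    unfold dr
    rw [Finset.sum_div]
    apply Finset.sum_congr rfl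
    intro m _
    ring
  rw [h2]
  field_simp
  linarith

/-- CHUNK C5 (M), second statement.
PROOF. `f s = v (s x/R)` has derivative `dr v x` at `s = R`, `f R = 0`, and `0 <= f s <= CH C (1/s - 1/R)` for
`2 r0 <= s < R` (`barrier`, positivity). The difference quotients `(f s - f R)/(s - R)` for `s < R` are `<= 0` and
`>= CH C (1/s - 1/R)/(s - R) = -CH C/(s R)`. -/
theorem bdry_grad (h : FlatV v r0 R) {x : E3} (hx : ‖x‖ = R) :
    -(CH * fluxC v R / R ^ 2) ≤ dr v x ∧ dr v x ≤ 0 := by
  have hr0 := h.r0_pos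
  have hr1 := h.r0_lt
  have hR : 0 < R := by linarith
  have hCH := c4_CH_pos
  have hC := fluxC_pos h
  set n : E3 := (1 / R) • x with hn
  have hRn : R • n = x := by
    rw [hn, smul_smul, mul_one_div_cancel hR.ne', one_smul]
  have hnn : ‖n‖ = 1 := by
    rw [hn, norm_smul, hx, Real.norm_of_nonneg (by positivity), one_div, inv_mul_cancel₀ hR.ne']
  have hder : HasDerivAt (fun s : ℝ => v (s • n)) (dr v x) R := by
    have h1 := Pool.Agent.Lib.PenroseSph.hasDerivAt_ray (F := v) (n := n) (t := R)
      (h.smooth.differentiable (by norm_num)).differentiableAt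
    refine h1.congr_deriv ?_
    rw [hRn]
    unfold dr
    apply Finset.sum_congr rfl
    intro m _
    rw [hn, hx]
    simp
    left
    ring
  have hf0 : v (R • n) = 0 := by rw [hRn, h.zero x hx]
  have hsub : Set.Iio R ⊆ ({R}ᶜ : Set ℝ) := fun s hs => ne_of_lt hs
  have hslope : Tendsto (slope (fun s : ℝ => v (s • n)) R) (𝓝[<] R) (𝓝 (dr v x)) :=
    (hasDerivAt_iff_tendsto_slope.1 hder).mono_left (nhdsWithin_mono R hsub)
  have hev : ∀ᶠ s in 𝓝[<] R, 2 * r0 < s ∧ s < R := by
    have h1 : ∀ᶠ s in 𝓝[<] R, 2 * r0 < s :=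
      nhdsWithin_le_nhds (lt_mem_nhds (by linarith))
    have h2 : ∀ᶠ s in 𝓝[<] R, s < R := self_mem_nhdsWithin
    exact h1.and h2
  have hnorm : ∀ s : ℝ, 0 < s → ‖s • n‖ = s := by
    intro s hs
    rw [norm_smul, hnn, mul_one, Real.norm_of_nonneg hs.le]
  constructor
  · have hlim : Tendsto (fun s : ℝ => -(CH * fluxC v R / (s * R))) (𝓝[<] R)
        (𝓝 (-(CH * fluxC v R / R ^ 2))) := by
      apply Tendsto.mono_left _ nhdsWithin_le_nhds
      have hcont : ContinuousAt (fun s : ℝ => -(CH * fluxC v R / (s * R))) R := by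
        apply ContinuousAt.neg
        apply ContinuousAt.div continuousAt_const
        · exact continuousAt_id.mul continuousAt_const
        · exact (mul_pos hR hR).ne'
      have := hcont.tendsto
      rwa [← sq] at this
    apply le_of_tendsto_of_tendsto hlim hslope
    filter_upwards [hev] with s hs
    have hs0 : 0 < s := by linarith [hs.1]
    have hb := (barrier h (x := s • n) (by rw [hnorm s hs0]; linarith [hs.1])
      (by rw [hnorm s hs0]; exact hs.2.le)).2
    rw [hnorm s hs0] at hb
    rw [slope_def_field, hf0, sub_zero, le_div_iff_of_neg (by linarith [hs.2])]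
    have e1 : -(CH * fluxC v R / (s * R)) * (s - R) = CH * fluxC v R * (1 / s - 1 / R) := by
      field_simp
      ring
    rw [e1]
    exact hb
  · apply le_of_tendsto hslope
    filter_upwards [hev] with s hs
    have hs0 : 0 < s := by linarith [hs.1]
    have hp : 0 < v (s • n) := h.pos _ (by rw [hnorm s hs0]; linarith [hs.1])
      (by rw [hnorm s hs0]; exact hs.2)
    rw [slope_def_field, hf0, sub_zero]
    exact (div_neg_of_pos_of_neg hp (by linarith [hs.2])).le

end UMB.Far
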