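import Pool.Agent.Lib.UMB.Far.C5

set_option autoImplicit false

/-! # UMB.Far, chunk C6: the bounds (FAR1) -/

open Filter Topology Set MeasureTheory
open scoped ContDiff

namespace UMB.Far

open Pool.Agent.Lib.PenroseSph (E3 S2 pd avg sm)

variable {v : E3 → ℝ} {r0 R : ℝ}

theorem c6_near (h : FlatV v r0 R) {x : E3} (h1 : 2 * r0 ≤ ‖x‖) (h2 : 3 * ‖x‖ ≤ 2 * R) (i : Fin 3) :
    |pd i v x| ≤ 6 * CH * fluxC v R / ‖x‖ ^ 2 := by
  have hr0 := h.r0_pos
  have hr1 := h.r0_lt
  have hx : 0 < ‖x‖ := by linarith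
  have hCH := c4_CH_pos
  have hC := fluxC_pos h
  have hg := grad_int h h1 h2 (fun k => if k = i then 1 else 0)
  have e1 : ∑ k, (if k = i then (1 : ℝ) else 0) * pd k v x = pd i v x := by
    simp only [ite_mul, one_mul, zero_mul, Finset.sum_ite_eq', Finset.mem_univ, if_true]
  have e2 : ∑ k, (if k = i then (1 : ℝ) else 0) ^ 2 = 1 := by
    have : ∀ k : Fin 3, (if k = i then (1 : ℝ) else 0) ^ 2 = if k = i then 1 else 0 := by
      intro k
      split_ifs <;> norm_num
    rw [Finset.sum_congr rfl (fun k _ => this k)]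
    simp only [Finset.sum_ite_eq', Finset.mem_univ, if_true]
  rw [e1, e2, Real.sqrt_one, mul_one] at hg
  have hR : 0 < R := by linarith
  have hb := (barrier h h1 (by linarith)).2
  have hb2 : v x ≤ CH * fluxC v R * (1 / ‖x‖) := by
    have : 0 ≤ CH * fluxC v R * (1 / R) := by positivity
    have e3 : CH * fluxC v R * (1 / ‖x‖ - 1 / R) = CH * fluxC v R * (1 / ‖x‖) - CH * fluxC v R * (1 / R) := by
      ring
    linarith
  calc |pd i v x| ≤ 6 / ‖x‖ * v x := hg
    _ ≤ 6 / ‖x‖ * (CH * fluxC v R * (1 / ‖x‖)) := mul_le_mul_of_nonneg_left hb2 (by positivity)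
    _ = 6 * CH * fluxC v R / ‖x‖ ^ 2 := by
      field_simp

theorem c6_coord_le (x : E3) (i : Fin 3) : |x i| ≤ ‖x‖ := by
  have := PiLp.norm_apply_le x i
  rwa [Real.norm_eq_abs] at this

/-- CHUNK C6 (M), first statement.
PROOF. If `|x| <= 2R/3`: `grad_int` with the unit vector `e_i` and `barrier`: `<= (6/|x|) CH C/|x|`. If `|x| > 2R/3`: `max_ann` on
`2R/3 <= |y| <= R` for `pd i v` and `- pd i v` (harmonic: `pd_harm`), with `M = 14 CH C/R^2`: on `|y| = 2R/3` the first case
gives `6 CH C/(2R/3)^2 = 13.5 CH C/R^2`, on `|y| = R` `bdry_radial`, `bdry_grad` give `CH C/R^2`. And `1/R^2 <= 1/|x|^2`.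
(`2 r0 <= 2R/3` because `8 r0 <= R`.) -/
theorem grad_far (h : FlatV v r0 R) {x : E3} (h1 : 2 * r0 ≤ ‖x‖) (h2 : ‖x‖ ≤ R) (i : Fin 3) :
    |pd i v x| ≤ 14 * CH * fluxC v R / ‖x‖ ^ 2 := by
  have hr0 := h.r0_pos
  have hr1 := h.r0_lt
  have hx : 0 < ‖x‖ := by linarith
  have hR : 0 < R := by linarith
  have hCH := c4_CH_pos
  have hC := fluxC_pos h
  rcases le_or_gt (3 * ‖x‖) (2 * R) with hle | hgt
  · calc |pd i v x| ≤ 6 * CH * fluxC v R / ‖x‖ ^ 2 := c6_near h h1 hle i
      _ ≤ 14 * CH * fluxC v R / ‖x‖ ^ 2 := by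
        apply div_le_div_of_nonneg_right _ (by positivity)
        have : 0 < CH * fluxC v R := mul_pos hCH hC
        nlinarith
  · have hU : IsOpen {y : E3 | r0 < ‖y‖ ∧ ‖y‖ < R} :=
      (isOpen_lt continuous_const continuous_norm).inter (isOpen_lt continuous_norm continuous_const)
    obtain ⟨hs, hh⟩ := pd_harm h.smooth hU (fun y hy => h.harm y hy.1 hy.2) i
    set M : ℝ := 14 * CH * fluxC v R / R ^ 2 with hM
    have hin : ∀ y : E3, ‖y‖ = 2 * R / 3 → |pd i v y| ≤ M := by
      intro y hy
      have ha := c6_near h (x := y) (by rw [hy]; linarith) (by rw [hy]; linarith) i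
      rw [hy] at ha
      have e1 : 6 * CH * fluxC v R / (2 * R / 3) ^ 2 = 13.5 * CH * fluxC v R / R ^ 2 := by
        field_simp
        norm_num
      rw [e1] at ha
      have : 13.5 * CH * fluxC v R / R ^ 2 ≤ M := by
        rw [hM]
        apply div_le_div_of_nonneg_right _ (by positivity)
        have : 0 < CH * fluxC v R := mul_pos hCH hC
        nlinarith
      linarith
    have hout : ∀ y : E3, ‖y‖ = R → |pd i v y| ≤ M := by
      intro y hy
      rw [bdry_radial h hy i, abs_mul]
      have hg := bdry_grad h hy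
      have a1 : |y i / ‖y‖| ≤ 1 := by
        rw [abs_div, abs_norm, div_le_one (by rw [hy]; exact hR)]
        exact c6_coord_le y i
      have a2 : |dr v y| ≤ CH * fluxC v R / R ^ 2 := by
        rw [abs_le]
        refine ⟨hg.1, le_trans hg.2 (by positivity)⟩
      have a3 : CH * fluxC v R / R ^ 2 ≤ M := by
        rw [hM]
        apply div_le_div_of_nonneg_right _ (by positivity)
        have : 0 < CH * fluxC v R := mul_pos hCH hC
        nlinarith
      calc |y i / ‖y‖| * |dr v y| ≤ 1 * |dr v y| := mul_le_mul_of_nonneg_right a1 (abs_nonneg _)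
        _ ≤ M := by linarith
    have hann : ∀ c : ℝ, |c| = 1 → c * pd i v x ≤ M := by
      intro c hc
      have key := max_ann (r1 := 2 * R / 3) (r2 := R) (w := fun y => c * pd i v y)
        (continuousOn_const.mul hs.continuous.continuousOn)
        (contDiffOn_const.mul hs.contDiffOn)
        (fun y hy1 hy2 => by
          have e1 : (fun y => c * pd i v y) = fun y => c * pd i v y + 0 * pd i v y := by
            funext y
            ring
          rw [e1, lap0_add hs.contDiffAt hs.contDiffAt, hh y ⟨by linarith, hy2⟩]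
          simp) (M := M)
        (fun y hy => by
          have := hin y hy
          calc c * pd i v y ≤ |c * pd i v y| := le_abs_self _
            _ = |pd i v y| := by rw [abs_mul, hc, one_mul]
            _ ≤ M := this)
        (fun y hy => by
          have := hout y hy
          calc c * pd i v y ≤ |c * pd i v y| := le_abs_self _
            _ = |pd i v y| := by rw [abs_mul, hc, one_mul]
            _ ≤ M := this) x (by linarith) h2
      exact key
    have b1 := hann 1 (by norm_num)
    have b2 := hann (-1) (by norm_num)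
    have b3 : |pd i v x| ≤ M := by
      rw [abs_le]
      constructor <;> linarith
    have b4 : M ≤ 14 * CH * fluxC v R / ‖x‖ ^ 2 := by
      rw [hM]
      apply div_le_div_of_nonneg_left (by positivity) (by positivity)
      exact pow_le_pow_left₀ hx.le h2 2
    linarith

/-- CHUNK C6 (S), second statement: bounds of `v + κ`, `κ = C/R`.
PROOF. `barrier` and `CH >= 1`: `(C/CH)(1/|x| - 1/R) + C/R >= C/(CH |x|)`, `CH C (1/|x| - 1/R) + C/R <= CH C/|x|`. -/
theorem u_bounds (h : FlatV v r0 R) {x : E3} (h1 : 2 * r0 ≤ ‖x‖) (h2 : ‖x‖ ≤ R) :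
    fluxC v R / (CH * ‖x‖) ≤ v x + fluxC v R / R ∧ v x + fluxC v R / R ≤ CH * fluxC v R / ‖x‖ := by
  have hr0 := h.r0_pos
  have hr1 := h.r0_lt
  have hx : 0 < ‖x‖ := by linarith
  have hR : 0 < R := by linarith
  have hCH := c4_CH_pos
  have hCH1 := c4_CH_one
  have hC := fluxC_pos h
  have hb := barrier h h1 h2
  constructor
  · have e1 : fluxC v R / CH * (1 / ‖x‖ - 1 / R) = fluxC v R / (CH * ‖x‖) - fluxC v R / (CH * R) := by
      field_simp
    have e2 : fluxC v R / (CH * R) ≤ fluxC v R / R := by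
      apply div_le_div_of_nonneg_left hC.le hR
      nlinarith
    linarith [hb.1]
  · have e1 : CH * fluxC v R * (1 / ‖x‖ - 1 / R) = CH * fluxC v R / ‖x‖ - CH * fluxC v R / R := by
      field_simp
    have e2 : fluxC v R / R ≤ CH * fluxC v R / R := by
      apply div_le_div_of_nonneg_right _ hR.le
      nlinarith
    linarith [hb.2]

end UMB.Far
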