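import Pool.Agent.Lib.UMB.Far.Defs

set_option autoImplicit false

/-! # UMB.Far, chunk D1: reflections -/

open Filter Topology Set MeasureTheory
open scoped ContDiff

namespace UMB.Far

open Pool.Agent.Lib.PenroseSph (E3 pd)

theorem d1_ip (x y : E3) : ip x y = inner ℝ x y := by
  unfold ip
  rw [PiLp.inner_apply]
  refine Finset.sum_congr rfl fun i _ => ?_
  simp [mul_comm]

/-- CHUNK D1 (S), first statement: elementary properties of the reflection.
PROOF. `ip` is the inner product (`EuclideanSpace.inner_eq_star_dotProduct` or `PiLp.inner_apply`, `real_inner_self_eq_norm_sq`),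
bilinear; `ip e e = 1`. -/
theorem refl_prop {e : E3} (he : ‖e‖ = 1) (x : E3) :
    ‖refl e x‖ = ‖x‖ ∧ ip (refl e x) e = -ip x e ∧ refl e (refl e x) = x := by
  have hee : inner ℝ e e = (1 : ℝ) := by rw [real_inner_self_eq_norm_sq, he]; norm_num
  have h2 : ip (refl e x) e = -ip x e := by
    rw [d1_ip, d1_ip]
    unfold refl
    rw [inner_sub_left, inner_smul_left, hee, d1_ip]
    simp
    ring
  refine ⟨?_, h2, ?_⟩
  · have : ‖refl e x‖ ^ 2 = ‖x‖ ^ 2 := by
      unfold refl
      rw [norm_sub_sq_real, inner_smul_right, norm_smul, he, d1_ip]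
      simp only [Real.norm_eq_abs, mul_one, sq_abs]
      ring
    exact (sq_eq_sq₀ (norm_nonneg _) (norm_nonneg _)).1 this
  · have h3 : refl e (refl e x) = refl e x - (2 * ip (refl e x) e) • e := rfl
    rw [h3, h2]
    unfold refl
    module

/-- CHUNK D1 (S), second statement: Cauchy-Schwarz, continuity. -/
theorem ip_le (x e : E3) : |ip x e| ≤ ‖x‖ * ‖e‖ := by
  rw [d1_ip]
  exact abs_real_inner_le_norm x e

theorem refl_contDiff (e : E3) : ContDiff ℝ ∞ (refl e) := by
  have : refl e = fun x : E3 => x - (2 * inner ℝ x e) • e := by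
    funext x
    unfold refl
    rw [d1_ip]
  rw [this]
  exact contDiff_id.sub ((contDiff_const.mul (contDiff_id.inner ℝ contDiff_const)).smul contDiff_const)

/-- CHUNK D1 (S), third statement: two points of the same norm are mirror images.
PROOF. `e = (x - y)/|x - y|`, `ip x e = |x - y|/2` because `|x| = |y|`. -/
theorem exists_refl {x y : E3} (h : ‖x‖ = ‖y‖) (hne : x ≠ y) :
    ∃ e : E3, ‖e‖ = 1 ∧ refl e x = y ∧ ip x e = ‖x - y‖ / 2 := by
  have hn : ‖x - y‖ ≠ 0 := norm_ne_zero_iff.2 (sub_ne_zero.2 hne)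
  have hip : ip x (‖x - y‖⁻¹ • (x - y)) = ‖x - y‖ / 2 := by
    rw [d1_ip, inner_smul_right, inner_sub_right, real_inner_self_eq_norm_sq]
    have h1 : ‖x - y‖ ^ 2 = ‖x‖ ^ 2 - 2 * inner ℝ x y + ‖y‖ ^ 2 := norm_sub_sq_real x y
    have h2 : ‖x‖ ^ 2 - inner ℝ x y = ‖x - y‖ ^ 2 / 2 := by rw [h1, ← h]; ring
    rw [h2]
    field_simp
  refine ⟨‖x - y‖⁻¹ • (x - y), ?_, ?_, hip⟩
  · rw [norm_smul, norm_inv, norm_norm, inv_mul_cancel₀ hn]
  · unfold refl
    rw [hip, smul_smul]
    have : 2 * (‖x - y‖ / 2) * ‖x - y‖⁻¹ = 1 := by field_simp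
    rw [this, one_smul]
    abel

/-- The matrix of the reflection. -/
noncomputable def d1_S (e : E3) (j i : Fin 3) : ℝ := (if j = i then 1 else 0) - 2 * e i * e j

theorem d1_single (e : E3) (i : Fin 3) :
    EuclideanSpace.single i (1 : ℝ) - (2 * e i) • e = ∑ j, d1_S e j i • EuclideanSpace.single j (1 : ℝ) := by
  ext k
  simp only [PiLp.sub_apply, PiLp.smul_apply, smul_eq_mul, WithLp.ofLp_sum, Finset.sum_apply, d1_S]
  simp [Pi.single_apply]

theorem d1_fderiv (e x : E3) : HasFDerivAt (refl e)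
    (ContinuousLinearMap.id ℝ E3 - (2 : ℝ) • (innerSL ℝ e).smulRight e) x := by
  have h1 : refl e = fun x : E3 => x - (2 : ℝ) • ((innerSL ℝ e).smulRight e) x := by
    funext y
    unfold refl
    rw [d1_ip]
    simp [smul_smul, real_inner_comm]
  rw [h1]
  exact (hasFDerivAt_id x).sub (((2 : ℝ) • (innerSL ℝ e).smulRight e).hasFDerivAt)

theorem d1_pd {f : E3 → ℝ} {e x : E3} (hf : DifferentiableAt ℝ f (refl e x)) (i : Fin 3) :
    pd i (fun y => f (refl e y)) x = ∑ j, d1_S e j i * pd j f (refl e x) := by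
  have h := hf.hasFDerivAt.comp x (d1_fderiv e x)
  have h2 : HasFDerivAt (fun y => f (refl e y)) ((fderiv ℝ f (refl e x)).comp
    (ContinuousLinearMap.id ℝ E3 - (2 : ℝ) • (innerSL ℝ e).smulRight e)) x := h
  unfold pd
  rw [h2.fderiv]
  have h3 : (ContinuousLinearMap.id ℝ E3 - (2 : ℝ) • (innerSL ℝ e).smulRight e) (EuclideanSpace.single i (1 : ℝ)) =
      ∑ j, d1_S e j i • EuclideanSpace.single j (1 : ℝ) := by
    rw [← d1_single]
    simp [EuclideanSpace.inner_single_right, smul_smul]
  rw [ContinuousLinearMap.comp_apply, h3, map_sum]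
  simp

/-- CHUNK D1 (M), fourth statement: the Laplacian is invariant.
PROOF. `refl e` is linear with the symmetric matrix `S j i = delta_ij - 2 e_i e_j`, `sum_i S j i S k i = delta_jk`. Chain rule:
`pd i (f o refl e) = sum_j S j i (pd j f) o refl e`, twice; `sum_i S j i S k i (pd k pd j f) = lap0 f`. -/
theorem lap0_refl {f : E3 → ℝ} (hf : ContDiff ℝ 2 f) {e : E3} (he : ‖e‖ = 1) (x : E3) :
    lap0 (fun y => f (refl e y)) x = lap0 f (refl e x) := by
  have hd : Differentiable ℝ f := hf.differentiable (by norm_num)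
  have hpd : ∀ j, Differentiable ℝ (pd j f) := by
    intro j
    have : ContDiff ℝ 1 (pd j f) := by
      unfold pd
      exact (hf.fderiv_right (m := 1) (by norm_num)).clm_apply contDiff_const
    exact this.differentiable (by norm_num)
  have e1 : ∀ i, pd i (fun y => f (refl e y)) = fun y => ∑ j, d1_S e j i * pd j f (refl e y) := by
    intro i
    funext y
    exact d1_pd (hd _) i
  have hrd : Differentiable ℝ (refl e) := (refl_contDiff e).differentiable (by norm_num)
  have e2 : ∀ i, pd i (pd i (fun y => f (refl e y))) x =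
      ∑ j, ∑ k, d1_S e j i * d1_S e k i * pd k (pd j f) (refl e x) := by
    intro i
    rw [e1 i, Pool.Agent.Lib.PenroseSph.sum_pd (f := fun j y => d1_S e j i * pd j f (refl e y)) i
      (fun j => (((hpd j).comp hrd) x).const_mul _)]
    refine Finset.sum_congr rfl fun j _ => ?_
    rw [Pool.Agent.Lib.PenroseSph.pd_const_mul (f := fun y => pd j f (refl e y)) i _ (((hpd j).comp hrd) x),
      d1_pd ((hpd j) _) i, Finset.mul_sum]
    refine Finset.sum_congr rfl fun k _ => ?_
    ring
  have hee : e 0 ^ 2 + e 1 ^ 2 + e 2 ^ 2 = 1 := by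
    rw [← Pool.Agent.Lib.PenroseSph.norm_sq_eq, he]; norm_num
  have e3 : ∀ j k, ∑ i, d1_S e j i * d1_S e k i = if j = k then 1 else 0 := by
    intro j k
    unfold d1_S
    fin_cases j <;> fin_cases k <;> simp [Fin.sum_univ_three]
    · linear_combination (4 * e 0 ^ 2) * hee
    · linear_combination (4 * e 0 * e 1) * hee
    · linear_combination (4 * e 0 * e 2) * hee
    · linear_combination (4 * e 0 * e 1) * hee
    · linear_combination (4 * e 1 ^ 2) * hee
    · linear_combination (4 * e 1 * e 2) * hee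
    · linear_combination (4 * e 0 * e 2) * hee
    · linear_combination (4 * e 1 * e 2) * hee
    · linear_combination (4 * e 2 ^ 2) * hee
  unfold lap0
  simp only [e2]
  rw [Finset.sum_comm]
  refine Finset.sum_congr rfl fun j _ => ?_
  rw [Finset.sum_comm]
  have : ∀ k, ∑ i, d1_S e j i * d1_S e k i * pd k (pd j f) (refl e x) = (if j = k then 1 else 0) * pd k (pd j f) (refl e x) := by
    intro k
    rw [← Finset.sum_mul, e3]
  simp only [this]
  simp

end UMB.Far
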