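import Pool.Agent.Lib.UMB.Far.C6
import Pool.Agent.Lib.UMB.Far.D1

set_option autoImplicit false

/-! # UMB.Far, chunk D3: reflection estimate on the inner sphere -/

open Filter Topology Set MeasureTheory
open scoped ContDiff

namespace UMB.Far

open Pool.Agent.Lib.PenroseSph (E3 pd avg)

variable {v : E3 → ℝ} {r0 R : ℝ}

theorem d3_fderiv (f : E3 → ℝ) (x e : E3) : fderiv ℝ f x e = ∑ i, e i * pd i f x := by
  have hn : e = ∑ m, e m • EuclideanSpace.single m (1:ℝ) := by
    ext i
    simp [Finset.sum_apply, Pi.single_apply]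
  calc fderiv ℝ f x e = fderiv ℝ f x (∑ m, e m • EuclideanSpace.single m (1:ℝ)) := by rw [← hn]
    _ = ∑ m, e m * pd m f x := by
        rw [map_sum]
        simp [pd]

theorem d3_CH : 0 < CH := Real.exp_pos _

/-- CHUNK D3 (M).
PROOF. If `ip x e <= 3 r0`: the points `z_s = x - s (2 ip x e) e`, `0 <= s <= 1`, of the segment from `x` to `refl e x` satisfy
`|z_s|^2 = |x|^2 - 4 s (1 - s) (ip x e)^2 >= 16 r0^2 - 9 r0^2 >= (2 r0)^2` and `|z_s| <= 4 r0 <= R`. By `grad_far`,
`|sum e_i pd i v z| <= (sum |e_i|) 14 CH C/(4 r0^2) <= 7 CH C/r0^2` (`sum |e_i| <= sqrt 3 <= 2`), and the mean value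
theorem along the segment gives `|v x - v (refl e x)| <= 2 (ip x e) 7 CH C/r0^2`. If `ip x e > 3 r0`: both values are in
`[0, CH C/(4 r0)]` (`barrier`), so the difference is `<= CH C/(4 r0) <= (ip x e/(3 r0)) CH C/(4 r0)`. -/
theorem refl_inner (h : FlatV v r0 R) {e x : E3} (he : ‖e‖ = 1) (hx : ‖x‖ = 4 * r0) (hxe : 0 ≤ ip x e) :
    |v x - v (refl e x)| ≤ 14 * CH * fluxC v R / r0 ^ 2 * ip x e := by
  have hr0 := h.r0_pos
  have hR := h.r0_lt
  have hCH := d3_CH
  have hC := fluxC_pos h
  have hRpos : 0 < R := by linarith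
  rcases le_or_gt (ip x e) (3 * r0) with hle | hgt
  · -- segment
    set t := ip x e with ht
    set K : ℝ := 14 * CH * fluxC v R / r0 ^ 2 * t with hK
    have hdiff : Differentiable ℝ v := h.smooth.differentiable (by norm_num)
    have hderiv : ∀ s : ℝ, HasDerivAt (fun s : ℝ => v (x - (s * (2 * t)) • e))
        (-(2 * t) * ∑ i, e i * pd i v (x - (s * (2 * t)) • e)) s := by
      intro s
      have h1 : HasDerivAt (fun s : ℝ => x - (s * (2 * t)) • e) (-((2 * t) • e)) s := by
        have h2 : HasDerivAt (fun s : ℝ => (s * (2 * t)) • e) ((2 * t) • e) s := by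
          have := ((hasDerivAt_id s).mul_const (2 * t)).smul_const e
          simpa using this
        have h6 := (hasDerivAt_const s x).sub h2
        rw [zero_sub] at h6
        exact h6
      have h3 := (hdiff (x - (s * (2 * t)) • e)).hasFDerivAt.comp_hasDerivAt s h1
      refine h3.congr_deriv ?_
      rw [map_neg, map_smul, d3_fderiv]
      simp
    have hbound : ∀ s ∈ Ico (0:ℝ) 1, ‖-(2 * t) * ∑ i, e i * pd i v (x - (s * (2 * t)) • e)‖ ≤ K := by
      intro s hs
      set z := x - (s * (2 * t)) • e with hz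
      have hz2 : ‖z‖ ^ 2 = 16 * r0 ^ 2 - 4 * (s * (1 - s)) * t ^ 2 := by
        rw [hz, norm_sub_sq_real, inner_smul_right, norm_smul, he, ← d1_ip, ← ht, hx]
        simp only [Real.norm_eq_abs, mul_one, sq_abs]
        ring
      have hs1 : 0 ≤ s * (1 - s) := mul_nonneg hs.1 (by linarith [hs.2])
      have hs2 : s * (1 - s) ≤ 1 / 4 := by nlinarith [sq_nonneg (s - 1 / 2)]
      have ht2 : t ^ 2 ≤ 9 * r0 ^ 2 := by nlinarith
      have hz3 : 4 * (s * (1 - s)) * t ^ 2 ≤ t ^ 2 := by nlinarith [sq_nonneg t]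
      have hzlo : 2 * r0 ≤ ‖z‖ := by
        apply le_of_sq_le_sq _ (norm_nonneg z)
        rw [hz2]; nlinarith
      have hzhi : ‖z‖ ≤ R := by
        have : ‖z‖ ≤ 4 * r0 := by
          apply le_of_sq_le_sq _ (by linarith)
          rw [hz2]
          nlinarith [mul_nonneg hs1 (sq_nonneg t)]
        linarith
      have hg : ∀ i, |pd i v z| ≤ 14 * CH * fluxC v R / (4 * r0 ^ 2) := by
        intro i
        refine (grad_far h hzlo hzhi i).trans ?_
        apply div_le_div_of_nonneg_left (by positivity) (by positivity)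
        nlinarith
      have hsum : |∑ i, e i * pd i v z| ≤ 2 * (14 * CH * fluxC v R / (4 * r0 ^ 2)) := by
        have hee : e 0 ^ 2 + e 1 ^ 2 + e 2 ^ 2 = 1 := by
          rw [← Pool.Agent.Lib.PenroseSph.norm_sq_eq, he]; norm_num
        have h4 : |e 0| + |e 1| + |e 2| ≤ 2 := by
          apply le_of_sq_le_sq _ (by norm_num)
          have a0 := sq_abs (e 0)
          have a1 := sq_abs (e 1)
          have a2 := sq_abs (e 2)
          nlinarith [sq_nonneg (|e 0| - |e 1|), sq_nonneg (|e 1| - |e 2|), sq_nonneg (|e 0| - |e 2|)]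
        set B := 14 * CH * fluxC v R / (4 * r0 ^ 2) with hB
        have hBpos : 0 ≤ B := by positivity
        calc |∑ i, e i * pd i v z| ≤ ∑ i, |e i * pd i v z| := Finset.abs_sum_le_sum_abs _ _
          _ ≤ ∑ i, |e i| * B := by
              refine Finset.sum_le_sum fun i _ => ?_
              rw [abs_mul]
              exact mul_le_mul_of_nonneg_left (hg i) (abs_nonneg _)
          _ = (|e 0| + |e 1| + |e 2|) * B := by rw [Fin.sum_univ_three]; ring
          _ ≤ 2 * B := mul_le_mul_of_nonneg_right h4 hBpos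
      rw [norm_mul, Real.norm_eq_abs, Real.norm_eq_abs, abs_neg, abs_of_nonneg (by linarith : 0 ≤ 2 * t)]
      calc 2 * t * |∑ i, e i * pd i v z| ≤ 2 * t * (2 * (14 * CH * fluxC v R / (4 * r0 ^ 2))) :=
            mul_le_mul_of_nonneg_left hsum (by linarith)
        _ = K := by rw [hK]; field_simp; ring
    have h5 := norm_image_sub_le_of_norm_deriv_le_segment_01' (f := fun s : ℝ => v (x - (s * (2 * t)) • e))
      (f' := fun s => -(2 * t) * ∑ i, e i * pd i v (x - (s * (2 * t)) • e)) (C := K)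
      (fun s _ => (hderiv s).hasDerivWithinAt) hbound
    have e0 : x - ((0:ℝ) * (2 * t)) • e = x := by simp
    have e1 : x - ((1:ℝ) * (2 * t)) • e = refl e x := by
      unfold refl
      rw [one_mul]
    simp only [e0, e1] at h5
    rw [Real.norm_eq_abs] at h5
    rwa [abs_sub_comm]
  · -- far from the plane
    have hval : ∀ y : E3, ‖y‖ = 4 * r0 → 0 ≤ v y ∧ v y ≤ CH * fluxC v R / (4 * r0) := by
      intro y hy
      have h1 := (barrier h (x := y) (by rw [hy]; linarith) (by rw [hy]; linarith)).2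
      refine ⟨(h.pos y (by rw [hy]; linarith) (by rw [hy]; linarith)).le, h1.trans ?_⟩
      rw [hy]
      have h2 : 1 / (4 * r0) - 1 / R ≤ 1 / (4 * r0) := by
        have : 0 < 1 / R := by positivity
        linarith
      calc CH * fluxC v R * (1 / (4 * r0) - 1 / R) ≤ CH * fluxC v R * (1 / (4 * r0)) :=
            mul_le_mul_of_nonneg_left h2 (by positivity)
        _ = CH * fluxC v R / (4 * r0) := by ring
    obtain ⟨a1, a2⟩ := hval x hx
    obtain ⟨b1, b2⟩ := hval (refl e x) (by rw [(refl_prop he x).1]; exact hx)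
    have h3 : |v x - v (refl e x)| ≤ CH * fluxC v R / (4 * r0) := by
      rw [abs_le]; constructor <;> linarith
    refine h3.trans ?_
    rw [div_mul_eq_mul_div, div_le_div_iff₀ (by positivity) (by positivity)]
    have h4 : 0 < CH * fluxC v R := by positivity
    have h5 : r0 ^ 2 ≤ 14 * ip x e * (4 * r0) := by nlinarith
    calc CH * fluxC v R * r0 ^ 2 ≤ CH * fluxC v R * (14 * ip x e * (4 * r0)) :=
          mul_le_mul_of_nonneg_left h5 h4.le
      _ = _ := by ring

end UMB.Far
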