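import Pool.Agent.Lib.UMB.Far.D3

set_option autoImplicit false

/-! # UMB.Far, chunk D4: reflection estimate in the far zone -/

open Filter Topology Set MeasureTheory
open scoped ContDiff

namespace UMB.Far

open Pool.Agent.Lib.PenroseSph (E3 pd avg)

variable {v : E3 → ℝ} {r0 R : ℝ}

theorem d4_sign (h : FlatV v r0 R) {e : E3} (he : ‖e‖ = 1) (σ : ℝ) (hσ : σ = 1 ∨ σ = -1) :
    ∀ x : E3, 4 * r0 ≤ ‖x‖ → ‖x‖ ≤ R → 0 ≤ ip x e →
      σ * v x + (-σ) * v (refl e x) ≤ 1024 * CH * fluxC v R * r0 * (ip x e * (1 / ‖x‖ ^ 3 - 1 / R ^ 3)) := by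
  have hr0 := h.r0_pos
  have hR := h.r0_lt
  have hCH := d3_CH
  have hC := fluxC_pos h
  have hRpos : 0 < R := by linarith
  set B : ℝ := 1024 * CH * fluxC v R * r0 with hB
  have hBpos : 0 < B := by positivity
  set w : E3 → ℝ := fun y => 1 * (σ * v y + (-σ) * v (refl e y)) + (-1) * (B * (ip y e * (1 / ‖y‖ ^ 3 - 1 / R ^ 3)))
    with hw
  have hvr : ContDiff ℝ 2 (fun y => v (refl e y)) :=
    (h.smooth.of_le (by norm_num)).comp ((refl_contDiff e).of_le (by norm_cast))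
  have hv2 : ContDiff ℝ 2 v := h.smooth.of_le (by norm_num)
  have hne : ∀ x : E3, 4 * r0 ≤ ‖x‖ → x ≠ 0 := by
    intro x hx h0
    rw [h0, norm_zero] at hx
    linarith
  have hdip : ∀ x : E3, 4 * r0 ≤ ‖x‖ → ContDiffAt ℝ 2 (fun y : E3 => B * (ip y e * (1 / ‖y‖ ^ 3 - 1 / R ^ 3))) x ∧
      lap0 (fun y : E3 => B * (ip y e * (1 / ‖y‖ ^ 3 - 1 / R ^ 3))) x = 0 := fun x hx => lap0_dip e (hne x hx) B (1 / R ^ 3)
  have hu2 : ContDiff ℝ 2 (fun y => σ * v y + (-σ) * v (refl e y)) :=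
    (contDiff_const.mul hv2).add (contDiff_const.mul hvr)
  have hwc : ∀ x : E3, 4 * r0 ≤ ‖x‖ → ContDiffAt ℝ 2 w x := fun x hx =>
    (contDiffAt_const.mul hu2.contDiffAt).add (contDiffAt_const.mul (hdip x hx).1)
  have key := max_half (r1 := 4 * r0) (r2 := R) e (w := w)
    (fun x hx => (hwc x hx.1).continuousAt.continuousWithinAt)
    (fun x hx => (hwc x hx.1.le).contDiffWithinAt)
    (by
      intro x h1 h2 _
      have e1 : lap0 w x = 1 * lap0 (fun y => σ * v y + (-σ) * v (refl e y)) x +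
          (-1) * lap0 (fun y : E3 => B * (ip y e * (1 / ‖y‖ ^ 3 - 1 / R ^ 3))) x :=
        lap0_add hu2.contDiffAt (hdip x h1.le).1 1 (-1)
      have e2 : lap0 (fun y => σ * v y + (-σ) * v (refl e y)) x = σ * lap0 v x + (-σ) * lap0 (fun y => v (refl e y)) x :=
        lap0_add hv2.contDiffAt hvr.contDiffAt σ (-σ)
      have e3 : lap0 v x = 0 := h.harm x (by linarith) h2
      have e4 : lap0 (fun y => v (refl e y)) x = 0 := by
        rw [lap0_refl hv2 he]
        have hn := (refl_prop he x).1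
        exact h.harm _ (by rw [hn]; linarith) (by rw [hn]; exact h2)
      rw [e1, e2, e3, e4, (hdip x h1.le).2]
      norm_num)
    (by
      intro x hx hxe
      have h1 := refl_inner h he hx hxe
      have h2 : σ * v x + (-σ) * v (refl e x) ≤ |v x - v (refl e x)| := by
        rcases hσ with rfl | rfl
        · have := le_abs_self (v x - v (refl e x)); linarith
        · have := neg_abs_le (v x - v (refl e x)); linarith
      have h3 : 14 * CH * fluxC v R / r0 ^ 2 * ip x e ≤ B * (ip x e * (1 / ‖x‖ ^ 3 - 1 / R ^ 3)) := by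
        rw [hx]
        have h4 : 1 / R ^ 3 ≤ 1 / (8 * r0) ^ 3 := by
          apply one_div_le_one_div_of_le (by positivity)
          exact pow_le_pow_left₀ (by positivity) hR 3
        have h5 : (7:ℝ) / 512 / r0 ^ 3 ≤ 1 / (4 * r0) ^ 3 - 1 / R ^ 3 := by
          have h6 : (7:ℝ) / 512 / r0 ^ 3 = 1 / (4 * r0) ^ 3 - 1 / (8 * r0) ^ 3 := by
            field_simp
            norm_num
          linarith
        calc 14 * CH * fluxC v R / r0 ^ 2 * ip x e = B * (ip x e * ((7:ℝ) / 512 / r0 ^ 3)) := by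
              rw [hB]; field_simp; ring
          _ ≤ _ := by
              apply mul_le_mul_of_nonneg_left _ hBpos.le
              exact mul_le_mul_of_nonneg_left h5 hxe
      show 1 * (σ * v x + (-σ) * v (refl e x)) + (-1) * (B * (ip x e * (1 / ‖x‖ ^ 3 - 1 / R ^ 3))) ≤ 0
      linarith)
    (by
      intro x hx _
      have h1 := h.zero x hx
      have h2 := h.zero (refl e x) (by rw [(refl_prop he x).1]; exact hx)
      show 1 * (σ * v x + (-σ) * v (refl e x)) + (-1) * (B * (ip x e * (1 / ‖x‖ ^ 3 - 1 / R ^ 3))) ≤ 0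
      rw [h1, h2, hx]
      simp)
    (by
      intro x _ _ hxe
      have h1 : refl e x = x := by
        unfold refl
        rw [hxe]
        simp
      show 1 * (σ * v x + (-σ) * v (refl e x)) + (-1) * (B * (ip x e * (1 / ‖x‖ ^ 3 - 1 / R ^ 3))) ≤ 0
      rw [h1, hxe]
      simp)
  intro x h1 h2 hxe
  have h3 : 1 * (σ * v x + (-σ) * v (refl e x)) + (-1) * (B * (ip x e * (1 / ‖x‖ ^ 3 - 1 / R ^ 3))) ≤ 0 := key x h1 h2 hxe
  linarith

/-- CHUNK D4 (M).
PROOF. `max_half` on `4 r0 <= |x| <= R` for `w = +-(v x - v (refl e x)) - B ip x e (1/|x|^3 - 1/R^3)`, `B = 1024 CH C r0`. All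
terms are harmonic in the open half annulus (`lap0_refl` with `|refl e x| = |x|`, `lap0_dip`, `lap0_add`). Boundary: on `|x| = 4 r0`
by `refl_inner`, since `1/(4 r0)^3 - 1/R^3 >= (7/8)/(64 r0^3)` (`R >= 8 r0`) and `1024 * 7/(8 * 64) = 14`; on `|x| = R` both values of
`v` are `0` and the barrier is `0`; on `ip x e = 0` we have `refl e x = x`. -/
theorem refl_far (h : FlatV v r0 R) {e x : E3} (he : ‖e‖ = 1) (h1 : 4 * r0 ≤ ‖x‖) (h2 : ‖x‖ ≤ R) (hxe : 0 ≤ ip x e) :
    |v x - v (refl e x)| ≤ 1024 * CH * fluxC v R * r0 * (ip x e * (1 / ‖x‖ ^ 3 - 1 / R ^ 3)) := by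
  have a := d4_sign h he 1 (Or.inl rfl) x h1 h2 hxe
  have b := d4_sign h he (-1) (Or.inr rfl) x h1 h2 hxe
  rw [abs_le]
  constructor <;> linarith

end UMB.Far
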