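import Pool.Agent.Lib.UMB.Far.D4

set_option autoImplicit false

/-! # UMB.Far, chunk D5: oscillation on spheres, expansion, (FAR2) -/

open Filter Topology Set MeasureTheory
open scoped ContDiff

namespace UMB.Far

open Pool.Agent.Lib.PenroseSph (E3 S2 pd avg sm avg_const norm_ray integrable_S2 sm_univ norm_S2)

variable {v : E3 → ℝ} {r0 R : ℝ}

theorem d5_rhs_nonneg (h : FlatV v r0 R) {t : ℝ} (h1 : 4 * r0 ≤ t) (h2 : t ≤ R) :
    0 ≤ 1024 * CH * fluxC v R * r0 * (t * (1 / t ^ 3 - 1 / R ^ 3)) := by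
  have hr0 := h.r0_pos
  have hCH := d3_CH
  have hC := fluxC_pos h
  have ht : 0 < t := by linarith
  have : 0 ≤ 1 / t ^ 3 - 1 / R ^ 3 := by
    rw [sub_nonneg]
    exact one_div_le_one_div_of_le (by positivity) (pow_le_pow_left₀ ht.le h2 3)
  positivity

/-- CHUNK D5 (S), first statement: oscillation.
PROOF. `exists_refl` (if `x = y` trivial: the right side is nonnegative because `|x| <= R`), `refl_far`,
`0 <= ip x e = |x - y|/2 <= |x|`. -/
theorem osc (h : FlatV v r0 R) {x y : E3} (hxy : ‖x‖ = ‖y‖) (h1 : 4 * r0 ≤ ‖x‖) (h2 : ‖x‖ ≤ R) :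
    |v x - v y| ≤ 1024 * CH * fluxC v R * r0 * (‖x‖ * (1 / ‖x‖ ^ 3 - 1 / R ^ 3)) := by
  have hr0 := h.r0_pos
  have hCH := d3_CH
  have hC := fluxC_pos h
  by_cases hne : x = y
  · rw [hne, sub_self, abs_zero, ← hxy]
    exact d5_rhs_nonneg h h1 h2
  obtain ⟨e, he, hex, hip⟩ := exists_refl hxy hne
  have hip0 : 0 ≤ ip x e := by rw [hip]; positivity
  have h3 := refl_far h he h1 h2 hip0
  rw [hex] at h3
  refine h3.trans ?_
  have hx0 : 0 < ‖x‖ := by linarith
  have h4 : 0 ≤ 1 / ‖x‖ ^ 3 - 1 / R ^ 3 := by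
    rw [sub_nonneg]
    exact one_div_le_one_div_of_le (by positivity) (pow_le_pow_left₀ hx0.le h2 3)
  have h5 : ip x e ≤ ‖x‖ := by
    rw [hip]
    have := norm_sub_le x y
    rw [← hxy] at this
    linarith
  apply mul_le_mul_of_nonneg_left _ (by positivity)
  exact mul_le_mul_of_nonneg_right h5 h4

/-- CHUNK D5 (S), second statement: expansion.
PROOF. `C (1/|x| - 1/R) = avg v |x|` (`avg_eq`), and `|v x - avg v |x|| <= sup_y |v x - v y|` over `|y| = |x|` (average of the
constant `v x`: `avg_const`; points `|x| n`, `n` in the unit sphere). -/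
theorem expand (h : FlatV v r0 R) {x : E3} (h1 : 4 * r0 ≤ ‖x‖) (h2 : ‖x‖ ≤ R) :
    |v x - fluxC v R * (1 / ‖x‖ - 1 / R)| ≤ 1024 * CH * fluxC v R * r0 * (‖x‖ * (1 / ‖x‖ ^ 3 - 1 / R ^ 3)) := by
  have hr0 := h.r0_pos
  have hx0 : 0 < ‖x‖ := by linarith
  set K := 1024 * CH * fluxC v R * r0 * (‖x‖ * (1 / ‖x‖ ^ 3 - 1 / R ^ 3)) with hK
  rw [← avg_eq h (by linarith : r0 ≤ ‖x‖) h2]
  have hc : Continuous (fun n : S2 => v (‖x‖ • (n : E3))) := h.smooth.continuous.comp (by fun_prop)
  have e1 : v x - avg v ‖x‖ = (4 * Real.pi)⁻¹ * ∫ n : S2, (v x - v (‖x‖ • (n : E3))) ∂sm := by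
    have h3 := avg_const (v x) ‖x‖
    unfold avg at h3 ⊢
    rw [integral_sub (integrable_const _) (integrable_S2 hc), mul_sub, h3]
  rw [e1, abs_mul, abs_of_pos (by positivity)]
  have h4 : |∫ n : S2, (v x - v (‖x‖ • (n : E3))) ∂sm| ≤ K * (4 * Real.pi) := by
    have h5 := norm_integral_le_of_norm_le_const (μ := sm) (f := fun n : S2 => v x - v (‖x‖ • (n : E3))) (C := K)
      (Eventually.of_forall fun n => by
        rw [Real.norm_eq_abs]
        exact osc h (by rw [norm_ray hx0]) h1 h2)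
    rw [Real.norm_eq_abs, sm_univ] at h5
    exact h5
  calc (4 * Real.pi)⁻¹ * |∫ n : S2, (v x - v (‖x‖ • (n : E3))) ∂sm| ≤ (4 * Real.pi)⁻¹ * (K * (4 * Real.pi)) :=
        mul_le_mul_of_nonneg_left h4 (by positivity)
    _ = K := by
        have := Real.pi_pos
        field_simp

/-- CHUNK D5 (M), third statement: (FAR2).
PROOF. `phi s = v (s x/R) - C (1/s - 1/R)` has derivative `dr v x + C/R^2` at `s = R` and `phi R = 0`; by `expand`
`|phi s| <= B (s^-2 - s/R^3)` for `4 r0 <= s <= R`, `B = 1024 CH C r0`; the right side vanishes at `R` and has derivative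
`-3 B/R^3` there. Pass to the limit in the difference quotients (from the left). -/
theorem far2 (h : FlatV v r0 R) {x : E3} (hx : ‖x‖ = R) :
    |dr v x + fluxC v R / R ^ 2| ≤ 3072 * CH * fluxC v R * r0 / R ^ 3 := by
  have hr0 := h.r0_pos
  have hR := h.r0_lt
  have hRpos : 0 < R := by linarith
  have hCH := d3_CH
  have hC := fluxC_pos h
  set C := fluxC v R with hCdef
  set B : ℝ := 1024 * CH * C * r0 with hB
  set n : E3 := R⁻¹ • x with hn
  have hnn : ‖n‖ = 1 := by rw [hn, norm_smul, hx, norm_inv, Real.norm_of_nonneg hRpos.le]; field_simp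
  have hRn : R • n = x := by rw [hn, smul_smul, mul_inv_cancel₀ hRpos.ne', one_smul]
  have hdiff : Differentiable ℝ v := h.smooth.differentiable (by norm_num)
  -- derivative of phi
  have h1 : HasDerivAt (fun s : ℝ => v (s • n)) (dr v x) R := by
    have h2 := Pool.Agent.Lib.PenroseSph.hasDerivAt_ray (F := v) (n := n) (t := R) (hdiff _)
    refine h2.congr_deriv ?_
    unfold dr
    rw [hRn]
    refine Finset.sum_congr rfl fun m _ => ?_
    rw [hx]
    have : n m = x m / R := by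
      rw [hn]
      simp
      field_simp
    rw [this]
  have h3 : HasDerivAt (fun s : ℝ => C * (1 / s - 1 / R)) (-(C / R ^ 2)) R := by
    have h4 := ((hasDerivAt_inv hRpos.ne').sub_const (1 / R)).const_mul C
    have e : (fun s : ℝ => C * (1 / s - 1 / R)) = fun s : ℝ => C * (s⁻¹ - 1 / R) := by
      funext s; rw [one_div s]
    rw [e]
    refine h4.congr_deriv ?_
    field_simp
  have h5 : HasDerivAt (fun s : ℝ => v (s • n) - C * (1 / s - 1 / R)) (dr v x + C / R ^ 2) R := by
    refine (h1.sub h3).congr_deriv ?_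
    ring
  have h6 : HasDerivAt (fun s : ℝ => B * (s * (1 / s ^ 3 - 1 / R ^ 3))) (-(3 * B / R ^ 3)) R := by
    have hinv3 : HasDerivAt (fun s : ℝ => 1 / s ^ 3) (-(3 * R ^ 2) / (R ^ 3) ^ 2) R := by
      have h7 := (hasDerivAt_pow 3 R).inv (by positivity)
      simp only [one_div]
      refine h7.congr_deriv ?_
      norm_num
    have h8 := ((hasDerivAt_id R).mul (hinv3.sub_const (1 / R ^ 3))).const_mul B
    refine h8.congr_deriv ?_
    simp only [id]
    field_simp
    ring
  -- one sided limits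
  have key : ∀ σ : ℝ, σ = 1 ∨ σ = -1 → σ * (dr v x + C / R ^ 2) ≤ 3 * B / R ^ 3 := by
    intro σ hσ
    have hd : HasDerivAt (fun s : ℝ => B * (s * (1 / s ^ 3 - 1 / R ^ 3)) + σ * (v (s • n) - C * (1 / s - 1 / R)))
        (-(3 * B / R ^ 3) + σ * (dr v x + C / R ^ 2)) R := h6.add (h5.const_mul σ)
    have hv0 : v (R • n) = 0 := by rw [hRn]; exact h.zero x hx
    have hzero : B * (R * (1 / R ^ 3 - 1 / R ^ 3)) + σ * (v (R • n) - C * (1 / R - 1 / R)) = 0 := by
      rw [hv0]; simp
    have hpos : ∀ s ∈ Ioo (4 * r0) R,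
        0 ≤ B * (s * (1 / s ^ 3 - 1 / R ^ 3)) + σ * (v (s • n) - C * (1 / s - 1 / R)) := by
      intro s hs
      have hs0 : 0 < s := by linarith [hs.1]
      have hsn : ‖s • n‖ = s := by rw [norm_smul, hnn, mul_one, Real.norm_of_nonneg hs0.le]
      have h9 := expand h (x := s • n) (by rw [hsn]; exact hs.1.le) (by rw [hsn]; exact hs.2.le)
      rw [hsn] at h9
      rw [abs_le] at h9
      rcases hσ with rfl | rfl
      · linarith [h9.1]
      · linarith [h9.2]
    -- the derivative is nonpositive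
    have hle : -(3 * B / R ^ 3) + σ * (dr v x + C / R ^ 2) ≤ 0 := by
      by_contra hcon
      push Not at hcon
      have h10 := hd.hasDerivWithinAt (s := Iio R)
      have hslope := (hasDerivWithinAt_iff_tendsto_slope' (by simp)).1 h10
      have hev : ∀ᶠ s in 𝓝[<] R, (0:ℝ) < slope (fun s : ℝ => B * (s * (1 / s ^ 3 - 1 / R ^ 3)) +
          σ * (v (s • n) - C * (1 / s - 1 / R))) R s := hslope.eventually (lt_mem_nhds hcon)
      have hev2 : ∀ᶠ s in 𝓝[<] R, s ∈ Ioo (4 * r0) R := Ioo_mem_nhdsLT (by linarith)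
      obtain ⟨s, hs1, hs2⟩ := (hev.and hev2).exists
      rw [slope_def_field, hzero, sub_zero] at hs1
      have h11 := hpos s hs2
      have h12 : s - R < 0 := by linarith [hs2.2]
      have h13 := div_nonpos_of_nonneg_of_nonpos h11 h12.le
      linarith
    linarith
  have a := key 1 (Or.inl rfl)
  have b := key (-1) (Or.inr rfl)
  have e3 : 3 * B / R ^ 3 = 3072 * CH * C * r0 / R ^ 3 := by rw [hB]; ring
  rw [e3] at a b
  rw [abs_le]
  constructor <;> linarith

end UMB.Far
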