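import Pool.Agent.Lib.UMB.Defs
import Pool.Agent.Lib.UMB.S1.Defs
import Pool.Agent.Lib.PenroseSph.SphFlux

set_option autoImplicit false

/-!
# UMB, far zone and end value: definitions

In the far zone the function `v` solves `G^ij v_ij + b^i v_i = 0` with `G` near the flat metric, it is exactly flat harmonic for
`2 R1 ≤ |x|`, and `v = 0` on `|x| = R`. `u = v + κ`, `κ = C/R`, `θ = log (c/u)`. Paper proof: `FAR.md` in this folder.
-/

open Filter Topology Set MeasureTheory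
open scoped ContDiff

namespace UMB.Far

open Pool.Agent.Lib.PenroseSph (E3 S2 Tens pd trg meanCurv gradNorm normal avg sm chr)

/-- The flat Laplacian. -/
noncomputable def lap0 (w : E3 → ℝ) (x : E3) : ℝ := ∑ i, pd i (pd i w) x

/-- The flat squared length of the gradient. -/
noncomputable def gr2 (w : E3 → ℝ) (x : E3) : ℝ := ∑ i, pd i w x ^ 2

/-- The flat squared length of the matrix of second derivatives. -/
noncomputable def he2 (w : E3 → ℝ) (x : E3) : ℝ := ∑ i, ∑ j, pd i (pd j w) x ^ 2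

/-- The radial derivative. -/
noncomputable def dr (w : E3 → ℝ) (x : E3) : ℝ := ∑ m, (x m / ‖x‖) * pd m w x

/-- The flux constant `C` of a function `v ~ C/|x|`: `C = - R² avg(∂_r v)(R)`. -/
noncomputable def fluxC (v : E3 → ℝ) (R : ℝ) : ℝ := -(R ^ 2 * avg (dr v) R)

/-- The flat inner product. -/
noncomputable def ip (x y : E3) : ℝ := ∑ i, x i * y i

/-- The reflection in the plane orthogonal to the unit vector `e`. -/
noncomputable def refl (e x : E3) : E3 := x - (2 * ip x e) • e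

/-- The function `θ = log (c/(v+κ))`. -/
noncomputable def tht (c κ : ℝ) (v : E3 → ℝ) (x : E3) : ℝ := Real.log (c / (v x + κ))

/-- The Harnack constant. -/
noncomputable def CH : ℝ := Real.exp 200

/-- `v` is flat harmonic in `r0 < |x| < R`, positive there and zero on `|x| = R` (`v` is a globally defined `C³` function). -/
structure FlatV (v : E3 → ℝ) (r0 R : ℝ) : Prop where
  smooth : ContDiff ℝ 3 v
  r0_pos : 0 < r0
  r0_lt : 8 * r0 ≤ R
  harm : ∀ x : E3, r0 < ‖x‖ → ‖x‖ < R → lap0 v x = 0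
  pos : ∀ x : E3, r0 < ‖x‖ → ‖x‖ < R → 0 < v x
  zero : ∀ x : E3, ‖x‖ = R → v x = 0

/-- Decay of the metric: `|g - δ| ≤ Cg/|x|`, `|∂g| ≤ Cg/|x|²` for `1 ≤ |x|`. -/
def Dec (g : Tens) (Cg : ℝ) : Prop := ∀ x : E3, 1 ≤ ‖x‖ → ∀ i j k,
  |g x i j - (1 : Matrix (Fin 3) (Fin 3) ℝ) i j| ≤ Cg / ‖x‖ ∧ |pd k (fun y => g y i j) x| ≤ Cg / ‖x‖ ^ 2

/-- Decay of `k`. -/
def Deck (k : Tens) (K : ℝ) : Prop := ∀ x : E3, 1 ≤ ‖x‖ → ∀ i j, |k x i j| ≤ K / ‖x‖ ^ 2

/-- The coefficients of the equation in the far zone `R1/2 < |x| < R`: `G` near `g⁻¹`, small drift. -/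
structure Coef (g G : Tens) (b : E3 → Fin 3 → ℝ) (B R1 R : ℝ) : Prop where
  B_pos : 0 < B
  symm : ∀ x : E3, R1 / 2 < ‖x‖ → ‖x‖ < R → (G x).IsSymm
  near : ∀ x : E3, R1 / 2 < ‖x‖ → ‖x‖ < R → ∀ i j, |G x i j - (g x)⁻¹ i j| ≤ B / ‖x‖
  drift : ∀ x : E3, R1 / 2 < ‖x‖ → ‖x‖ < R → ∀ i, |b x i| ≤ B / ‖x‖ ^ 2

/-- The solution in the far zone. -/
structure FarV (g G : Tens) (b : E3 → Fin 3 → ℝ) (v : E3 → ℝ) (B R1 R : ℝ) : Prop where
  coef : Coef g G b B R1 R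
  flat : FlatV v (2 * R1) R
  pos : ∀ x : E3, R1 / 2 < ‖x‖ → ‖x‖ < R → 0 < v x
  eq : ∀ x : E3, R1 / 2 < ‖x‖ → ‖x‖ < R →
    ∑ i, ∑ j, G x i j * pd i (pd j v) x + ∑ i, b x i * pd i v x = 0
  min : ∀ x : E3, R1 / 2 ≤ ‖x‖ → ‖x‖ ≤ 4 * R1 → ∃ z : E3, ‖z‖ = 4 * R1 ∧ v z ≤ v x

/-- The error `e = G^ij Mh_ij` of the equation, `Mh = Hess θ + 2 dθ dθ - |dθ|² g - |dθ| k` (lower indices). -/
noncomputable def eG (g k G : Tens) (θ : E3 → ℝ) (x : E3) : ℝ :=
  ∑ i, ∑ j, G x i j * (hess g θ i j x + 2 * pd i θ x * pd j θ x - gsq g θ x * g x i j - yreg g θ 0 x * k x i j)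

/-- The `g`-area density of the coordinate sphere through `x` (with respect to the flat one). -/
noncomputable def areaD (g : Tens) (x : E3) : ℝ := vol g x * gradNorm g (fun y => ‖y‖) x

/-- `∫_{S_r} (Y² - Y (H - P)) dA`. -/
noncomputable def sphQ (g k : Tens) (Y : E3 → ℝ) (r : ℝ) : ℝ :=
  ∫ n : S2, r ^ 2 * (areaD g (r • (n : E3)) * (Y (r • (n : E3)) ^ 2 -
    Y (r • (n : E3)) * (meanCurv g (fun y => ‖y‖) (r • (n : E3)) - sphTr g k (r • (n : E3))))) ∂sm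

end UMB.Far
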