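import Pool.Agent.Lib.UMB.Far.Defs

set_option autoImplicit false

/-! # UMB.Far, chunk H1: the inverse of a matrix near the unit matrix -/

namespace UMB.Far

theorem h1_mul2 {a b ε : ℝ} (ha : |a| ≤ ε) (hb : |b| ≤ ε) : |a * b| ≤ ε ^ 2 := by
  have h0 : 0 ≤ ε := (abs_nonneg a).trans ha
  rw [abs_mul, sq]
  exact mul_le_mul ha hb (abs_nonneg _) h0

theorem h1_mul3 {a b c ε : ℝ} (ha : |a| ≤ ε) (hb : |b| ≤ ε) (hc : |c| ≤ ε) : |a * b * c| ≤ ε ^ 3 := by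
  have h0 : 0 ≤ ε := (abs_nonneg a).trans ha
  have h1 := h1_mul2 ha hb
  rw [abs_mul]
  calc |a * b| * |c| ≤ ε ^ 2 * ε := mul_le_mul h1 hc (abs_nonneg _) (sq_nonneg _)
    _ = ε ^ 3 := by ring

theorem h1_det {A : Matrix (Fin 3) (Fin 3) ℝ} {ε : ℝ}
    (hA : ∀ i j, |A i j - (1 : Matrix (Fin 3) (Fin 3) ℝ) i j| ≤ ε) :
    |A.det - (1 + ∑ i, (A i i - 1))| ≤ 6 * ε ^ 2 + 6 * ε ^ 3 := by
  have e00 := hA 0 0
  have e01 := hA 0 1
  have e02 := hA 0 2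
  have e10 := hA 1 0
  have e11 := hA 1 1
  have e12 := hA 1 2
  have e20 := hA 2 0
  have e21 := hA 2 1
  have e22 := hA 2 2
  simp only [Matrix.one_apply, Fin.isValue, reduceIte, Fin.reduceEq, sub_zero] at e00 e01 e02 e10 e11 e12 e20 e21 e22
  rw [Matrix.det_fin_three, Fin.sum_univ_three]
  obtain ⟨a, ha⟩ : ∃ a, a = A 0 0 - 1 := ⟨_, rfl⟩
  obtain ⟨b, hb⟩ : ∃ b, b = A 1 1 - 1 := ⟨_, rfl⟩
  obtain ⟨c, hc⟩ : ∃ c, c = A 2 2 - 1 := ⟨_, rfl⟩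
  rw [← ha] at e00
  rw [← hb] at e11
  rw [← hc] at e22
  have a' : A 0 0 = 1 + a := by rw [ha]; ring
  have b' : A 1 1 = 1 + b := by rw [hb]; ring
  have c' : A 2 2 = 1 + c := by rw [hc]; ring
  rw [a', b', c']
  have t1 := h1_mul2 e00 e11
  have t2 := h1_mul2 e00 e22
  have t3 := h1_mul2 e11 e22
  have t4 := h1_mul2 e01 e10
  have t5 := h1_mul2 e02 e20
  have t6 := h1_mul2 e12 e21
  have s1 := h1_mul3 e00 e11 e22
  have s2 := h1_mul3 e00 e12 e21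
  have s3 := h1_mul3 e01 e10 e22
  have s4 := h1_mul3 e01 e12 e20
  have s5 := h1_mul3 e02 e10 e21
  have s6 := h1_mul3 e02 e11 e20
  rw [abs_le] at *
  constructor <;> nlinarith only [t1, t2, t3, t4, t5, t6, s1, s2, s3, s4, s5, s6]

theorem h1_nonneg {A : Matrix (Fin 3) (Fin 3) ℝ} {ε : ℝ}
    (hA : ∀ i j, |A i j - (1 : Matrix (Fin 3) (Fin 3) ℝ) i j| ≤ ε) : 0 ≤ ε :=
  (abs_nonneg _).trans (hA 0 0)

theorem h1_tr {A : Matrix (Fin 3) (Fin 3) ℝ} {ε : ℝ}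
    (hA : ∀ i j, |A i j - (1 : Matrix (Fin 3) (Fin 3) ℝ) i j| ≤ ε) : |∑ i, (A i i - 1)| ≤ 3 * ε := by
  have e00 := hA 0 0
  have e11 := hA 1 1
  have e22 := hA 2 2
  simp only [Matrix.one_apply, Fin.isValue, reduceIte] at e00 e11 e22
  rw [Fin.sum_univ_three]
  rw [abs_le] at *
  constructor <;> linarith only [e00, e11, e22]

theorem h1_det1 {A : Matrix (Fin 3) (Fin 3) ℝ} {ε : ℝ} (hε : ε ≤ 1 / 100)
    (hA : ∀ i j, |A i j - (1 : Matrix (Fin 3) (Fin 3) ℝ) i j| ≤ ε) : |A.det - 1| ≤ 4 * ε := by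
  have h0 := h1_nonneg hA
  have h1 := h1_det hA
  have h2 := h1_tr hA
  have h3 : 6 * ε ^ 2 + 6 * ε ^ 3 ≤ ε := by
    have h4 : ε ^ 2 ≤ ε * (1 / 100) := by nlinarith
    have h5 : ε ^ 3 ≤ ε * (1 / 10000) := by nlinarith
    linarith
  rw [abs_le] at *
  constructor <;> linarith only [h1, h2, h3]

theorem h1_sum {a b : Fin 3 → ℝ} {M ε : ℝ} (ha : ∀ k, |a k| ≤ M) (hb : ∀ k, |b k| ≤ ε) :
    |∑ k, a k * b k| ≤ 3 * (M * ε) := by
  have hM : 0 ≤ M := (abs_nonneg _).trans (ha 0)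
  calc |∑ k, a k * b k| ≤ ∑ k, |a k * b k| := Finset.abs_sum_le_sum_abs _ _
    _ ≤ ∑ _k : Fin 3, M * ε := Finset.sum_le_sum fun k _ => by
        rw [abs_mul]
        exact mul_le_mul (ha k) (hb k) (abs_nonneg _) hM
    _ = 3 * (M * ε) := by rw [Fin.sum_univ_three]; ring

theorem h1_eq {A G : Matrix (Fin 3) (Fin 3) ℝ} (hG : G * A = 1) (i j : Fin 3) :
    (1 : Matrix (Fin 3) (Fin 3) ℝ) i j - G i j = ∑ k, G i k * (A k j - (1 : Matrix (Fin 3) (Fin 3) ℝ) k j) := by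
  have h1 : G * (A - 1) = 1 - G := by rw [mul_sub, hG, mul_one]
  have h2 := congrFun (congrFun h1 i) j
  rw [Matrix.mul_apply] at h2
  exact h2.symm

/-- CHUNK H1 (M). The inverse of a matrix near `1`.
PROOF. `h := A - 1`, entries `<= ε <= 1/100`. `A` is invertible: `det A` is near `1` (`Matrix.det_fin_three`; `|det A - 1| <= 4 ε < 1`).
`G := A⁻¹`, `G A = 1`, so `G = 1 - G h` and `G = 1 - h + G h h`. With `m = max |G_ij|`: `m <= 1 + 3 m ε`, so `m <= 11/10`;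
`|(G h h)_ij| <= 9 m ε^2 <= 10 ε^2`. (`2 * 1 - A = 1 - h`.) -/
theorem inv_approx {A : Matrix (Fin 3) (Fin 3) ℝ} {ε : ℝ} (hε : ε ≤ 1 / 100)
    (hA : ∀ i j, |A i j - (1 : Matrix (Fin 3) (Fin 3) ℝ) i j| ≤ ε) :
    IsUnit A.det ∧ ∀ i j, |A⁻¹ i j - (2 * (1 : Matrix (Fin 3) (Fin 3) ℝ) i j - A i j)| ≤ 10 * ε ^ 2 := by
  have h0 := h1_nonneg hA
  have hd := h1_det1 hε hA
  have hu : IsUnit A.det := by
    rw [isUnit_iff_ne_zero]
    intro h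
    rw [h, zero_sub, abs_neg, abs_one] at hd
    linarith
  refine ⟨hu, ?_⟩
  have hG : A⁻¹ * A = 1 := Matrix.nonsing_inv_mul A hu
  obtain ⟨G, hGd⟩ : ∃ G, G = A⁻¹ := ⟨_, rfl⟩
  rw [← hGd] at hG ⊢
  obtain ⟨p0, hp0⟩ := Finite.exists_max (fun p : Fin 3 × Fin 3 => |G p.1 p.2|)
  obtain ⟨m, hm⟩ : ∃ m, m = |G p0.1 p0.2| := ⟨_, rfl⟩
  have hGm : ∀ i j, |G i j| ≤ m := fun i j => by rw [hm]; exact hp0 (i, j)
  have hm0 : 0 ≤ m := by rw [hm]; exact abs_nonneg _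
  have hone : ∀ i j : Fin 3, |(1 : Matrix (Fin 3) (Fin 3) ℝ) i j| ≤ 1 := by
    intro i j
    rw [Matrix.one_apply]
    split_ifs
    · rw [abs_one]
    · rw [abs_zero]; norm_num
  have hb : ∀ i j, |(1 : Matrix (Fin 3) (Fin 3) ℝ) i j - G i j| ≤ 3 * (m * ε) := by
    intro i j
    rw [h1_eq hG]
    exact h1_sum (fun k => hGm i k) (fun k => hA k j)
  have hm1 : m ≤ 11 / 10 := by
    have h1 := hb p0.1 p0.2
    have h2 := hone p0.1 p0.2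
    have h3 : m ≤ 1 + 3 * (m * ε) := by
      rw [hm] at h1 ⊢
      have h4 : |G p0.1 p0.2| ≤ |(1 : Matrix (Fin 3) (Fin 3) ℝ) p0.1 p0.2| +
          |(1 : Matrix (Fin 3) (Fin 3) ℝ) p0.1 p0.2 - G p0.1 p0.2| := by
        have h5 : G p0.1 p0.2 = (1 : Matrix (Fin 3) (Fin 3) ℝ) p0.1 p0.2 -
          ((1 : Matrix (Fin 3) (Fin 3) ℝ) p0.1 p0.2 - G p0.1 p0.2) := by ring
        calc |G p0.1 p0.2| = _ := congrArg abs h5
          _ ≤ _ := abs_sub _ _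
      linarith
    have h4 : m * ε ≤ m * (1 / 100) := mul_le_mul_of_nonneg_left hε hm0
    linarith
  intro i j
  have e1 : G i j - (2 * (1 : Matrix (Fin 3) (Fin 3) ℝ) i j - A i j) =
      ∑ k, ((1 : Matrix (Fin 3) (Fin 3) ℝ) i k - G i k) * (A k j - (1 : Matrix (Fin 3) (Fin 3) ℝ) k j) := by
    have h1 := h1_eq hG i j
    have h2 : ∑ k, ((1 : Matrix (Fin 3) (Fin 3) ℝ) i k - G i k) * (A k j - (1 : Matrix (Fin 3) (Fin 3) ℝ) k j) =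
        ∑ k, (1 : Matrix (Fin 3) (Fin 3) ℝ) i k * (A k j - (1 : Matrix (Fin 3) (Fin 3) ℝ) k j) -
        ∑ k, G i k * (A k j - (1 : Matrix (Fin 3) (Fin 3) ℝ) k j) := by
      rw [← Finset.sum_sub_distrib]
      exact Finset.sum_congr rfl fun k _ => by ring
    have h3 : ∑ k, (1 : Matrix (Fin 3) (Fin 3) ℝ) i k * (A k j - (1 : Matrix (Fin 3) (Fin 3) ℝ) k j) =
        A i j - (1 : Matrix (Fin 3) (Fin 3) ℝ) i j := by
      simp [Matrix.one_apply]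
    rw [h2, h3, ← h1]
    ring
  rw [e1]
  refine (h1_sum (fun k => hb i k) (fun k => hA k j)).trans ?_
  have h5 : 0 ≤ ε ^ 2 := sq_nonneg _
  have h6 : 3 * (3 * (m * ε) * ε) = 9 * m * ε ^ 2 := by ring
  rw [h6]
  nlinarith

end UMB.Far
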