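import Pool.Agent.Lib.UMB.Far.H1

set_option autoImplicit false

/-! # UMB.Far, chunk H1b: square root of the determinant -/

namespace UMB.Far

/-- CHUNK H1b (S). `|√(1+t) - 1 - t/2| ≤ t²/2` for `|t| ≤ 1/2`.
PROOF. `√(1+t) - 1 - t/2 = - (√(1+t) - 1)²/2` and `|√(1+t) - 1| = |t|/(√(1+t) + 1) ≤ |t|`. -/
theorem sqrt_approx {t : ℝ} (ht : |t| ≤ 1 / 2) : |Real.sqrt (1 + t) - (1 + t / 2)| ≤ t ^ 2 / 2 := by
  obtain ⟨s, hs⟩ : ∃ s, s = Real.sqrt (1 + t) := ⟨_, rfl⟩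
  have h0 : 0 ≤ 1 + t := by
    have := (abs_le.1 ht).1
    linarith
  have h1 : s ^ 2 = 1 + t := by rw [hs]; exact Real.sq_sqrt h0
  have h2 : 0 ≤ s := by rw [hs]; exact Real.sqrt_nonneg _
  rw [← hs]
  have e : t = s ^ 2 - 1 := by linarith
  have h3 : s - (1 + t / 2) = -((s - 1) ^ 2 / 2) := by rw [e]; ring
  have h4 : (s - 1) ^ 2 ≤ t ^ 2 := by
    have h5 : t ^ 2 = (s - 1) ^ 2 * (s + 1) ^ 2 := by rw [e]; ring
    have h6 : 1 ≤ (s + 1) ^ 2 := by nlinarith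
    rw [h5]
    nlinarith [sq_nonneg (s - 1)]
  rw [h3, abs_neg, abs_of_nonneg (by positivity)]
  linarith

/-- CHUNK H1b, second statement (M). The square root of the determinant.
PROOF. `Matrix.det_fin_three`: `det A = 1 + tr h + (sum of 6 products of two entries) + (6 products of three entries)`, so
`|det A - 1 - tr h| <= 6 ε^2 + 6 ε^3 <= 7 ε^2`; `t = det A - 1`, `|t| <= 4 ε`; `sqrt_approx`: total `<= 8 ε^2 + 3.5 ε^2`. -/
theorem sqrt_det_approx {A : Matrix (Fin 3) (Fin 3) ℝ} {ε : ℝ} (hε : ε ≤ 1 / 100)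
    (hA : ∀ i j, |A i j - (1 : Matrix (Fin 3) (Fin 3) ℝ) i j| ≤ ε) :
    |Real.sqrt A.det - (1 + (∑ i, (A i i - 1)) / 2)| ≤ 20 * ε ^ 2 := by
  have h0 := h1_nonneg hA
  have h1 := h1_det hA
  have h2 := h1_det1 hε hA
  have h3 : |A.det - 1| ≤ 1 / 2 := by linarith
  have h4 := sqrt_approx h3
  have e : 1 + (A.det - 1) = A.det := by ring
  rw [e] at h4
  have h5 : (A.det - 1) ^ 2 ≤ 16 * ε ^ 2 := by
    have h6 : (A.det - 1) ^ 2 = |A.det - 1| ^ 2 := (sq_abs _).symm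
    rw [h6]
    have h7 : |A.det - 1| ^ 2 ≤ (4 * ε) ^ 2 := pow_le_pow_left₀ (abs_nonneg _) h2 2
    linarith [h7, (by ring : (4 * ε) ^ 2 = 16 * ε ^ 2)]
  have h8 : 6 * ε ^ 2 + 6 * ε ^ 3 ≤ 7 * ε ^ 2 := by
    have h9 : ε ^ 3 ≤ ε ^ 2 * (1 / 100) := by
      have h10 : ε ^ 3 = ε ^ 2 * ε := by ring
      rw [h10]
      exact mul_le_mul_of_nonneg_left hε (sq_nonneg _)
    nlinarith [sq_nonneg ε]
  have h11 : 0 ≤ ε ^ 2 := sq_nonneg _
  rw [abs_le] at h1 h4 ⊢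
  constructor <;> linarith only [h1, h4, h5, h8, h11]

end UMB.Far
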