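import Pool.Agent.Lib.UMB.Far.H1b

set_option autoImplicit false

/-! # UMB.Far, chunk H2: the length of `d|x|` -/

open Filter Topology Set MeasureTheory
open scoped ContDiff

namespace UMB.Far

open Pool.Agent.Lib.PenroseSph (E3 Tens pd trg meanCurv gradNorm normal chr)

/-- `g` is near the flat metric at `x` (one point): `|g - δ| ≤ ε`, `|∂g| ≤ ε/|x|`. -/
structure Near (g : Tens) (ε : ℝ) (x : E3) : Prop where
  pos : 0 < ‖x‖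
  le : ε ≤ 1 / 1000
  g0 : ∀ i j, |g x i j - (1 : Matrix (Fin 3) (Fin 3) ℝ) i j| ≤ ε
  g1 : ∀ i j k, |pd k (fun y => g y i j) x| ≤ ε / ‖x‖
  symm : (g x).IsSymm

/-- `h(n, n)`, `h = g - δ`, `n = x/|x|`. -/
noncomputable def hN (g : Tens) (x : E3) : ℝ :=
  ∑ i, ∑ j, (g x i j - (1 : Matrix (Fin 3) (Fin 3) ℝ) i j) * (x i / ‖x‖) * (x j / ‖x‖)

/-- `tr h`. -/
noncomputable def hT (g : Tens) (x : E3) : ℝ := ∑ i, (g x i i - 1)

theorem h2_pd {x : E3} (hx : 0 < ‖x‖) (j : Fin 3) : pd j (fun y : E3 => ‖y‖) x = x j / ‖x‖ := by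
  have h := Pool.Agent.Lib.PenroseSph.pd_radial (F := fun t : ℝ => t) (norm_pos_iff.1 hx) differentiableAt_id j
  have h2 : deriv (fun t : ℝ => t) ‖x‖ = 1 := deriv_id _
  rw [h2, one_mul] at h
  exact h

theorem h2_unit {x : E3} (hx : 0 < ‖x‖) : ∑ i, (x i / ‖x‖) ^ 2 = 1 := by
  have h1 := EuclideanSpace.norm_sq_eq x
  have h2 : ∀ i, (x i / ‖x‖) ^ 2 = (x i) ^ 2 / ‖x‖ ^ 2 := fun i => div_pow _ _ _
  have h3 : ∀ i, ‖x i‖ ^ 2 = (x i) ^ 2 := fun i => by rw [Real.norm_eq_abs, sq_abs]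
  simp only [h3] at h1
  simp only [h2]
  rw [← Finset.sum_div, ← h1]
  exact div_self (by positivity)

theorem h2_one {n : Fin 3 → ℝ} (hn : ∑ i, n i ^ 2 = 1) (i : Fin 3) : |n i| ≤ 1 := by
  have h1 : n i ^ 2 ≤ 1 := by
    rw [← hn]
    exact Finset.single_le_sum (f := fun i => n i ^ 2) (fun j _ => sq_nonneg _) (Finset.mem_univ i)
  exact abs_le_one_iff_mul_self_le_one.2 (by rw [← sq]; exact h1)

theorem h2_l1 {n : Fin 3 → ℝ} (hn : ∑ i, n i ^ 2 = 1) : (∑ i, |n i|) ^ 2 ≤ 3 := by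
  rw [Fin.sum_univ_three] at hn ⊢
  rw [← sq_abs (n 0), ← sq_abs (n 1), ← sq_abs (n 2)] at hn
  nlinarith [sq_nonneg (|n 0| - |n 1|), sq_nonneg (|n 0| - |n 2|), sq_nonneg (|n 1| - |n 2|)]

theorem h2_l1' {n : Fin 3 → ℝ} (hn : ∑ i, n i ^ 2 = 1) : ∑ i, |n i| ≤ 7 / 4 := by
  have h1 := h2_l1 hn
  have h2 : 0 ≤ ∑ i, |n i| := Finset.sum_nonneg fun i _ => abs_nonneg _
  nlinarith

theorem h2_lin {a n : Fin 3 → ℝ} {c : ℝ} (hn : ∑ i, n i ^ 2 = 1) (ha : ∀ i, |a i| ≤ c) : |∑ i, a i * n i| ≤ 7 / 4 * c := by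
  have hc : 0 ≤ c := (abs_nonneg _).trans (ha 0)
  calc |∑ i, a i * n i| ≤ ∑ i, |a i * n i| := Finset.abs_sum_le_sum_abs _ _
    _ ≤ ∑ i, c * |n i| := Finset.sum_le_sum fun i _ => by
        rw [abs_mul]
        exact mul_le_mul_of_nonneg_right (ha i) (abs_nonneg _)
    _ = c * ∑ i, |n i| := by rw [Finset.mul_sum]
    _ ≤ c * (7 / 4) := mul_le_mul_of_nonneg_left (h2_l1' hn) hc
    _ = 7 / 4 * c := by ring

theorem h2_quad {M : Fin 3 → Fin 3 → ℝ} {n : Fin 3 → ℝ} {c : ℝ} (hn : ∑ i, n i ^ 2 = 1) (hM : ∀ i j, |M i j| ≤ c) :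
    |∑ i, ∑ j, M i j * n i * n j| ≤ 3 * c := by
  have hc : 0 ≤ c := (abs_nonneg _).trans (hM 0 0)
  calc |∑ i, ∑ j, M i j * n i * n j| ≤ ∑ i, |∑ j, M i j * n i * n j| := Finset.abs_sum_le_sum_abs _ _
    _ ≤ ∑ i, ∑ j, |M i j * n i * n j| := Finset.sum_le_sum fun i _ => Finset.abs_sum_le_sum_abs _ _
    _ ≤ ∑ i, ∑ j, c * (|n i| * |n j|) := Finset.sum_le_sum fun i _ => Finset.sum_le_sum fun j _ => by
        rw [abs_mul, abs_mul, mul_assoc]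
        exact mul_le_mul_of_nonneg_right (hM i j) (by positivity)
    _ = c * (∑ i, |n i|) ^ 2 := by
        simp only [Fin.sum_univ_three]
        ring
    _ ≤ c * 3 := mul_le_mul_of_nonneg_left (h2_l1 hn) hc
    _ = 3 * c := by ring

theorem h2_near {g : Tens} {ε : ℝ} {x : E3} (h : Near g ε x) : 0 ≤ ε := (abs_nonneg _).trans (h.g0 0 0)

theorem h2_inv {g : Tens} {ε : ℝ} {x : E3} (h : Near g ε x) (i j : Fin 3) :
    |(g x)⁻¹ i j - (2 * (1 : Matrix (Fin 3) (Fin 3) ℝ) i j - g x i j)| ≤ 10 * ε ^ 2 :=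
  (inv_approx (by have := h.le; linarith) h.g0).2 i j

theorem h2_hN {g : Tens} {ε : ℝ} {x : E3} (h : Near g ε x) : |hN g x| ≤ 3 * ε :=
  h2_quad (h2_unit h.pos) h.g0

theorem h2_hT {g : Tens} {ε : ℝ} {x : E3} (h : Near g ε x) : |hT g x| ≤ 3 * ε :=
  h1_tr h.g0

theorem h2_sq {g : Tens} {ε : ℝ} {x : E3} (h : Near g ε x) :
    |∑ i, ∑ j, (g x)⁻¹ i j * (x i / ‖x‖) * (x j / ‖x‖) - (1 - hN g x)| ≤ 30 * ε ^ 2 := by
  have hn := h2_unit h.pos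
  have e : ∑ i, ∑ j, (g x)⁻¹ i j * (x i / ‖x‖) * (x j / ‖x‖) - (1 - hN g x) =
      ∑ i, ∑ j, ((g x)⁻¹ i j - (2 * (1 : Matrix (Fin 3) (Fin 3) ℝ) i j - g x i j)) * (x i / ‖x‖) * (x j / ‖x‖) := by
    unfold hN
    have h1 : (1 : ℝ) = ∑ i, ∑ j, (1 : Matrix (Fin 3) (Fin 3) ℝ) i j * (x i / ‖x‖) * (x j / ‖x‖) := by
      rw [← hn]
      refine Finset.sum_congr rfl fun i _ => ?_
      simp [Matrix.one_apply, sq]
    conv_lhs => rw [h1]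
    rw [← Finset.sum_sub_distrib, ← Finset.sum_sub_distrib]
    refine Finset.sum_congr rfl fun i _ => ?_
    rw [← Finset.sum_sub_distrib, ← Finset.sum_sub_distrib]
    refine Finset.sum_congr rfl fun j _ => ?_
    ring
  rw [e]
  refine (h2_quad hn (fun i j => h2_inv h i j)).trans ?_
  linarith

/-- CHUNK H2 (M). `|d|x||_g = 1 - h(n,n)/2 + O(ε²)`.
PROOF. `pd i (fun y => ‖y‖) x = x i/‖x‖` (`PenroseSph.pd_radial` with `F = id`). `gradNorm^2 = sum G_ij n_i n_j`,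
`G = g⁻¹ = 1 - h + O(10 ε^2)` (`inv_approx`), `(sum |n_i|)^2 <= 3`: `|N^2 - (1 - hN)| <= 30 ε^2`; `|hN| <= 3 ε`; `t = N^2 - 1`,
`|t| <= 4 ε`; `sqrt_approx`: `|N - (1 - hN/2)| <= 8 ε^2 + 15 ε^2`. -/
theorem gradNorm_approx {g : Tens} {ε : ℝ} {x : E3} (h : Near g ε x) :
    |gradNorm g (fun y => ‖y‖) x - (1 - hN g x / 2)| ≤ 30 * ε ^ 2 := by
  have h0 := h2_near h
  have hle := h.le
  have hs := h2_sq h
  have hN3 := h2_hN h
  obtain ⟨s, hsd⟩ : ∃ s, s = ∑ i, ∑ j, (g x)⁻¹ i j * (x i / ‖x‖) * (x j / ‖x‖) := ⟨_, rfl⟩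
  rw [← hsd] at hs
  have e1 : gradNorm g (fun y => ‖y‖) x = Real.sqrt (1 + (s - 1)) := by
    unfold gradNorm
    rw [hsd]
    have e : ∀ i, pd i (fun y : E3 => ‖y‖) x = x i / ‖x‖ := fun i => h2_pd h.pos i
    simp only [e]
    congr 1
    ring
  have h2 : 0 ≤ ε ^ 2 := sq_nonneg _
  have h3 : ε ^ 2 ≤ ε * (1 / 1000) := by rw [sq]; exact mul_le_mul_of_nonneg_left hle h0
  have ht : |s - 1| ≤ 4 * ε := by
    rw [abs_le] at *
    constructor <;> linarith only [hs, hN3, h3, h0]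
  have h4 := sqrt_approx (t := s - 1) (by linarith)
  have h5 : (s - 1) ^ 2 ≤ 16 * ε ^ 2 := by
    have h7 : |s - 1| ^ 2 ≤ (4 * ε) ^ 2 := pow_le_pow_left₀ (abs_nonneg _) ht 2
    rw [sq_abs] at h7
    linarith [h7, (by ring : (4 * ε) ^ 2 = 16 * ε ^ 2)]
  rw [e1]
  rw [abs_le] at h4 hs ⊢
  constructor <;> linarith only [h4, hs, h5, h2]

end UMB.Far
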