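import Pool.Agent.Lib.UMB.Far.H2

set_option autoImplicit false

/-! # UMB.Far, chunk H2b: the normal -/

open Filter Topology Set MeasureTheory
open scoped ContDiff

namespace UMB.Far

open Pool.Agent.Lib.PenroseSph (E3 Tens pd trg meanCurv gradNorm normal chr)

theorem h2b_mul {a b A B : ℝ} (ha : |a| ≤ A) (hb : |b| ≤ B) : |a * b| ≤ A * B := by
  rw [abs_mul]
  exact mul_le_mul ha hb (abs_nonneg _) ((abs_nonneg _).trans ha)

theorem h2b_S {g : Tens} {ε : ℝ} {x : E3} (h : Near g ε x) (i : Fin 3) :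
    |∑ j, (g x)⁻¹ i j * (x j / ‖x‖) - (x i / ‖x‖ - ∑ j, (g x i j - (1 : Matrix (Fin 3) (Fin 3) ℝ) i j) * (x j / ‖x‖))| ≤
      35 / 2 * ε ^ 2 := by
  have hn := h2_unit h.pos
  have e : ∑ j, (g x)⁻¹ i j * (x j / ‖x‖) - (x i / ‖x‖ - ∑ j, (g x i j - (1 : Matrix (Fin 3) (Fin 3) ℝ) i j) * (x j / ‖x‖)) =
      ∑ j, ((g x)⁻¹ i j - (2 * (1 : Matrix (Fin 3) (Fin 3) ℝ) i j - g x i j)) * (x j / ‖x‖) := by
    have h1 : x i / ‖x‖ = ∑ j, (1 : Matrix (Fin 3) (Fin 3) ℝ) i j * (x j / ‖x‖) := by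
      simp [Matrix.one_apply]
    rw [h1, ← Finset.sum_sub_distrib, ← Finset.sum_sub_distrib]
    refine Finset.sum_congr rfl fun j _ => ?_
    ring
  rw [e]
  refine (h2_lin hn (fun j => h2_inv h i j)).trans ?_
  linarith

/-- CHUNK H2b (M). The normal: `ν^i = n_i - (h n)_i + h(n,n) n_i/2 + O(ε²)`.
PROOF. `ν^i = (sum_j G_ij n_j)/N`, `|sum_j G_ij n_j - (n_i - (hn)_i)| <= 20 ε^2`, `|1/N - (1 + hN/2)| <= 40 ε^2` (`gradNorm_approx`,
`N (1 + hN/2) = 1 - hN^2/4 + ..`), product. -/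
theorem normal_approx {g : Tens} {ε : ℝ} {x : E3} (h : Near g ε x) (i : Fin 3) :
    |normal g (fun y => ‖y‖) i x - (x i / ‖x‖ - ∑ j, (g x i j - (1 : Matrix (Fin 3) (Fin 3) ℝ) i j) * (x j / ‖x‖)
      + hN g x / 2 * (x i / ‖x‖))| ≤ 100 * ε ^ 2 := by
  have h0 := h2_near h
  have hle := h.le
  have hn := h2_unit h.pos
  have hS := h2b_S h i
  have hN3 := h2_hN h
  have hG := gradNorm_approx h
  have hP := h2_lin hn (fun j => h.g0 i j)
  have hni := h2_one hn i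
  have e0 : normal g (fun y => ‖y‖) i x = (∑ j, (g x)⁻¹ i j * (x j / ‖x‖)) / gradNorm g (fun y => ‖y‖) x := by
    unfold normal
    have e : ∀ i, pd i (fun y : E3 => ‖y‖) x = x i / ‖x‖ := fun i => h2_pd h.pos i
    simp only [e]
  rw [e0]
  obtain ⟨S, hSd⟩ : ∃ S, S = ∑ j, (g x)⁻¹ i j * (x j / ‖x‖) := ⟨_, rfl⟩
  obtain ⟨P, hPd⟩ : ∃ P, P = ∑ j, (g x i j - (1 : Matrix (Fin 3) (Fin 3) ℝ) i j) * (x j / ‖x‖) := ⟨_, rfl⟩
  obtain ⟨N, hNd⟩ : ∃ N, N = gradNorm g (fun y => ‖y‖) x := ⟨_, rfl⟩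
  obtain ⟨a, had⟩ : ∃ a, a = x i / ‖x‖ := ⟨_, rfl⟩
  obtain ⟨b, hbd⟩ : ∃ b, b = hN g x := ⟨_, rfl⟩
  rw [← hSd, ← hPd, ← had] at hS
  rw [← hPd] at hP
  rw [← hNd, ← hbd] at hG
  rw [← had] at hni
  rw [← hbd] at hN3
  rw [← hSd, ← hPd, ← hNd, ← had, ← hbd]
  have h3 : ε ^ 2 ≤ ε * (1 / 1000) := by rw [sq]; exact mul_le_mul_of_nonneg_left hle h0
  have h4 : 0 ≤ ε ^ 2 := sq_nonneg _
  have hNpos : 3 / 5 ≤ N := by
    rw [abs_le] at hG hN3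
    linarith only [hG.1, hN3.2, h3, h0, hle]
  have q1 : |b / 2 * a| ≤ 3 / 2 * ε := by
    have h5 : |b / 2| ≤ 3 / 2 * ε := by
      rw [abs_div, abs_two]
      linarith
    have := h2b_mul h5 hni
    linarith
  have hT : |a - P + b / 2 * a| ≤ 101 / 100 := by
    rw [abs_le] at hni hP q1 ⊢
    constructor <;> linarith only [hni, hP, q1, h0, hle]
  have q2 : |P * (b / 2)| ≤ 21 / 8 * ε ^ 2 := by
    have h5 : |b / 2| ≤ 3 / 2 * ε := by
      rw [abs_div, abs_two]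
      linarith
    have h6 := h2b_mul hP h5
    calc |P * (b / 2)| ≤ 7 / 4 * ε * (3 / 2 * ε) := h6
      _ = 21 / 8 * ε ^ 2 := by ring
  have q3 : |b / 2 * a * (b / 2)| ≤ 9 / 4 * ε ^ 2 := by
    have h5 : |b / 2| ≤ 3 / 2 * ε := by
      rw [abs_div, abs_two]
      linarith
    have h6 := h2b_mul q1 h5
    calc |b / 2 * a * (b / 2)| ≤ 3 / 2 * ε * (3 / 2 * ε) := h6
      _ = 9 / 4 * ε ^ 2 := by ring
  have q4 : |(a - P + b / 2 * a) * (N - (1 - b / 2))| ≤ 303 / 10 * ε ^ 2 := by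
    have h6 := h2b_mul hT hG
    linarith
  have e1 : S / N - (a - P + b / 2 * a) = (S - (a - P + b / 2 * a) * N) / N := by
    field_simp
  have e2 : S - (a - P + b / 2 * a) * N = (S - (a - P)) + (b / 2 * a * (b / 2) - P * (b / 2)) -
      (a - P + b / 2 * a) * (N - (1 - b / 2)) := by ring
  have q5 : |S - (a - P + b / 2 * a) * N| ≤ 60 * ε ^ 2 := by
    rw [e2]
    rw [abs_le] at hS q2 q3 q4 ⊢
    constructor <;> linarith only [hS, q2, q3, q4, h4]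
  rw [e1, abs_div, abs_of_pos (by linarith : 0 < N), div_le_iff₀ (by linarith)]
  refine q5.trans ?_
  nlinarith

end UMB.Far
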