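import Pool.Agent.Lib.UMB.Far.H2

set_option autoImplicit false

/-! # UMB.Far, chunk H2c: the area density -/

open Filter Topology Set MeasureTheory
open scoped ContDiff

namespace UMB.Far

open Pool.Agent.Lib.PenroseSph (E3 Tens pd trg meanCurv gradNorm normal chr)

/-- CHUNK H2c (S/M). The area density: `1 + (tr h - h(n,n))/2 + O(ε²)`.
PROOF. `sqrt_det_approx` times `gradNorm_approx`: `(1 + hT/2 + O(20 ε^2))(1 - hN/2 + O(30 ε^2))`, `|hT| <= 3 ε`, `|hN| <= 3 ε`. -/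
theorem areaD_approx {g : Tens} {ε : ℝ} {x : E3} (h : Near g ε x) :
    |areaD g x - (1 + (hT g x - hN g x) / 2)| ≤ 100 * ε ^ 2 := by
  have h0 := h2_near h
  have hle := h.le
  have hN3 := h2_hN h
  have hT3 := h2_hT h
  have hG := gradNorm_approx h
  have hV : |vol g x - (1 + hT g x / 2)| ≤ 20 * ε ^ 2 := sqrt_det_approx (by linarith) h.g0
  have mul : ∀ {a b A B : ℝ}, |a| ≤ A → |b| ≤ B → |a * b| ≤ A * B := by
    intro a b A B ha hb
    rw [abs_mul]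
    exact mul_le_mul ha hb (abs_nonneg _) ((abs_nonneg _).trans ha)
  unfold areaD
  obtain ⟨V, hVd⟩ : ∃ V, V = vol g x := ⟨_, rfl⟩
  obtain ⟨N, hNd⟩ : ∃ N, N = gradNorm g (fun y => ‖y‖) x := ⟨_, rfl⟩
  obtain ⟨t, htd⟩ : ∃ t, t = hT g x := ⟨_, rfl⟩
  obtain ⟨b, hbd⟩ : ∃ b, b = hN g x := ⟨_, rfl⟩
  rw [← hVd, ← htd] at hV
  rw [← hNd, ← hbd] at hG
  rw [← hbd] at hN3
  rw [← htd] at hT3
  rw [← hVd, ← hNd, ← htd, ← hbd]
  have h3 : ε ^ 2 ≤ ε * (1 / 1000) := by rw [sq]; exact mul_le_mul_of_nonneg_left hle h0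
  have h4 : 0 ≤ ε ^ 2 := sq_nonneg _
  have q1 : |t * b| ≤ 9 * ε ^ 2 := by
    have h6 := mul hT3 hN3
    calc |t * b| ≤ 3 * ε * (3 * ε) := h6
      _ = 9 * ε ^ 2 := by ring
  have hN2 : |N| ≤ 101 / 100 := by
    rw [abs_le] at hG hN3 ⊢
    constructor <;> linarith only [hG.1, hG.2, hN3.1, hN3.2, h3, h0, hle]
  have ht2 : |1 + t / 2| ≤ 101 / 100 := by
    rw [abs_le] at hT3 ⊢
    constructor <;> linarith only [hT3.1, hT3.2, h0, hle]
  have q2 := mul hV hN2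
  have q3 := mul ht2 hG
  have e : V * N - (1 + (t - b) / 2) = (V - (1 + t / 2)) * N + (1 + t / 2) * (N - (1 - b / 2)) - t * b / 4 := by ring
  rw [e]
  rw [abs_le] at q1 q2 q3 ⊢
  constructor <;> linarith only [q1.1, q1.2, q2.1, q2.2, q3.1, q3.2, h4]

end UMB.Far
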