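import Pool.Agent.Lib.UMB.Far.H2b

set_option autoImplicit false

/-! # UMB.Far, chunk H3: derivatives of `|x|` -/

/-! # UMB.Far, chunk H3: derivatives of `|x|` -/

open Filter Topology Set MeasureTheory
open scoped ContDiff

namespace UMB.Far

open Pool.Agent.Lib.PenroseSph (E3 Tens pd trg meanCurv gradNorm normal chr)

/-- `(div g)(n) = sum ∂_i g_ij n_j`. -/
noncomputable def dD (g : Tens) (x : E3) : ℝ := ∑ i, ∑ j, pd i (fun y => g y i j) x * (x j / ‖x‖)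

/-- `∂_n tr g`. -/
noncomputable def dT (g : Tens) (x : E3) : ℝ := ∑ j, ∑ k, pd k (fun y => g y j j) x * (x k / ‖x‖)

/-- `(∂_n g)(n, n)`. -/
noncomputable def dN (g : Tens) (x : E3) : ℝ :=
  ∑ i, ∑ j, ∑ k, pd k (fun y => g y i j) x * (x i / ‖x‖) * (x j / ‖x‖) * (x k / ‖x‖)

/-- The first order part of `H - 2/r`. -/
noncomputable def H1 (g : Tens) (x : E3) : ℝ :=
  -(hT g x - hN g x) / ‖x‖ + hN g x / ‖x‖ - dD g x + dT g x / 2 + dN g x / 2

/-- CHUNK H3 (S/M). First and second derivatives of `|x|`: `n_i` and `(δ_ij - n_i n_j)/|x|`.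
PROOF. `PenroseSph.pd_radial`, `pd_radial_mul` (the function `x_j * |x|⁻¹`), valid near `x ≠ 0` (`pd_congr`). -/
theorem pd_norm {x : E3} (hx : x ≠ 0) : (∀ i, pd i (fun y : E3 => ‖y‖) x = x i / ‖x‖) ∧
    ∀ i j, pd i (pd j (fun y : E3 => ‖y‖)) x =
      ((1 : Matrix (Fin 3) (Fin 3) ℝ) i j - (x i / ‖x‖) * (x j / ‖x‖)) / ‖x‖ := by
  have hn : ‖x‖ ≠ 0 := norm_ne_zero_iff.mpr hx
  have h1 : ∀ y : E3, y ≠ 0 → ∀ i, pd i (fun y : E3 => ‖y‖) y = y i / ‖y‖ := by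
    intro y hy i
    have := Pool.Agent.Lib.PenroseSph.pd_radial (F := fun t : ℝ => t) hy differentiableAt_id i
    rw [this]
    simp
  refine ⟨h1 x hx, fun i j => ?_⟩
  have hev : (pd j (fun y : E3 => ‖y‖)) =ᶠ[𝓝 x] fun y => (fun t : ℝ => t⁻¹) ‖y‖ * y j := by
    filter_upwards [isOpen_ne.mem_nhds hx] with y hy
    rw [h1 y hy j]
    ring
  rw [Pool.Agent.Lib.PenroseSph.pd_congr i hev,
    Pool.Agent.Lib.PenroseSph.pd_radial_mul (F := fun t : ℝ => t⁻¹) hx (differentiableAt_inv hn) j i]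
  have e : deriv (fun t : ℝ => t⁻¹) ‖x‖ = -(‖x‖ ^ 2)⁻¹ := by
    rw [deriv_inv]
  rw [e]
  have e2 : (if j = i then (1 : ℝ) else 0) = (1 : Matrix (Fin 3) (Fin 3) ℝ) i j := by
    rw [Matrix.one_apply]
    by_cases hij : i = j
    · rw [if_pos hij.symm, if_pos hij]
    · rw [if_neg (fun h => hij h.symm), if_neg hij]
  rw [e2]
  field_simp
  ring

end UMB.Far
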