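import Pool.Agent.Lib.UMB.Far.H3

set_option autoImplicit false

/-! # UMB.Far, chunk H3b: Christoffel symbols -/

/-! # UMB.Far, chunk H3b: Christoffel symbols -/

open Filter Topology Set MeasureTheory
open scoped ContDiff

namespace UMB.Far

open Pool.Agent.Lib.PenroseSph (E3 Tens pd trg meanCurv gradNorm normal chr)

/-- CHUNK H3b (M). Christoffel symbols contracted with `n`: `Γ^k_ij n_k = (∂_i g_jk + ∂_j g_ik - ∂_k g_ij) n_k/2 + O(ε²/r)`.
PROOF. `chr` is `(1/2) sum_l G_kl (..)_l` with `|(..)_l| <= 3 ε/r` and `|G_kl - δ_kl| <= 2 ε` (`inv_approx`). -/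
theorem chr_approx {g : Tens} {ε : ℝ} {x : E3} (h : Near g ε x) (i j : Fin 3) :
    |∑ k, chr g k i j x * (x k / ‖x‖) - (∑ k, (pd i (fun y => g y j k) x + pd j (fun y => g y i k) x
      - pd k (fun y => g y i j) x) * (x k / ‖x‖)) / 2| ≤ 30 * ε ^ 2 / ‖x‖ := by
  have hr := h.pos
  have he0 : 0 ≤ ε := le_trans (abs_nonneg _) (h.g0 0 0)
  have hle := h.le
  have hn : ∀ i, |x i / ‖x‖| ≤ 1 := by
    intro i
    rw [abs_div, abs_of_pos hr, div_le_one hr]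
    exact PiLp.norm_apply_le x i
  obtain ⟨-, hinv⟩ := inv_approx (A := g x) (ε := ε) (by linarith) h.g0
  have hG : ∀ k l, |(g x)⁻¹ k l - (1 : Matrix (Fin 3) (Fin 3) ℝ) k l| ≤ 2 * ε := by
    intro k l
    have h1 := hinv k l
    have h2 := h.g0 k l
    have h3 : 10 * ε ^ 2 ≤ ε := by nlinarith
    rw [abs_le] at h1 h2 ⊢
    constructor <;> linarith [h1.1, h1.2, h2.1, h2.2]
  have hT : ∀ l, |pd i (fun y => g y j l) x + pd j (fun y => g y i l) x - pd l (fun y => g y i j) x| ≤ 3 * (ε / ‖x‖) := by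
    intro l
    have h1 := h.g1 j l i
    have h2 := h.g1 i l j
    have h3 := h.g1 i j l
    rw [abs_le] at h1 h2 h3 ⊢
    constructor <;> linarith [h1.1, h1.2, h2.1, h2.2, h3.1, h3.2]
  generalize hTT : (fun l => pd i (fun y => g y j l) x + pd j (fun y => g y i l) x - pd l (fun y => g y i j) x) = T at *
  have hT' : ∀ l, pd i (fun y => g y j l) x + pd j (fun y => g y i l) x - pd l (fun y => g y i j) x = T l := by
    intro l
    rw [← hTT]
  simp only [hT'] at hT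
  have e : ∑ k, chr g k i j x * (x k / ‖x‖) - (∑ k, T k * (x k / ‖x‖)) / 2 =
      (1 / 2) * ∑ k, ∑ l, ((g x)⁻¹ k l - (1 : Matrix (Fin 3) (Fin 3) ℝ) k l) * T l * (x k / ‖x‖) := by
    unfold chr
    simp only [hT', Fin.sum_univ_three, Matrix.one_apply]
    simp
    ring
  simp only [hT']
  rw [e, abs_mul]
  have h5 : ∀ {f : Fin 3 → ℝ} {c : ℝ}, (∀ i, |f i| ≤ c) → |∑ i, f i| ≤ 3 * c := by
    intro f c hf
    rw [Fin.sum_univ_three]
    calc |f 0 + f 1 + f 2| ≤ |f 0| + |f 1| + |f 2| := abs_add_three _ _ _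
      _ ≤ 3 * c := by linarith [hf 0, hf 1, hf 2]
  have h6 : |∑ k, ∑ l, ((g x)⁻¹ k l - (1 : Matrix (Fin 3) (Fin 3) ℝ) k l) * T l * (x k / ‖x‖)| ≤
      3 * (3 * (2 * ε * (3 * (ε / ‖x‖)))) := by
    refine h5 fun k => h5 fun l => ?_
    rw [abs_mul, abs_mul]
    have h7 : |(g x)⁻¹ k l - (1 : Matrix (Fin 3) (Fin 3) ℝ) k l| * |T l| ≤ 2 * ε * (3 * (ε / ‖x‖)) :=
      mul_le_mul (hG k l) (hT l) (abs_nonneg _) (by positivity)
    calc _ ≤ 2 * ε * (3 * (ε / ‖x‖)) * 1 := mul_le_mul h7 (hn k) (abs_nonneg _) (by positivity)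
      _ = _ := by ring
  have e3 : (3 : ℝ) * (3 * (2 * ε * (3 * (ε / ‖x‖)))) = 54 * (ε ^ 2 / ‖x‖) := by ring
  have e4 : 30 * ε ^ 2 / ‖x‖ = 30 * (ε ^ 2 / ‖x‖) := by ring
  rw [e3] at h6
  rw [e4, abs_of_pos (by norm_num : (0 : ℝ) < 1 / 2)]
  have h8 : 0 ≤ ε ^ 2 / ‖x‖ := by positivity
  linarith

end UMB.Far
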