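import Pool.Agent.Lib.UMB.Far.H3b

set_option autoImplicit false

/-! # UMB.Far, chunk H3c: mean curvature of the coordinate spheres -/

open Filter Topology Set MeasureTheory
open scoped ContDiff

namespace UMB.Far

open Pool.Agent.Lib.PenroseSph (E3 Tens pd trg meanCurv gradNorm normal chr)

/-- The sum of nine small terms. -/
theorem h3c_sum {t : Fin 3 → Fin 3 → ℝ} {m : ℝ} (h : ∀ i j, |t i j| ≤ m) : |∑ i, ∑ j, t i j| ≤ 9 * m := by
  have h1 : ∀ i, |∑ j, t i j| ≤ 3 * m := by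
    intro i
    refine (Finset.abs_sum_le_sum_abs _ _).trans ?_
    refine (Finset.sum_le_card_nsmul _ _ m fun j _ => h i j).trans (le_of_eq ?_)
    simp
  refine (Finset.abs_sum_le_sum_abs _ _).trans ?_
  refine (Finset.sum_le_card_nsmul _ _ (3 * m) fun j _ => h1 j).trans (le_of_eq ?_)
  simp
  ring

theorem h3c_sum1 {t : Fin 3 → ℝ} {m : ℝ} (h : ∀ i, |t i| ≤ m) : |∑ i, t i| ≤ 3 * m := by
  refine (Finset.abs_sum_le_sum_abs _ _).trans ?_
  refine (Finset.sum_le_card_nsmul _ _ m fun j _ => h j).trans (le_of_eq ?_)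
  simp

/-- The trace of the first order projection against the projection. -/
theorem h3c_trace (n : Fin 3 → ℝ) (h : Fin 3 → Fin 3 → ℝ) (hn : n 0 ^ 2 + n 1 ^ 2 + n 2 ^ 2 = 1) :
    ∑ i, ∑ j, ((1 : Matrix (Fin 3) (Fin 3) ℝ) i j - h i j - n i * n j + n i * (∑ k, h j k * n k) + (∑ k, h i k * n k) * n j
      - (∑ k, ∑ l, h k l * n k * n l) * n i * n j) * ((1 : Matrix (Fin 3) (Fin 3) ℝ) i j - n i * n j) =
    2 - ((∑ i, h i i) - ∑ k, ∑ l, h k l * n k * n l) := by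
  have o : ∀ i j : Fin 3, (1 : Matrix (Fin 3) (Fin 3) ℝ) i j = if i = j then 1 else 0 := fun i j => Matrix.one_apply
  simp only [o, Fin.sum_univ_three, Fin.isValue, Fin.reduceEq, if_true, if_false]
  linear_combination (-2 - 3 * (h 0 0 * n 0 * n 0 + h 0 1 * n 0 * n 1 + h 0 2 * n 0 * n 2 +
    (h 1 0 * n 1 * n 0 + h 1 1 * n 1 * n 1 + h 1 2 * n 1 * n 2) +
    (h 2 0 * n 2 * n 0 + h 2 1 * n 2 * n 1 + h 2 2 * n 2 * n 2)) + (n 0 ^ 2 + n 1 ^ 2 + n 2 ^ 2 + 1) *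
    (1 + (h 0 0 * n 0 * n 0 + h 0 1 * n 0 * n 1 + h 0 2 * n 0 * n 2 +
    (h 1 0 * n 1 * n 0 + h 1 1 * n 1 * n 1 + h 1 2 * n 1 * n 2) +
    (h 2 0 * n 2 * n 0 + h 2 1 * n 2 * n 1 + h 2 2 * n 2 * n 2)))) * hn

theorem h3c_n1 {n : Fin 3 → ℝ} (hn : n 0 ^ 2 + n 1 ^ 2 + n 2 ^ 2 = 1) (i : Fin 3) : |n i| ≤ 1 := by
  rw [abs_le_one_iff_mul_self_le_one]
  fin_cases i <;> simp only [Fin.zero_eta, Fin.mk_one, Fin.reduceFinMk, Fin.isValue] <;>
    nlinarith [sq_nonneg (n 0), sq_nonneg (n 1), sq_nonneg (n 2)]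

/-- The numerator of the mean curvature. -/
theorem h3c_num (n ν : Fin 3 → ℝ) (G h C K : Fin 3 → Fin 3 → ℝ) (r ε : ℝ) (hr : 0 < r) (he0 : 0 ≤ ε) (he : ε ≤ 1 / 1000)
    (hn : n 0 ^ 2 + n 1 ^ 2 + n 2 ^ 2 = 1) (hh : ∀ i j, |h i j| ≤ ε)
    (hG : ∀ i j, |G i j - ((1 : Matrix (Fin 3) (Fin 3) ℝ) i j - h i j)| ≤ 10 * ε ^ 2)
    (hν : ∀ i, |ν i - (n i - (∑ k, h i k * n k) + (∑ k, ∑ l, h k l * n k * n l) / 2 * n i)| ≤ 100 * ε ^ 2)
    (hC : ∀ i j, |C i j - K i j| ≤ 30 * ε ^ 2 / r) (hK : ∀ i j, |K i j| ≤ 9 / 2 * ε / r) :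
    |∑ i, ∑ j, (G i j - ν i * ν j) * (((1 : Matrix (Fin 3) (Fin 3) ℝ) i j - n i * n j) / r - C i j) -
      ((2 - ((∑ i, h i i) - ∑ k, ∑ l, h k l * n k * n l)) / r -
        ∑ i, ∑ j, ((1 : Matrix (Fin 3) (Fin 3) ℝ) i j - n i * n j) * K i j)| ≤ 6100 * ε ^ 2 / r := by
  have hn1 := h3c_n1 hn
  have he2 : ε ^ 2 ≤ ε / 1000 := by nlinarith
  have he20 : 0 ≤ ε ^ 2 := sq_nonneg ε
  have ha : ∀ i, |∑ k, h i k * n k| ≤ 3 * ε := fun i => h3c_sum1 fun k => by
    rw [abs_mul]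
    calc |h i k| * |n k| ≤ ε * 1 := mul_le_mul (hh i k) (hn1 k) (abs_nonneg _) he0
      _ = ε := mul_one ε
  have hN : |∑ k, ∑ l, h k l * n k * n l| ≤ 9 * ε := h3c_sum fun k l => by
    rw [abs_mul, abs_mul]
    calc |h k l| * |n k| * |n l| ≤ ε * 1 * 1 :=
          mul_le_mul (mul_le_mul (hh k l) (hn1 k) (abs_nonneg _) he0) (hn1 l) (abs_nonneg _) (by linarith)
      _ = ε := by ring
  obtain ⟨a, hadef⟩ : ∃ a : Fin 3 → ℝ, a = fun i => ∑ k, h i k * n k := ⟨_, rfl⟩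
  obtain ⟨q, hq⟩ : ∃ q : ℝ, q = ∑ k, ∑ l, h k l * n k * n l := ⟨_, rfl⟩
  have htr := h3c_trace n h hn
  have ha' : ∀ i, |a i| ≤ 3 * ε := by
    intro i
    rw [hadef]
    exact ha i
  have hν' : ∀ i, |ν i - (n i - a i + q / 2 * n i)| ≤ 100 * ε ^ 2 := by
    intro i
    rw [hadef, hq]
    exact hν i
  rw [← hq] at hN htr ⊢
  have haa : ∀ i, ∑ k, h i k * n k = a i := fun i => by rw [hadef]
  simp only [haa] at htr
  clear hν ha
  obtain ⟨o, ho⟩ : ∃ o : Fin 3 → Fin 3 → ℝ, o = fun i j => (1 : Matrix (Fin 3) (Fin 3) ℝ) i j := ⟨_, rfl⟩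
  have ho' : ∀ i j, (1 : Matrix (Fin 3) (Fin 3) ℝ) i j = o i j := fun i j => by rw [ho]
  have ho1 : ∀ i j, |o i j| ≤ 1 := by
    intro i j
    rw [ho]
    change |(1 : Matrix (Fin 3) (Fin 3) ℝ) i j| ≤ 1
    rw [Matrix.one_apply]
    split_ifs <;> simp
  simp only [ho'] at htr hG ⊢
  have key : ∑ i, ∑ j, (G i j - ν i * ν j) * ((o i j - n i * n j) / r - C i j) -
      ((2 - ((∑ i, h i i) - q)) / r - ∑ i, ∑ j, (o i j - n i * n j) * K i j) =
      ∑ i, ∑ j, ((G i j - ν i * ν j - (o i j - h i j - n i * n j + n i * a j + a i * n j - q * n i * n j)) *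
        ((o i j - n i * n j) / r) - (G i j - ν i * ν j - (o i j - n i * n j)) * C i j - (o i j - n i * n j) * (C i j - K i j)) := by
    rw [← htr]
    simp only [Fin.sum_univ_three]
    field_simp
    ring
  rw [key]
  refine (h3c_sum (m := 677 * ε ^ 2 / r) fun i j => ?_).trans ?_
  · have hP0 : |o i j - n i * n j| ≤ 2 := by
      refine (abs_sub _ _).trans ?_
      have : |n i * n j| ≤ 1 := by
        rw [abs_mul]
        exact mul_le_one₀ (hn1 i) (abs_nonneg _) (hn1 j)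
      linarith [ho1 i j]
    -- the vectors nu - n
    have hd : ∀ i, |ν i - n i| ≤ 38 / 5 * ε := by
      intro i
      have e1 : ν i - n i = (ν i - (n i - a i + q / 2 * n i)) - a i + q / 2 * n i := by ring
      have e2 : |q / 2 * n i| ≤ 9 / 2 * ε := by
        rw [abs_mul, abs_div, abs_two]
        calc |q| / 2 * |n i| ≤ (9 * ε / 2) * 1 :=
              mul_le_mul (by linarith) (hn1 i) (abs_nonneg _) (by linarith)
          _ = 9 / 2 * ε := by ring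
      rw [e1]
      calc |(ν i - (n i - a i + q / 2 * n i)) - a i + q / 2 * n i|
          ≤ |(ν i - (n i - a i + q / 2 * n i)) - a i| + |q / 2 * n i| := abs_add_le _ _
        _ ≤ |ν i - (n i - a i + q / 2 * n i)| + |a i| + |q / 2 * n i| := by
            have := abs_sub (ν i - (n i - a i + q / 2 * n i)) (a i)
            linarith
        _ ≤ 38 / 5 * ε := by linarith [hν' i, ha' i]
    have hPP : |G i j - ν i * ν j - (o i j - h i j - n i * n j + n i * a j + a i * n j - q * n i * n j)| ≤ 268 * ε ^ 2 := by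
      have e1 : G i j - ν i * ν j - (o i j - h i j - n i * n j + n i * a j + a i * n j - q * n i * n j) =
          (G i j - (o i j - h i j)) - n i * (ν j - (n j - a j + q / 2 * n j)) - (ν i - (n i - a i + q / 2 * n i)) * n j -
            (ν i - n i) * (ν j - n j) := by ring
      rw [e1]
      have f1 : |n i * (ν j - (n j - a j + q / 2 * n j))| ≤ 100 * ε ^ 2 := by
        rw [abs_mul]
        calc |n i| * |ν j - (n j - a j + q / 2 * n j)| ≤ 1 * (100 * ε ^ 2) :=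
              mul_le_mul (hn1 i) (hν' j) (abs_nonneg _) zero_le_one
          _ = 100 * ε ^ 2 := one_mul _
      have f2 : |(ν i - (n i - a i + q / 2 * n i)) * n j| ≤ 100 * ε ^ 2 := by
        rw [abs_mul]
        calc |ν i - (n i - a i + q / 2 * n i)| * |n j| ≤ (100 * ε ^ 2) * 1 :=
              mul_le_mul (hν' i) (hn1 j) (abs_nonneg _) (by positivity)
          _ = 100 * ε ^ 2 := mul_one _
      have f3 : |(ν i - n i) * (ν j - n j)| ≤ 58 * ε ^ 2 := by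
        rw [abs_mul]
        calc |ν i - n i| * |ν j - n j| ≤ (38 / 5 * ε) * (38 / 5 * ε) :=
              mul_le_mul (hd i) (hd j) (abs_nonneg _) (by positivity)
          _ ≤ 58 * ε ^ 2 := by nlinarith
      have g1 := hG i j
      rw [abs_le] at f1 f2 f3 g1 ⊢
      constructor <;> linarith [f1.1, f1.2, f2.1, f2.2, f3.1, f3.2, g1.1, g1.2]
    have hP : |G i j - ν i * ν j - (o i j - n i * n j)| ≤ 33 / 2 * ε := by
      have f1 : |n i * a j| ≤ 3 * ε := by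
        rw [abs_mul]
        calc |n i| * |a j| ≤ 1 * (3 * ε) := mul_le_mul (hn1 i) (ha' j) (abs_nonneg _) zero_le_one
          _ = 3 * ε := one_mul _
      have f2 : |a i * n j| ≤ 3 * ε := by
        rw [abs_mul]
        calc |a i| * |n j| ≤ (3 * ε) * 1 := mul_le_mul (ha' i) (hn1 j) (abs_nonneg _) (by positivity)
          _ = 3 * ε := mul_one _
      have f3 : |q * n i * n j| ≤ 9 * ε := by
        rw [abs_mul, abs_mul]
        calc |q| * |n i| * |n j| ≤ (9 * ε) * 1 * 1 :=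
              mul_le_mul (mul_le_mul hN (hn1 i) (abs_nonneg _) (by positivity)) (hn1 j) (abs_nonneg _) (by positivity)
          _ = 9 * ε := by ring
      have g1 := hh i j
      rw [abs_le] at f1 f2 f3 g1 hPP ⊢
      constructor <;> linarith [f1.1, f1.2, f2.1, f2.2, f3.1, f3.2, g1.1, g1.2, hPP.1, hPP.2]
    have hCb : |C i j| ≤ 23 / 5 * ε / r := by
      have e1 : C i j = (C i j - K i j) + K i j := by ring
      rw [e1]
      refine (abs_add_le _ _).trans ?_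
      calc |C i j - K i j| + |K i j| ≤ 30 * ε ^ 2 / r + 9 / 2 * ε / r := add_le_add (hC i j) (hK i j)
        _ = (30 * ε ^ 2 + 9 / 2 * ε) / r := by ring
        _ ≤ 23 / 5 * ε / r := div_le_div_of_nonneg_right (by linarith) hr.le
    have t1 : |(G i j - ν i * ν j - (o i j - h i j - n i * n j + n i * a j + a i * n j - q * n i * n j)) *
        ((o i j - n i * n j) / r)| ≤ 536 * ε ^ 2 / r := by
      rw [abs_mul, abs_div, abs_of_pos hr]
      calc _ ≤ (268 * ε ^ 2) * (2 / r) :=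
            mul_le_mul hPP (div_le_div_of_nonneg_right hP0 hr.le) (by positivity) (by positivity)
        _ = 536 * ε ^ 2 / r := by ring
    have t2 : |(G i j - ν i * ν j - (o i j - n i * n j)) * C i j| ≤ 76 * ε ^ 2 / r := by
      rw [abs_mul]
      calc _ ≤ (33 / 2 * ε) * (23 / 5 * ε / r) := mul_le_mul hP hCb (abs_nonneg _) (by positivity)
        _ = 759 / 10 * ε ^ 2 / r := by ring
        _ ≤ 76 * ε ^ 2 / r := div_le_div_of_nonneg_right (by linarith) hr.le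
    have t3 : |(o i j - n i * n j) * (C i j - K i j)| ≤ 60 * ε ^ 2 / r := by
      rw [abs_mul]
      calc _ ≤ 2 * (30 * ε ^ 2 / r) := mul_le_mul hP0 (hC i j) (abs_nonneg _) (by norm_num)
        _ = 60 * ε ^ 2 / r := by ring
    have e5 : 677 * ε ^ 2 / r = 536 * ε ^ 2 / r + 76 * ε ^ 2 / r + 60 * ε ^ 2 / r + 5 * ε ^ 2 / r := by ring
    have e6 : 0 ≤ 5 * ε ^ 2 / r := by positivity
    rw [e5]
    rw [abs_le] at t1 t2 t3 ⊢
    constructor <;> linarith [t1.1, t1.2, t2.1, t2.2, t3.1, t3.2]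
  · rw [← mul_div_assoc]
    exact div_le_div_of_nonneg_right (by linarith) hr.le

/-- Division by `N`. -/
theorem h3c_div (Nm X N q r ε : ℝ) (hr : 0 < r) (he0 : 0 ≤ ε) (he : ε ≤ 1 / 1000) (hq : |q| ≤ 9 * ε)
    (hN : |N - (1 - q / 2)| ≤ 30 * ε ^ 2) (hX : |X - 2 / r| ≤ 100 * ε / r) (h : |Nm - X| ≤ 6100 * ε ^ 2 / r) :
    |Nm / N - (X + q / r)| ≤ 10000 * ε ^ 2 / r := by
  have he2 : ε ^ 2 ≤ ε / 1000 := by nlinarith
  have he20 : 0 ≤ ε ^ 2 := sq_nonneg ε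
  have hN1 : |1 - N| ≤ 23 / 5 * ε := by
    rw [abs_le] at hq hN ⊢
    constructor <;> linarith [hq.1, hq.2, hN.1, hN.2]
  have hN2 : 99 / 100 ≤ N := by
    have := (abs_le.1 hN1).2
    linarith
  have hN0 : 0 < N := by linarith
  have e1 : Nm / N - (X + q / r) = ((Nm - X) + 2 / r * ((1 - q / 2) - N) + (X - 2 / r) * (1 - N) + (1 - N) * (q / r)) / N := by
    field_simp
    ring
  have t1 : |2 / r * ((1 - q / 2) - N)| ≤ 60 * ε ^ 2 / r := by
    rw [abs_mul, abs_sub_comm, abs_of_pos (div_pos two_pos hr)]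
    calc _ ≤ 2 / r * (30 * ε ^ 2) := mul_le_mul_of_nonneg_left hN (by positivity)
      _ = 60 * ε ^ 2 / r := by ring
  have t2 : |(X - 2 / r) * (1 - N)| ≤ 460 * ε ^ 2 / r := by
    rw [abs_mul]
    calc _ ≤ (100 * ε / r) * (23 / 5 * ε) := mul_le_mul hX hN1 (abs_nonneg _) (by positivity)
      _ = 460 * ε ^ 2 / r := by ring
  have t3 : |(1 - N) * (q / r)| ≤ 42 * ε ^ 2 / r := by
    rw [abs_mul, abs_div, abs_of_pos hr]
    calc _ ≤ (23 / 5 * ε) * (9 * ε / r) :=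
          mul_le_mul hN1 (div_le_div_of_nonneg_right hq hr.le) (by positivity) (by positivity)
      _ = 207 / 5 * ε ^ 2 / r := by ring
      _ ≤ 42 * ε ^ 2 / r := div_le_div_of_nonneg_right (by linarith) hr.le
  have t4 : |(Nm - X) + 2 / r * ((1 - q / 2) - N) + (X - 2 / r) * (1 - N) + (1 - N) * (q / r)| ≤ 6662 * ε ^ 2 / r := by
    have e5 : 6662 * ε ^ 2 / r = 6100 * ε ^ 2 / r + 60 * ε ^ 2 / r + 460 * ε ^ 2 / r + 42 * ε ^ 2 / r := by ring
    rw [e5]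
    rw [abs_le] at t1 t2 t3 h ⊢
    constructor <;> linarith [t1.1, t1.2, t2.1, t2.2, t3.1, t3.2, h.1, h.2]
  rw [e1, abs_div, abs_of_pos hN0, div_le_iff₀ hN0]
  refine t4.trans ?_
  have e7 : 10000 * ε ^ 2 / r * N = (10000 * N) * ε ^ 2 / r := by ring
  rw [e7]
  exact div_le_div_of_nonneg_right (mul_le_mul_of_nonneg_right (by linarith) he20) hr.le

/-- CHUNK H3c (M/L). The mean curvature of the coordinate sphere: `H = 2/r + H1 + O(ε²/r)`.
PROOF. `meanCurv = (sum_ij (G_ij - ν_i ν_j)(ρ_ij - Γ^k_ij n_k))/N`, `ρ_ij = (δ_ij - n_i n_j)/r` (`pd_norm`). With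
`P_ij = G_ij - ν_i ν_j = δ_ij - h_ij - n_i n_j + n_i (hn)_j + (hn)_i n_j - hN n_i n_j + O(C ε^2)` (`inv_approx`, `normal_approx`):
`sum P_ij ρ_ij = (2 - (hT - hN))/r + O(C ε^2/r)` [trace of P minus P(n,n)], and
`- sum P_ij Γ^k_ij n_k = - sum (δ_ij - n_i n_j)(1/2)(∂_i g_jk + ∂_j g_ik - ∂_k g_ij) n_k + O(C ε^2/r) = - dD + dT/2 + dN/2 + ..`
(symmetry of `g`: `pd k g_ij = pd k g_ji` holds for `g` symmetric near `x`; this is why `hs` is assumed). Multiply by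
`1/N = 1 + hN/2 + O(40 ε^2)`: adds `hN/r`. The constant `10000` is generous. -/
theorem meanCurv_approx {g : Tens} {ε : ℝ} {x : E3} (h : Near g ε x) (hs : ∀ᶠ y in 𝓝 x, (g y).IsSymm) :
    |meanCurv g (fun y => ‖y‖) x - (2 / ‖x‖ + H1 g x)| ≤ 10000 * ε ^ 2 / ‖x‖ := by
  have hr := h.pos
  have he := h.le
  have he0 : 0 ≤ ε := (abs_nonneg _).trans (h.g0 0 0)
  have hx : x ≠ 0 := norm_pos_iff.1 hr
  have hn : (x 0 / ‖x‖) ^ 2 + (x 1 / ‖x‖) ^ 2 + (x 2 / ‖x‖) ^ 2 = 1 := by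
    have h1 : ‖x‖ ^ 2 = x 0 ^ 2 + x 1 ^ 2 + x 2 ^ 2 := by
      rw [EuclideanSpace.norm_sq_eq, Fin.sum_univ_three]
      simp only [Real.norm_eq_abs, sq_abs]
    rw [div_pow, div_pow, div_pow, ← add_div, ← add_div, ← h1]
    exact div_self (by positivity)
  have hn1 := h3c_n1 (n := fun i => x i / ‖x‖) hn
  obtain ⟨pd1, pd2⟩ := pd_norm hx
  obtain ⟨-, hinv⟩ := inv_approx (A := g x) (ε := ε) (by linarith) h.g0
  have hKb : ∀ i j : Fin 3, |(∑ k, (pd i (fun y => g y j k) x + pd j (fun y => g y i k) x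
      - pd k (fun y => g y i j) x) * (x k / ‖x‖)) / 2| ≤ 9 / 2 * ε / ‖x‖ := by
    intro i j
    have h1 : |∑ k, (pd i (fun y => g y j k) x + pd j (fun y => g y i k) x
      - pd k (fun y => g y i j) x) * (x k / ‖x‖)| ≤ 3 * (3 * ε / ‖x‖) := h3c_sum1 fun k => by
        rw [abs_mul]
        have h2 : |pd i (fun y => g y j k) x + pd j (fun y => g y i k) x - pd k (fun y => g y i j) x| ≤ 3 * ε / ‖x‖ := by
          have a1 := h.g1 j k i
          have a2 := h.g1 i k j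
          have a3 := h.g1 i j k
          have a4 : 3 * ε / ‖x‖ = ε / ‖x‖ + ε / ‖x‖ + ε / ‖x‖ := by ring
          rw [a4]
          rw [abs_le] at a1 a2 a3 ⊢
          constructor <;> linarith [a1.1, a1.2, a2.1, a2.2, a3.1, a3.2]
        calc _ ≤ (3 * ε / ‖x‖) * 1 := mul_le_mul h2 (hn1 k) (abs_nonneg _) (by positivity)
          _ = 3 * ε / ‖x‖ := mul_one _
    rw [abs_div, abs_two]
    have e1 : 9 / 2 * ε / ‖x‖ = 3 * (3 * ε / ‖x‖) / 2 := by ring
    rw [e1]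
    exact div_le_div_of_nonneg_right h1 (by norm_num)
  have num := h3c_num (fun i => x i / ‖x‖) (fun i => normal g (fun y => ‖y‖) i x) (fun i j => (g x)⁻¹ i j)
    (fun i j => g x i j - (1 : Matrix (Fin 3) (Fin 3) ℝ) i j) (fun i j => ∑ k, chr g k i j x * (x k / ‖x‖))
    (fun i j => (∑ k, (pd i (fun y => g y j k) x + pd j (fun y => g y i k) x
      - pd k (fun y => g y i j) x) * (x k / ‖x‖)) / 2) ‖x‖ ε hr he0 he hn h.g0 (fun i j => by
        have := hinv i j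
        have e1 : (1 : Matrix (Fin 3) (Fin 3) ℝ) i j - (g x i j - (1 : Matrix (Fin 3) (Fin 3) ℝ) i j) =
          2 * (1 : Matrix (Fin 3) (Fin 3) ℝ) i j - g x i j := by ring
        rw [e1]
        exact this) (fun i => normal_approx h i) (fun i j => chr_approx h i j) hKb
  have hN9 : |hN g x| ≤ 9 * ε := by
    unfold hN
    refine h3c_sum fun k l => ?_
    rw [abs_mul, abs_mul]
    calc _ ≤ ε * 1 * 1 :=
          mul_le_mul (mul_le_mul (h.g0 k l) (hn1 k) (abs_nonneg _) he0) (hn1 l) (abs_nonneg _) (by linarith)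
      _ = ε := by ring
  have hN' : ∑ k, ∑ l, (g x k l - (1 : Matrix (Fin 3) (Fin 3) ℝ) k l) * (x k / ‖x‖) * (x l / ‖x‖) = hN g x := rfl
  have hT' : ∑ i, (g x i i - (1 : Matrix (Fin 3) (Fin 3) ℝ) i i) = hT g x := by
    unfold hT
    simp only [Matrix.one_apply_eq]
  simp only [hN', hT'] at num
  have hPK : ∑ i, ∑ j, ((1 : Matrix (Fin 3) (Fin 3) ℝ) i j - x i / ‖x‖ * (x j / ‖x‖)) *
      ((∑ k, (pd i (fun y => g y j k) x + pd j (fun y => g y i k) x - pd k (fun y => g y i j) x) * (x k / ‖x‖)) / 2) =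
      dD g x - dT g x / 2 - dN g x / 2 := by
    have o : ∀ i j : Fin 3, (1 : Matrix (Fin 3) (Fin 3) ℝ) i j = if i = j then 1 else 0 := fun i j => Matrix.one_apply
    unfold dD dT dN
    simp only [o, Fin.sum_univ_three, Fin.isValue, Fin.reduceEq, if_true, if_false]
    ring
  rw [hPK] at num
  have hT3 : |hT g x| ≤ 3 * ε := by
    unfold hT
    refine h3c_sum1 fun i => ?_
    have := h.g0 i i
    rwa [Matrix.one_apply_eq] at this
  have hPKb : |dD g x - dT g x / 2 - dN g x / 2| ≤ 81 * ε / ‖x‖ := by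
    rw [← hPK]
    refine (h3c_sum (m := 9 * ε / ‖x‖) fun i j => ?_).trans (le_of_eq (by ring))
    rw [abs_mul]
    have hP0 : |(1 : Matrix (Fin 3) (Fin 3) ℝ) i j - x i / ‖x‖ * (x j / ‖x‖)| ≤ 2 := by
      refine (abs_sub _ _).trans ?_
      have a1 : |x i / ‖x‖ * (x j / ‖x‖)| ≤ 1 := by
        rw [abs_mul]
        exact mul_le_one₀ (hn1 i) (abs_nonneg _) (hn1 j)
      have a2 : |(1 : Matrix (Fin 3) (Fin 3) ℝ) i j| ≤ 1 := by
        rw [Matrix.one_apply]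
        split_ifs <;> simp
      linarith
    calc _ ≤ 2 * (9 / 2 * ε / ‖x‖) := mul_le_mul hP0 (hKb i j) (abs_nonneg _) (by norm_num)
      _ = 9 * ε / ‖x‖ := by ring
  have fin := h3c_div _ _ (gradNorm g (fun y => ‖y‖) x) (hN g x) ‖x‖ ε hr he0 he hN9 (gradNorm_approx h) ?_ num
  · have e1 : meanCurv g (fun y => ‖y‖) x = (∑ i, ∑ j, ((g x)⁻¹ i j - normal g (fun y => ‖y‖) i x *
        normal g (fun y => ‖y‖) j x) * (((1 : Matrix (Fin 3) (Fin 3) ℝ) i j - x i / ‖x‖ * (x j / ‖x‖)) / ‖x‖ -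
          ∑ k, chr g k i j x * (x k / ‖x‖))) / gradNorm g (fun y => ‖y‖) x := by
      unfold meanCurv
      simp only [pd2, pd1]
    rw [e1]
    have e2 : 2 / ‖x‖ + H1 g x = (2 - (hT g x - hN g x)) / ‖x‖ - (dD g x - dT g x / 2 - dN g x / 2) + hN g x / ‖x‖ := by
      unfold H1
      ring
    rw [e2]
    exact fin
  · have e3 : (2 - (hT g x - hN g x)) / ‖x‖ - (dD g x - dT g x / 2 - dN g x / 2) - 2 / ‖x‖ =
        -(hT g x / ‖x‖) + hN g x / ‖x‖ - (dD g x - dT g x / 2 - dN g x / 2) := by ring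
    rw [e3]
    have b1 : |hT g x / ‖x‖| ≤ 3 * ε / ‖x‖ := by
      rw [abs_div, abs_of_pos hr]
      exact div_le_div_of_nonneg_right hT3 hr.le
    have b2 : |hN g x / ‖x‖| ≤ 9 * ε / ‖x‖ := by
      rw [abs_div, abs_of_pos hr]
      exact div_le_div_of_nonneg_right hN9 hr.le
    have e5 : 100 * ε / ‖x‖ = 3 * ε / ‖x‖ + 9 * ε / ‖x‖ + 81 * ε / ‖x‖ + 7 * ε / ‖x‖ := by ring
    have e6 : 0 ≤ 7 * ε / ‖x‖ := by positivity
    rw [e5]
    rw [abs_le] at b1 b2 hPKb ⊢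
    constructor <;> linarith [b1.1, b1.2, b2.1, b2.2, hPKb.1, hPKb.2]

end UMB.Far
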