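import Pool.Agent.Lib.UMB.Far.H3c
import Pool.Agent.Lib.UMB.Far.H2c

set_option autoImplicit false

/-! # UMB.Far, chunk H4a: pointwise expansion of `r² H² dA / 4` -/

/-! # UMB.Far, chunk H4a: pointwise expansion of `r² H² dA / 4` -/

open Filter Topology Set MeasureTheory
open scoped ContDiff

namespace UMB.Far

open Pool.Agent.Lib.PenroseSph (E3 S2 Tens pd trg meanCurv gradNorm normal chr avg sm admFlux fluxDensity avg_rot)

theorem h4a_sum {f : Fin 3 → ℝ} {c : ℝ} (h : ∀ i, |f i| ≤ c) : |∑ i, f i| ≤ 3 * c := by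
  rw [Fin.sum_univ_three]
  calc |f 0 + f 1 + f 2| ≤ |f 0| + |f 1| + |f 2| := abs_add_three _ _ _
    _ ≤ 3 * c := by linarith [h 0, h 1, h 2]

theorem h4a_mul {a n c : ℝ} (ha : |a| ≤ c) (hn : |n| ≤ 1) : |a * n| ≤ c := by
  rw [abs_mul]
  have h1 := abs_nonneg a
  have h2 := abs_nonneg n
  nlinarith

theorem h4a_num {r A H a b ε : ℝ} (he0 : 0 ≤ ε) (he : ε ≤ 1 / 1000) (ha : |a| ≤ 48 * ε) (hb : |b| ≤ 6 * ε)
    (hH : |r * H - (2 + a)| ≤ 10000 * ε ^ 2) (hA : |A - (1 + b)| ≤ 100 * ε ^ 2) :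
    |r ^ 2 * (A * H ^ 2) / 4 - (1 + a + b)| ≤ 100000 * ε ^ 2 := by
  obtain ⟨α, hα⟩ : ∃ α, α = r * H - (2 + a) := ⟨_, rfl⟩
  obtain ⟨β, hβ⟩ : ∃ β, β = A - (1 + b) := ⟨_, rfl⟩
  rw [← hα] at hH
  rw [← hβ] at hA
  have e1 : r ^ 2 * (A * H ^ 2) / 4 - (1 + a + b) =
      α + β + (a + α) * (b + β) + (a + α) * (a + α) / 4 + (a + α) * (a + α) / 4 * (b + β) := by
    have h1 : r * H = 2 + a + α := by rw [hα]; ring
    have h2 : A = 1 + b + β := by rw [hβ]; ring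
    have h3 : r ^ 2 * (A * H ^ 2) / 4 = A * (r * H) ^ 2 / 4 := by ring
    rw [h3, h1, h2]
    ring
  rw [e1]
  have hu : |a + α| ≤ 58 * ε := by
    have := abs_add_le a α
    nlinarith
  have hw : |b + β| ≤ 7 * ε := by
    have := abs_add_le b β
    nlinarith
  have h1 : |(a + α) * (b + β)| ≤ 58 * ε * (7 * ε) := by
    rw [abs_mul]
    exact mul_le_mul hu hw (abs_nonneg _) (by positivity)
  have h2 : |(a + α) * (a + α) / 4| ≤ 58 * ε * (58 * ε) / 4 := by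
    rw [abs_div, abs_mul, abs_of_pos (by norm_num : (0 : ℝ) < 4)]
    have := mul_le_mul hu hu (abs_nonneg _) (by positivity)
    linarith
  have h3 : |(a + α) * (a + α) / 4 * (b + β)| ≤ 58 * ε * (58 * ε) / 4 * (7 * ε) := by
    rw [abs_mul]
    exact mul_le_mul h2 hw (abs_nonneg _) (by positivity)
  have h4 : 58 * ε * (58 * ε) / 4 * (7 * ε) ≤ 10 * ε ^ 2 := by
    have : 58 * ε * (58 * ε) / 4 * (7 * ε) = 5887 * ε * ε ^ 2 := by ring
    rw [this]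
    have h5 : 0 ≤ ε ^ 2 := by positivity
    nlinarith
  have h6 := abs_add_le (α + β + (a + α) * (b + β) + (a + α) * (a + α) / 4) ((a + α) * (a + α) / 4 * (b + β))
  have h7 := abs_add_le (α + β + (a + α) * (b + β)) ((a + α) * (a + α) / 4)
  have h8 := abs_add_le (α + β) ((a + α) * (b + β))
  have h9 := abs_add_le α β
  nlinarith [sq_nonneg ε]

/-- CHUNK H4a (S/M). `|h(n,n)| ≤ 3ε`, `|tr h| ≤ 3ε`, `|H1| ≤ 20 ε/r`, pointwise expansion of `r² H² dA / 4`.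
PROOF. `r^2 A H^2/4` with `A = 1 + (hT-hN)/2 + O(100 ε^2)`, `r H = 2 + r H1 + O(10^4 ε^2)`: `(1/4)(2 + a + α)^2 (1 + b + β)` with
`a = r H1`, `|a| <= 20 ε`, `b = (hT - hN)/2`, `|b| <= 3 ε`, `|α| <= 10^4 ε^2 <= 10 ε`, `|β| <= 100 ε^2`. -/
theorem H_sq_approx {g : Tens} {ε : ℝ} {x : E3} (h : Near g ε x) (hs : ∀ᶠ y in 𝓝 x, (g y).IsSymm) :
    |‖x‖ ^ 2 * (areaD g x * meanCurv g (fun y => ‖y‖) x ^ 2) / 4 -
      (1 + ‖x‖ * H1 g x + (hT g x - hN g x) / 2)| ≤ 100000 * ε ^ 2 := by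
  have hr := h.pos
  have he0 : 0 ≤ ε := le_trans (abs_nonneg _) (h.g0 0 0)
  have hn : ∀ i, |x i / ‖x‖| ≤ 1 := by
    intro i
    rw [abs_div, abs_of_pos hr, div_le_one hr]
    exact PiLp.norm_apply_le x i
  have hN' : |hN g x| ≤ 9 * ε := by
    have : |hN g x| ≤ 3 * (3 * ε) := by
      unfold hN
      exact h4a_sum fun i => h4a_sum fun j => h4a_mul (h4a_mul (h.g0 i j) (hn i)) (hn j)
    linarith
  have hT' : |hT g x| ≤ 3 * ε := by
    unfold hT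
    refine h4a_sum fun i => ?_
    have := h.g0 i i
    rwa [Matrix.one_apply_eq] at this
  have hdD : |‖x‖ * dD g x| ≤ 9 * ε := by
    have : |dD g x| ≤ 3 * (3 * (ε / ‖x‖)) := by
      unfold dD
      exact h4a_sum fun i => h4a_sum fun j => h4a_mul (h.g1 i j i) (hn j)
    rw [abs_mul, abs_of_pos hr]
    calc ‖x‖ * |dD g x| ≤ ‖x‖ * (3 * (3 * (ε / ‖x‖))) := mul_le_mul_of_nonneg_left this hr.le
      _ = 9 * ε := by field_simp; ring
  have hdT : |‖x‖ * dT g x| ≤ 9 * ε := by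
    have : |dT g x| ≤ 3 * (3 * (ε / ‖x‖)) := by
      unfold dT
      exact h4a_sum fun j => h4a_sum fun k => h4a_mul (h.g1 j j k) (hn k)
    rw [abs_mul, abs_of_pos hr]
    calc ‖x‖ * |dT g x| ≤ ‖x‖ * (3 * (3 * (ε / ‖x‖))) := mul_le_mul_of_nonneg_left this hr.le
      _ = 9 * ε := by field_simp; ring
  have hdN : |‖x‖ * dN g x| ≤ 27 * ε := by
    have : |dN g x| ≤ 3 * (3 * (3 * (ε / ‖x‖))) := by
      unfold dN
      exact h4a_sum fun i => h4a_sum fun j => h4a_sum fun k =>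
        h4a_mul (h4a_mul (h4a_mul (h.g1 i j k) (hn i)) (hn j)) (hn k)
    rw [abs_mul, abs_of_pos hr]
    calc ‖x‖ * |dN g x| ≤ ‖x‖ * (3 * (3 * (3 * (ε / ‖x‖)))) := mul_le_mul_of_nonneg_left this hr.le
      _ = 27 * ε := by field_simp; ring
  have ha : |‖x‖ * H1 g x| ≤ 48 * ε := by
    have e : ‖x‖ * H1 g x = -(hT g x - hN g x) + hN g x - ‖x‖ * dD g x + ‖x‖ * dT g x / 2 + ‖x‖ * dN g x / 2 := by
      unfold H1
      field_simp
    rw [e]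
    rw [abs_le] at hN' hT' hdD hdT hdN ⊢
    constructor <;> linarith [hN'.1, hN'.2, hT'.1, hT'.2, hdD.1, hdD.2, hdT.1, hdT.2, hdN.1, hdN.2]
  have hb : |(hT g x - hN g x) / 2| ≤ 6 * ε := by
    rw [abs_le] at hN' hT' ⊢
    constructor <;> linarith [hN'.1, hN'.2, hT'.1, hT'.2]
  refine h4a_num (a := ‖x‖ * H1 g x) (b := (hT g x - hN g x) / 2) he0 h.le ha hb ?_ (areaD_approx h)
  have h1 := meanCurv_approx h hs
  have e : ‖x‖ * meanCurv g (fun y => ‖y‖) x - (2 + ‖x‖ * H1 g x) =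
      ‖x‖ * (meanCurv g (fun y => ‖y‖) x - (2 / ‖x‖ + H1 g x)) := by
    field_simp
  rw [e, abs_mul, abs_of_pos hr]
  calc ‖x‖ * |meanCurv g (fun y => ‖y‖) x - (2 / ‖x‖ + H1 g x)| ≤ ‖x‖ * (10000 * ε ^ 2 / ‖x‖) :=
        mul_le_mul_of_nonneg_left h1 hr.le
    _ = 10000 * ε ^ 2 := by field_simp

end UMB.Far
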