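import Pool.Agent.Lib.UMB.Far.H4c
import Pool.Agent.Lib.UMB.Core

set_option autoImplicit false

/-! # UMB.Far, chunk H5a: algebra of the end value -/

open Filter Topology Set MeasureTheory
open scoped ContDiff

namespace UMB.Far

open Pool.Agent.Lib.PenroseSph (E3 S2 Tens pd trg meanCurv gradNorm normal chr avg sm admFlux fluxDensity)

theorem h5a_H {g : Tens} {ε : ℝ} {x : E3} (h : Near g ε x) (hs : ∀ᶠ y in 𝓝 x, (g y).IsSymm) :
    |meanCurv g (fun y => ‖y‖) x / 2 - 1 / ‖x‖| ≤ 30 * ε / ‖x‖ := by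
  have hr := h.pos
  have he0 : 0 ≤ ε := h2_near h
  have hle := h.le
  have hn : ∀ i, |x i / ‖x‖| ≤ 1 := by
    intro i
    rw [abs_div, abs_of_pos hr, div_le_one hr]
    exact PiLp.norm_apply_le x i
  have hN3 := h2_hN h
  have hT3 := h2_hT h
  have hdD : |‖x‖ * dD g x| ≤ 9 * ε := by
    have : |dD g x| ≤ 3 * (3 * (ε / ‖x‖)) := by
      unfold dD
      exact h4a_sum fun i => h4a_sum fun j => h4a_mul (h.g1 i j i) (hn j)
    rw [abs_mul, abs_of_pos hr]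
    calc ‖x‖ * |dD g x| ≤ ‖x‖ * (3 * (3 * (ε / ‖x‖))) := mul_le_mul_of_nonneg_left this hr.le
      _ = 9 * ε := by field_simp; ring
  have hdT : |‖x‖ * dT g x| ≤ 9 * ε := by
    have : |dT g x| ≤ 3 * (3 * (ε / ‖x‖)) := by
      unfold dT
      exact h4a_sum fun j => h4a_sum fun k => h4a_mul (h.g1 j j k) (hn k)
    rw [abs_mul, abs_of_pos hr]
    calc ‖x‖ * |dT g x| ≤ ‖x‖ * (3 * (3 * (ε / ‖x‖))) := mul_le_mul_of_nonneg_left this hr.le
      _ = 9 * ε := by field_simp; ring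
  have hdN : |‖x‖ * dN g x| ≤ 27 * ε := by
    have : |dN g x| ≤ 3 * (3 * (3 * (ε / ‖x‖))) := by
      unfold dN
      exact h4a_sum fun i => h4a_sum fun j => h4a_sum fun k =>
        h4a_mul (h4a_mul (h4a_mul (h.g1 i j k) (hn i)) (hn j)) (hn k)
    rw [abs_mul, abs_of_pos hr]
    calc ‖x‖ * |dN g x| ≤ ‖x‖ * (3 * (3 * (3 * (ε / ‖x‖)))) := mul_le_mul_of_nonneg_left this hr.le
      _ = 27 * ε := by field_simp; ring
  have h1 := meanCurv_approx h hs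
  have h2 : |‖x‖ * (meanCurv g (fun y => ‖y‖) x - (2 / ‖x‖ + H1 g x))| ≤ 10000 * ε ^ 2 := by
    rw [abs_mul, abs_of_pos hr]
    calc ‖x‖ * |meanCurv g (fun y => ‖y‖) x - (2 / ‖x‖ + H1 g x)| ≤ ‖x‖ * (10000 * ε ^ 2 / ‖x‖) :=
          mul_le_mul_of_nonneg_left h1 hr.le
      _ = 10000 * ε ^ 2 := by field_simp
  have e1 : ‖x‖ * H1 g x = -(hT g x - hN g x) + hN g x - ‖x‖ * dD g x + ‖x‖ * dT g x / 2 + ‖x‖ * dN g x / 2 := by
    unfold H1
    field_simp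
  have e2 : meanCurv g (fun y => ‖y‖) x / 2 - 1 / ‖x‖ =
      (‖x‖ * (meanCurv g (fun y => ‖y‖) x - (2 / ‖x‖ + H1 g x)) + ‖x‖ * H1 g x) / (2 * ‖x‖) := by
    field_simp
    ring
  have h3 : ε ^ 2 ≤ ε * (1 / 1000) := by rw [sq]; exact mul_le_mul_of_nonneg_left hle he0
  have h4 : |‖x‖ * (meanCurv g (fun y => ‖y‖) x - (2 / ‖x‖ + H1 g x)) + ‖x‖ * H1 g x| ≤ 60 * ε := by
    rw [e1]
    rw [abs_le] at h2 hN3 hT3 hdD hdT hdN ⊢
    constructor <;> linarith [h2.1, h2.2, hN3.1, hN3.2, hT3.1, hT3.2, hdD.1, hdD.2, hdT.1, hdT.2, hdN.1, hdN.2]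
  rw [e2, abs_div, abs_of_pos (by positivity : (0 : ℝ) < 2 * ‖x‖)]
  calc _ ≤ 60 * ε / (2 * ‖x‖) := div_le_div_of_nonneg_right h4 (by positivity)
    _ = 30 * ε / ‖x‖ := by field_simp; ring

theorem h5a_A0 (g : Tens) (x : E3) : 0 ≤ areaD g x := by
  unfold areaD vol gradNorm
  exact mul_nonneg (Real.sqrt_nonneg _) (Real.sqrt_nonneg _)

theorem h5a_A {g : Tens} {ε : ℝ} {x : E3} (h : Near g ε x) : areaD g x ≤ 1 + 31 / 10 * ε := by
  have he0 : 0 ≤ ε := h2_near h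
  have hle := h.le
  have hN3 := h2_hN h
  have hT3 := h2_hT h
  have hA := areaD_approx h
  have h3 : ε ^ 2 ≤ ε * (1 / 1000) := by rw [sq]; exact mul_le_mul_of_nonneg_left hle he0
  rw [abs_le] at hN3 hT3 hA
  linarith [hN3.1, hN3.2, hT3.1, hT3.2, hA.1, hA.2]

/-- The pointwise bounds. -/
theorem h5a_pt {A H P Y r ε s : ℝ} (hr : 0 < r) (he0 : 0 ≤ ε) (he : ε ≤ 1 / 1000) (hs0 : 0 ≤ s) (hs1 : s ≤ 1)
    (hA0 : 0 ≤ A) (hA : A ≤ 1 + 31 / 10 * ε) (hH : |H / 2 - 1 / r| ≤ 30 * ε / r) (hY0 : 0 ≤ Y) (hY : |Y - 1 / r| ≤ s / r) :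
    r ^ 2 * (A * (Y - H / 2) ^ 2) ≤ 2 * (s + 30 * ε) ^ 2 ∧
      r ^ 2 * (A * (Y * P)) ≤ (1 + 4 * ε + 2 * s) / r * (r ^ 2 * |P|) := by
  constructor
  · have h1 : |r * (Y - H / 2)| ≤ s + 30 * ε := by
      have e : r * (Y - H / 2) = r * ((Y - 1 / r) - (H / 2 - 1 / r)) := by ring
      rw [e, abs_mul, abs_of_pos hr]
      calc r * |(Y - 1 / r) - (H / 2 - 1 / r)| ≤ r * (s / r + 30 * ε / r) :=
            mul_le_mul_of_nonneg_left ((abs_sub _ _).trans (add_le_add hY hH)) hr.le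
        _ = s + 30 * ε := by field_simp
    have h2 : (r * (Y - H / 2)) ^ 2 ≤ (s + 30 * ε) ^ 2 := by
      rw [← sq_abs]
      exact pow_le_pow_left₀ (abs_nonneg _) h1 2
    have e : r ^ 2 * (A * (Y - H / 2) ^ 2) = A * (r * (Y - H / 2)) ^ 2 := by ring
    rw [e]
    exact mul_le_mul (by linarith) h2 (sq_nonneg _) (by norm_num)
  · have h1 : Y ≤ (1 + s) / r := by
      have := (abs_le.1 hY).2
      have e : (1 + s) / r = 1 / r + s / r := by ring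
      rw [e]
      linarith
    have h2 : A * Y ≤ (1 + 4 * ε + 2 * s) / r := by
      calc A * Y ≤ (1 + 31 / 10 * ε) * ((1 + s) / r) := mul_le_mul hA h1 hY0 (by positivity)
        _ = ((1 + 31 / 10 * ε) * (1 + s)) / r := by ring
        _ ≤ (1 + 4 * ε + 2 * s) / r := div_le_div_of_nonneg_right (by nlinarith) hr.le
    have e : r ^ 2 * (A * (Y * P)) = (A * Y) * (r ^ 2 * P) := by ring
    rw [e]
    calc (A * Y) * (r ^ 2 * P) ≤ (A * Y) * (r ^ 2 * |P|) :=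
          mul_le_mul_of_nonneg_left (mul_le_mul_of_nonneg_left (le_abs_self P) (sq_nonneg r)) (mul_nonneg hA0 hY0)
      _ ≤ (1 + 4 * ε + 2 * s) / r * (r ^ 2 * |P|) := mul_le_mul_of_nonneg_right h2 (by positivity)

theorem h5a_int {F1 F2 F3 : S2 → ℝ} (i1 : Integrable F1 sm) (i2 : Integrable F2 sm) (i3 : Integrable F3 sm) :
    ∫ n, (-(F1 n / 4) + F2 n + F3 n) ∂sm = -((∫ n, F1 n ∂sm) / 4) + ∫ n, F2 n ∂sm + ∫ n, F3 n ∂sm := by
  have j1 : Integrable (fun n => -(F1 n / 4)) sm := (i1.div_const 4).neg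
  have j2 : Integrable (fun n => -(F1 n / 4) + F2 n) sm := j1.add i2
  rw [integral_add j2 i3, integral_add j1 i2, integral_neg, integral_div]

/-- CHUNK H5a (M). Algebra of the end value: if `Y` is near `1/r` on the sphere of radius `r` then
`r (4π + sphQ) ≤ 8π admFlux + (1 + s) trFlux + C r (…)`.
PROOF. `Y^2 - Y(H - P) = (Y - H/2)^2 - H^2/4 + Y P`. So `4 pi + sphQ = [4 pi - (1/4) int r^2 A H^2] + int r^2 A (Y - H/2)^2
+ int r^2 A Y P`. First term: `willmore_approx`. Second: `|Y - H/2| <= |Y - 1/r| + |H/2 - 1/r| <= (s + 30 ε)/r`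
(`meanCurv_approx`, `|H1| <= 20 ε/r`), `A <= 2`: `<= 8 pi (s + 30 ε)^2 `. Third: `A Y P <= (1 + 4 ε)(1 + s)/r |P|`. All functions are
continuous on the sphere (integrability); multiply by `r`. -/
theorem end_alg {g k : Tens} {a r ε s : ℝ} {Y : E3 → ℝ} (ha : 0 ≤ a) (har : a < r)
    (hg : ∀ i j, ContDiffOn ℝ ∞ (fun x => g x i j) {x : E3 | a < ‖x‖})
    (hk : ∀ i j, ContDiffOn ℝ ∞ (fun x => k x i j) {x : E3 | a < ‖x‖})
    (hs : ∀ x : E3, a < ‖x‖ → (g x).IsSymm) (hpos : ∀ x : E3, a < ‖x‖ → ∀ v : Fin 3 → ℝ, v ≠ 0 → 0 < quad g x v)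
    (hn : ∀ x : E3, ‖x‖ = r → Near g ε x) (hs0 : 0 ≤ s) (hs1 : s ≤ 1) (hYc : Continuous fun n : S2 => Y (r • (n : E3)))
    (hY0 : ∀ x : E3, ‖x‖ = r → 0 ≤ Y x) (hY : ∀ x : E3, ‖x‖ = r → |Y x - 1 / r| ≤ s / r) :
    r * (4 * Real.pi + sphQ g k Y r) ≤ 8 * Real.pi * admFlux g r + (1 + 4 * ε + 2 * s) * trFlux g k r
      + r * (4000000 * ε ^ 2 + 8 * Real.pi * (s + 30 * ε) ^ 2) := by
  have hr : 0 < r := lt_of_le_of_lt ha har
  have hS : SmM g a := ⟨hg, hs, hpos⟩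
  have hne : ∀ x : E3, a < ‖x‖ → x ≠ 0 := by
    intro x hx h0
    rw [h0, norm_zero] at hx
    linarith
  have hnr : ∀ n : S2, ‖r • (n : E3)‖ = r := fun n => Pool.Agent.Lib.PenroseSph.norm_ray hr n
  have hcr : ∀ f : E3 → ℝ, (∀ x : E3, a < ‖x‖ → ContinuousAt f x) → Continuous (fun n : S2 => f (r • (n : E3))) :=
    fun f hf => Pool.Agent.Lib.PenroseSph.cont_ray ha (fun x hx => (hf x hx).continuousWithinAt) har
  have cA : Continuous (fun n : S2 => areaD g (r • (n : E3))) := hcr _ fun x hx => h4c_area hS hx (hne x hx)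
  have cH : Continuous (fun n : S2 => meanCurv g (fun y => ‖y‖) (r • (n : E3))) :=
    hcr _ fun x hx => (h4c_mc hS hx (hne x hx)).continuousAt
  have cP : Continuous (fun n : S2 => sphTr g k (r • (n : E3))) :=
    hcr _ fun x hx => (hS.sphTr_at hk hx (hne x hx)).continuousAt
  have hN : ∀ n : S2, Near g ε (r • (n : E3)) := fun n => hn _ (hnr n)
  have n0 : S2 := ⟨EuclideanSpace.single 0 1, by simp⟩
  have he0 : 0 ≤ ε := h2_near (hN n0)
  have hle : ε ≤ 1 / 1000 := (hN n0).le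
  have hpt : ∀ n : S2, r ^ 2 * (areaD g (r • (n : E3)) * (Y (r • (n : E3)) -
      meanCurv g (fun y => ‖y‖) (r • (n : E3)) / 2) ^ 2) ≤ 2 * (s + 30 * ε) ^ 2 ∧
      r ^ 2 * (areaD g (r • (n : E3)) * (Y (r • (n : E3)) * sphTr g k (r • (n : E3)))) ≤
        (1 + 4 * ε + 2 * s) / r * (r ^ 2 * |sphTr g k (r • (n : E3))|) := by
    intro n
    have h1 : a < ‖r • (n : E3)‖ := by rw [hnr n]; exact har
    have h2 := h5a_H (hN n) (by
      filter_upwards [(isOpen_ext' a).mem_nhds h1] with y hy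
      exact hs y hy)
    rw [hnr n] at h2
    exact h5a_pt hr he0 hle hs0 hs1 (h5a_A0 g _) (h5a_A (hN n)) h2 (hY0 _ (hnr n)) (hY _ (hnr n))
  have i1 : Integrable (fun n : S2 => r ^ 2 * (areaD g (r • (n : E3)) *
      meanCurv g (fun y => ‖y‖) (r • (n : E3)) ^ 2)) sm :=
    Pool.Agent.Lib.PenroseSph.integrable_S2 (continuous_const.mul (cA.mul (cH.pow 2)))
  have i2 : Integrable (fun n : S2 => r ^ 2 * (areaD g (r • (n : E3)) * (Y (r • (n : E3)) -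
      meanCurv g (fun y => ‖y‖) (r • (n : E3)) / 2) ^ 2)) sm :=
    Pool.Agent.Lib.PenroseSph.integrable_S2 (continuous_const.mul (cA.mul ((hYc.sub (cH.div_const 2)).pow 2)))
  have i3 : Integrable (fun n : S2 => r ^ 2 * (areaD g (r • (n : E3)) * (Y (r • (n : E3)) *
      sphTr g k (r • (n : E3))))) sm :=
    Pool.Agent.Lib.PenroseSph.integrable_S2 (continuous_const.mul (cA.mul (hYc.mul cP)))
  have i4 : Integrable (fun n : S2 => r ^ 2 * |sphTr g k (r • (n : E3))|) sm :=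
    Pool.Agent.Lib.PenroseSph.integrable_S2 (continuous_const.mul cP.abs)
  have hsp : sphQ g k Y r = -((∫ n : S2, r ^ 2 * (areaD g (r • (n : E3)) *
      meanCurv g (fun y => ‖y‖) (r • (n : E3)) ^ 2) ∂sm) / 4) +
      ∫ n : S2, r ^ 2 * (areaD g (r • (n : E3)) * (Y (r • (n : E3)) -
      meanCurv g (fun y => ‖y‖) (r • (n : E3)) / 2) ^ 2) ∂sm +
      ∫ n : S2, r ^ 2 * (areaD g (r • (n : E3)) * (Y (r • (n : E3)) * sphTr g k (r • (n : E3)))) ∂sm := by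
    rw [← h5a_int i1 i2 i3]
    unfold sphQ
    refine integral_congr_ae (Eventually.of_forall fun n => ?_)
    dsimp only
    ring
  have b2 : ∫ n : S2, r ^ 2 * (areaD g (r • (n : E3)) * (Y (r • (n : E3)) -
      meanCurv g (fun y => ‖y‖) (r • (n : E3)) / 2) ^ 2) ∂sm ≤ 8 * Real.pi * (s + 30 * ε) ^ 2 := by
    calc _ ≤ ∫ _ : S2, 2 * (s + 30 * ε) ^ 2 ∂sm := integral_mono i2 (integrable_const _) fun n => (hpt n).1
      _ = 8 * Real.pi * (s + 30 * ε) ^ 2 := by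
        rw [integral_const, Pool.Agent.Lib.PenroseSph.sm_univ, smul_eq_mul]
        ring
  have b3 : ∫ n : S2, r ^ 2 * (areaD g (r • (n : E3)) * (Y (r • (n : E3)) * sphTr g k (r • (n : E3)))) ∂sm ≤
      (1 + 4 * ε + 2 * s) / r * trFlux g k r := by
    have e : trFlux g k r = ∫ n : S2, r ^ 2 * |sphTr g k (r • (n : E3))| ∂sm := rfl
    rw [e, ← integral_const_mul]
    exact integral_mono i3 (i4.const_mul _) fun n => (hpt n).2
  have b1 := willmore_approx ha har hg hs hpos hn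
  rw [hsp]
  generalize (∫ n : S2, r ^ 2 * (areaD g (r • (n : E3)) * meanCurv g (fun y => ‖y‖) (r • (n : E3)) ^ 2) ∂sm) = J1
    at b1 ⊢
  generalize (∫ n : S2, r ^ 2 * (areaD g (r • (n : E3)) * (Y (r • (n : E3)) -
      meanCurv g (fun y => ‖y‖) (r • (n : E3)) / 2) ^ 2) ∂sm) = J2 at b2 ⊢
  generalize (∫ n : S2, r ^ 2 * (areaD g (r • (n : E3)) * (Y (r • (n : E3)) * sphTr g k (r • (n : E3)))) ∂sm) = J3
    at b3 ⊢
  have b1' := (abs_le.1 b1).2
  have e1 : r * (8 * Real.pi * admFlux g r / r) = 8 * Real.pi * admFlux g r := by field_simp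
  have e2 : r * ((1 + 4 * ε + 2 * s) / r * trFlux g k r) = (1 + 4 * ε + 2 * s) * trFlux g k r := by field_simp
  have c1 : r * (4 * Real.pi - J1 / 4 - 8 * Real.pi * admFlux g r / r) ≤ r * (4000000 * ε ^ 2) :=
    mul_le_mul_of_nonneg_left (by nlinarith [sq_nonneg ε]) hr.le
  have c2 := mul_le_mul_of_nonneg_left b2 hr.le
  have c3 := mul_le_mul_of_nonneg_left b3 hr.le
  rw [e2] at c3
  have c4 : r * (4 * Real.pi - J1 / 4 - 8 * Real.pi * admFlux g r / r) =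
      r * (4 * Real.pi - J1 / 4) - 8 * Real.pi * admFlux g r := by
    rw [mul_sub, e1]
  rw [c4] at c1
  have c5 : r * (4 * Real.pi + (-(J1 / 4) + J2 + J3)) = r * (4 * Real.pi - J1 / 4) + r * J2 + r * J3 := by ring
  rw [c5]
  have c6 : r * (4000000 * ε ^ 2 + 8 * Real.pi * (s + 30 * ε) ^ 2) =
      r * (4000000 * ε ^ 2) + r * (8 * Real.pi * (s + 30 * ε) ^ 2) := by ring
  rw [c6]
  linarith [c1, c2, c3]

end UMB.Far
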