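import Pool.Agent.Lib.UMB.Far.H2
import Pool.Agent.Lib.UMB.Far.D5

set_option autoImplicit false

/-! # UMB.Far, chunk H5b: the length of `dθ` on the outer sphere -/

open Filter Topology Set MeasureTheory
open scoped ContDiff

namespace UMB.Far

open Pool.Agent.Lib.PenroseSph (E3 S2 Tens pd trg meanCurv gradNorm normal chr avg sm admFlux fluxDensity)

/-- `gsq` of a radial covector. -/
theorem h5b_gsq {g : Tens} {θ : E3 → ℝ} {x : E3} (hx : 0 < ‖x‖) {m : ℝ} (hm : 0 ≤ m)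
    (h : ∀ i, pd i θ x = m * (x i / ‖x‖)) : yreg g θ 0 x = m * gradNorm g (fun y => ‖y‖) x := by
  have e : ∀ i, pd i (fun y : E3 => ‖y‖) x = x i / ‖x‖ := fun i => h2_pd hx i
  have e1 : gsq g θ x + 0 = m ^ 2 * ∑ i, ∑ j, (g x)⁻¹ i j * pd i (fun y : E3 => ‖y‖) x * pd j (fun y : E3 => ‖y‖) x := by
    unfold gsq gradU
    simp only [e, h, Fin.sum_univ_three]
    ring
  unfold yreg gradNorm
  rw [e1, Real.sqrt_mul (sq_nonneg m), Real.sqrt_sq hm]

/-- The numbers. -/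
theorem h5b_num {m N R c K : ℝ} (hR : 1 ≤ R) (hK : 0 ≤ K) (hc : 0 ≤ c) (hm : |m - 1 / R| ≤ K / R ^ 2)
    (hN0 : 0 ≤ N) (hN : |N - 1| ≤ 2 * (c / R)) (hN2 : N ≤ 2) : |m * N - 1 / R| ≤ (2 * K + 4 * c) / R ^ 2 := by
  have hR0 : 0 < R := by linarith
  have e : m * N - 1 / R = (m - 1 / R) * N + 1 / R * (N - 1) := by ring
  rw [e]
  calc |(m - 1 / R) * N + 1 / R * (N - 1)| ≤ |(m - 1 / R) * N| + |1 / R * (N - 1)| := abs_add_le _ _
    _ ≤ K / R ^ 2 * 2 + 1 / R * (2 * (c / R)) := by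
        refine add_le_add ?_ ?_
        · rw [abs_mul, abs_of_nonneg hN0]
          exact mul_le_mul hm hN2 hN0 (by positivity)
        · rw [abs_mul, abs_of_pos (by positivity : (0 : ℝ) < 1 / R)]
          exact mul_le_mul_of_nonneg_left hN (by positivity)
    _ ≤ (2 * K + 4 * c) / R ^ 2 := by
        have e2 : K / R ^ 2 * 2 + 1 / R * (2 * (c / R)) = (2 * K + 2 * c) / R ^ 2 := by
          field_simp
        rw [e2]
        exact div_le_div_of_nonneg_right (by linarith) (by positivity)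

/-- CHUNK H5b (M). The length of `dθ` on `|x| = R`: `|Y - 1/R| ≤ (6144 CH r0 + 4 Cg)/R²`.
PROOF. `θ` has the differential `- dv/κ` at the points of `|x| = R` (`hθ`), `κ = C/R`, and `dv = (∂_r v) n` there (`bdry_radial`):
`gsq g θ x = (∂_r v/κ)^2 sum G_ij n_i n_j`, so `yreg g θ 0 x = (-∂_r v R/C) N`, `N = gradNorm g |.|` (`-∂_r v >= 0`: `bdry_grad`).
`|-∂_r v R/C - 1/R| <= 3072 CH r0/R^2` (`far2`), `|N - 1| <= 2 ε` (`gradNorm_approx`), `ε = Cg/R`. -/
theorem y_bdry {g : Tens} {v θ : E3 → ℝ} {r0 R Cg : ℝ} (h : FlatV v r0 R) {x : E3} (hx : ‖x‖ = R) (hn : Near g (Cg / R) x)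
    (hr : 1 ≤ r0) (hθ : ∀ i, pd i θ x = -(pd i v x) / (fluxC v R / R)) :
    0 ≤ yreg g θ 0 x ∧ |yreg g θ 0 x - 1 / R| ≤ (6144 * CH * r0 + 4 * Cg) / R ^ 2 := by
  have hr0 := h.r0_pos
  have hr1 := h.r0_lt
  have hR : 0 < R := by linarith
  have hR1 : 1 ≤ R := by linarith
  have hCH : 0 < CH := d3_CH
  have hC := fluxC_pos h
  have hxp : 0 < ‖x‖ := hn.pos
  have he0 : 0 ≤ Cg / R := h2_near hn
  have hle := hn.le
  have hCg : 0 ≤ Cg := by
    have := mul_nonneg he0 hR.le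
    rwa [div_mul_cancel₀ _ hR.ne'] at this
  refine ⟨Real.sqrt_nonneg _, ?_⟩
  have hm0 : 0 ≤ -(dr v x) * (R / fluxC v R) :=
    mul_nonneg (by linarith [(bdry_grad h hx).2]) (div_pos hR hC).le
  have hpd : ∀ i, pd i θ x = (-(dr v x) * (R / fluxC v R)) * (x i / ‖x‖) := by
    intro i
    rw [hθ i, bdry_radial h hx i]
    field_simp
  rw [h5b_gsq hxp hm0 hpd]
  have hN3 := h2_hN hn
  have hG := gradNorm_approx hn
  have h3 : (Cg / R) ^ 2 ≤ (Cg / R) * (1 / 1000) := by rw [sq]; exact mul_le_mul_of_nonneg_left hle he0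
  have hN1 : |gradNorm g (fun y => ‖y‖) x - 1| ≤ 2 * (Cg / R) := by
    rw [abs_le] at hN3 hG ⊢
    constructor <;> linarith [hN3.1, hN3.2, hG.1, hG.2]
  have hN2 : gradNorm g (fun y => ‖y‖) x ≤ 2 := by linarith [(abs_le.1 hN1).2]
  have hm : |-(dr v x) * (R / fluxC v R) - 1 / R| ≤ (3072 * CH * r0) / R ^ 2 := by
    have e : -(dr v x) * (R / fluxC v R) - 1 / R = -((R / fluxC v R) * (dr v x + fluxC v R / R ^ 2)) := by
      field_simp
      ring
    rw [e, abs_neg, abs_mul, abs_of_pos (div_pos hR hC)]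
    calc R / fluxC v R * |dr v x + fluxC v R / R ^ 2|
        ≤ R / fluxC v R * (3072 * CH * fluxC v R * r0 / R ^ 3) :=
          mul_le_mul_of_nonneg_left (far2 h hx) (div_pos hR hC).le
      _ = (3072 * CH * r0) / R ^ 2 := by field_simp
  have := h5b_num (K := 3072 * CH * r0) (c := Cg) hR1 (by positivity) hCg hm (Real.sqrt_nonneg _) hN1 hN2
  calc _ ≤ (2 * (3072 * CH * r0) + 4 * Cg) / R ^ 2 := this
    _ = (6144 * CH * r0 + 4 * Cg) / R ^ 2 := by ring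

end UMB.Far
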