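import Pool.Agent.Lib.UMB.Far.D5
import Pool.Agent.Lib.UMB.Par

set_option autoImplicit false

/-! # UMB.Far, chunk T2: translation to the language of `Par` -/

open Filter Topology Set MeasureTheory
open scoped ContDiff

namespace UMB.Far

open Pool.Agent.Lib.PenroseSph (E3 S2 Tens pd avg sm)

/-- `Par.mean` is `avg`. -/
theorem mean_eq (v : E3 → ℝ) (r : ℝ) : Par.mean v r = avg v r := by
  unfold Par.mean avg
  rw [one_div]

/-- CHUNK T2a (S). `Cv` is the flux constant, and (FZ0).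
PROOF. `avg_eq` at `r = 2 R1` and `1/(2 R1) - 1/R > 0`. -/
theorem Cv_eq {P : Par} {v : E3 → ℝ} (h : FlatV v (2 * P.R1) P.R) :
    P.Cv v = fluxC v P.R ∧ 0 < P.Cv v ∧ ∀ r : ℝ, 2 * P.R1 ≤ r → r ≤ P.R → Par.mean v r = P.Cv v * (1 / r - 1 / P.R) := by
  have h0 := h.r0_pos
  have h8 := h.r0_lt
  have hR : 0 < P.R := by linarith
  have hlt : 2 * P.R1 < P.R := by linarith
  have hden : 0 < 1 / (2 * P.R1) - 1 / P.R := by
    have := one_div_lt_one_div_of_lt h0 hlt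
    linarith
  have hCv : P.Cv v = fluxC v P.R := by
    unfold Par.Cv
    rw [mean_eq, avg_eq h le_rfl hlt.le, mul_div_assoc, div_self hden.ne', mul_one]
  refine ⟨hCv, ?_, fun r h1 h2 => ?_⟩
  · rw [hCv]
    exact fluxC_pos h
  · rw [mean_eq, hCv]
    exact avg_eq h h1 h2

/-- T2b. The bounds in the flat zone and on `|x| = R`. -/
theorem far_bounds {P : Par} {v : E3 → ℝ} (h : FlatV v (2 * P.R1) P.R) :
    (∀ x : E3, 4 * P.R1 ≤ ‖x‖ → ‖x‖ ≤ P.R → P.Cv v / CH * (1 / ‖x‖ - 1 / P.R) ≤ v x ∧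
      v x ≤ CH * P.Cv v * (1 / ‖x‖ - 1 / P.R) ∧ ∀ i, |pd i v x| ≤ 14 * CH * P.Cv v / ‖x‖ ^ 2) ∧
    ∀ x : E3, ‖x‖ = P.R → (∀ i, pd i v x = (x i / ‖x‖) * dr v x) ∧ dr v x ≤ 0 ∧
      |dr v x + P.Cv v / P.R ^ 2| ≤ 6144 * CH * P.Cv v * P.R1 / P.R ^ 3 := by
  rw [(Cv_eq h).1]
  refine ⟨fun x h1 h2 => ?_, fun x hx => ?_⟩
  · have h3 : 2 * (2 * P.R1) ≤ ‖x‖ := by linarith
    exact ⟨(barrier h h3 h2).1, (barrier h h3 h2).2, fun i => grad_far h h3 h2 i⟩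
  · refine ⟨fun i => bdry_radial h hx i, (bdry_grad h hx).2, ?_⟩
    have := far2 h hx
    calc |dr v x + fluxC v P.R / P.R ^ 2| ≤ _ := this
      _ = _ := by ring

end UMB.Far
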