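import Pool.Agent.Lib.UMB.Far.T1
import Pool.Agent.Lib.UMB.Far.T2

set_option autoImplicit false

/-! # UMB.Far, chunk T0: a global extension of the solution -/

open Filter Topology Set MeasureTheory
open scoped ContDiff Manifold

namespace UMB.Far

open Pool.Agent.Lib.PenroseSph (E3 S2 Tens pd avg sm)
open UMB.Lin (Ann cAnn)

/-- A function of class `C³` near a compact set agrees near it with a global one. -/
theorem exists_ext {U K : Set E3} (hU : IsOpen U) (hK : IsCompact K) (hKU : K ⊆ U) {v : E3 → ℝ}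
    (hv : ContDiffOn ℝ 3 v U) : ∃ u : E3 → ℝ, ContDiff ℝ 3 u ∧ ∃ V : Set E3, IsOpen V ∧ K ⊆ V ∧ ∀ x ∈ V, u x = v x := by
  obtain ⟨V, hVo, hKV, hVU, hVc⟩ := exists_open_between_and_isCompact_closure hK hU hKU
  obtain ⟨f, hf1, hf2, _⟩ := exists_contMDiffMap_one_nhds_of_subset_interior (n := 3) (I := 𝓘(ℝ, E3)) (M := E3)
    hK.isClosed (show K ⊆ interior V by rw [hVo.interior_eq]; exact hKV)
  have hfs : ContDiff ℝ 3 (fun x : E3 => f x) := f.contMDiff.contDiff
  obtain ⟨W, hWo, hKW, hW⟩ := mem_nhdsSet_iff_exists.1 hf1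
  refine ⟨fun x => f x * v x, ?_, W, hWo, hKW, ?_⟩
  · rw [contDiff_iff_contDiffAt]
    intro x
    by_cases hx : x ∈ U
    · exact hfs.contDiffAt.mul ((hv x hx).contDiffAt (hU.mem_nhds hx))
    · have hx2 : x ∈ (closure V)ᶜ := fun h => hx (hVU h)
      have hev : (fun y => f y * v y) =ᶠ[𝓝 x] fun _ => 0 := by
        filter_upwards [isClosed_closure.isOpen_compl.mem_nhds hx2] with y hy
        rw [hf2 y (fun h => hy (subset_closure h)), zero_mul]
      exact contDiffAt_const.congr_of_eventuallyEq hev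
  · intro x hx
    have h1 : f x = 1 := hW hx
    show f x * v x = v x
    rw [h1, one_mul]

theorem isCompact_cAnn (R : ℝ) : IsCompact (cAnn R) := by
  apply Metric.isCompact_of_isClosed_isBounded
  · exact (isClosed_le continuous_const continuous_norm).inter (isClosed_le continuous_norm continuous_const)
  · apply Metric.isBounded_closedBall (x := (0 : E3)) (r := R) |>.subset
    intro x hx
    rw [mem_closedBall_zero_iff]
    exact hx.2

/-- The solution agrees near the closed annulus with a function which is `FlatV`. -/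
theorem flat_ext {P : Par} (hP : P.Ok) (hR : 16 * P.R1 ≤ P.R) {v : E3 → ℝ} (hsol : W.Sol P.op v)
    (hpos : ∀ x : E3, 1 < ‖x‖ → ‖x‖ < P.R → 0 < v x)
    (hv1 : ∀ x : E3, P.R1 / 2 ≤ ‖x‖ → ‖x‖ ≤ P.R → v x ≤ P.v1) :
    ∃ u : E3 → ℝ, FlatV u (2 * P.R1) P.R ∧ ∃ V : Set E3, IsOpen V ∧ cAnn P.R ⊆ V ∧ ∀ x ∈ V, u x = v x := by
  obtain ⟨U, hUo, hKU, hvU⟩ := hsol.near
  obtain ⟨u, hu, V, hVo, hKV, hVu⟩ := exists_ext hUo (isCompact_cAnn P.R) hKU hvU
  have h0 : 0 < 2 * P.R1 := by linarith [hP.r1_ge, hP.R1_ge]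
  have h1 : 1 ≤ 2 * P.R1 := by linarith [hP.r1_ge, hP.R1_ge]
  have hmem : ∀ x : E3, 1 ≤ ‖x‖ → ‖x‖ ≤ P.R → x ∈ V := fun x a b => hKV ⟨a, b⟩
  refine ⟨u, ⟨hu, h0, by linarith, ?_, ?_, ?_⟩, V, hVo, hKV, hVu⟩
  · intro x hx1 hx2
    have hxV : x ∈ V := hmem x (by linarith) hx2.le
    have hz := lap_zero hP hsol hv1 hx1 hx2
    rw [← hz]
    unfold lap0
    refine Finset.sum_congr rfl fun i _ => ?_
    have hev : ∀ y ∈ V, pd i u y = pd i v y := fun y hy =>
      Pool.Agent.Lib.PenroseSph.pd_congr i (Filter.eventuallyEq_iff_exists_mem.2 ⟨V, hVo.mem_nhds hy, fun z hz => hVu z hz⟩)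
    exact Pool.Agent.Lib.PenroseSph.pd_congr i (Filter.eventuallyEq_iff_exists_mem.2 ⟨V, hVo.mem_nhds hxV, fun z hz => hev z hz⟩)
  · intro x hx1 hx2
    rw [hVu x (hmem x (by linarith) hx2.le)]
    exact hpos x (by linarith) hx2
  · intro x hx
    have : 1 ≤ P.R := by linarith [hP.r1_ge, hP.R1_ge, hP.R_ge]
    rw [hVu x (hmem x (by rw [hx]; exact this) hx.le)]
    exact hsol.zero x hx

end UMB.Far
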