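import Pool.Agent.Lib.UMB.Far.T2

set_option autoImplicit false

/-! # UMB.Far, chunk T3: the function `F` near zero, the differential of `θ` near `|x| = R` -/

/-! # UMB.Far, chunk T3: the function `F` near zero, the differential of `θ` near `|x| = R` -/

open Filter Topology Set MeasureTheory
open scoped ContDiff

namespace UMB.Far

open Pool.Agent.Lib.PenroseSph (E3 S2 Tens pd avg sm)

theorem t3_kt {P : Par} (hP : P.Ok) : Continuous (W.kt P.p) ∧ ∀ z, 0 ≤ W.kt P.p z := by
  have hq := hP.q_pos
  have hq1 := hP.q_lt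
  have hb : ∀ z, P.q ≤ P.b z ∧ P.b z ≤ 1 := by
    intro z
    unfold Par.b
    have h1 := Real.smoothTransition.nonneg ((2 * P.v1 - z) / P.v1)
    have h2 := Real.smoothTransition.le_one ((2 * P.v1 - z) / P.v1)
    constructor <;> nlinarith
  have hbc : Continuous P.b := by
    unfold Par.b
    exact continuous_const.add (continuous_const.mul
      (Real.smoothTransition.continuous.comp ((continuous_const.sub continuous_id).div_const _)))
  have hpc : Continuous P.p := by
    unfold Par.p
    exact continuous_const.add hbc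
  refine ⟨?_, fun z => ?_⟩
  · unfold W.kt
    refine (continuous_const.sub hpc).div (hpc.sub continuous_const) fun z => ?_
    have := (hb z).1
    unfold Par.p
    linarith
  · unfold W.kt Par.p
    have h1 := (hb z).1
    have h2 := (hb z).2
    apply div_nonneg <;> linarith

/-- CHUNK T3a (M). `F` is differentiable near `0` with derivative `-1/(K + κ)`.
PROOF. `P.p` is continuous with values in `(1, 2]` (`p = 1 + b`, `q <= b <= 1`), so `kt P.p` is continuous and nonnegative,
`KK P.p z = int_0^z kt` is `C^1`, `KK 0 = 0`, `KK >= 0` on `[0, oo)`; by continuity there is `δ > 0` with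
`KK z + κ > 0` for `z > -δ`. `FF P.p κ z = int_z^1 (KK t + κ)⁻¹`: the integrand is continuous on `(-δ, oo)`; the fundamental
theorem of calculus (derivative in the lower limit, `intervalIntegral.integral_hasDerivAt_left` or split at a fixed point). -/
theorem hasDeriv_FF {P : Par} (hP : P.Ok) {κ : ℝ} (hκ : 0 < κ) : Continuous (W.KK P.p) ∧ W.KK P.p 0 = 0 ∧
    ∃ δ : ℝ, 0 < δ ∧ ∀ z : ℝ, -δ < z → 0 < W.KK P.p z + κ ∧ HasDerivAt (W.FF P.p κ) (-(W.KK P.p z + κ)⁻¹) z := by
  obtain ⟨hkc, hk0⟩ := t3_kt hP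
  have hKc : Continuous (W.KK P.p) := by
    rw [continuous_iff_continuousAt]
    intro z
    exact (hkc.integral_hasStrictDerivAt 0 z).hasDerivAt.continuousAt
  have hK0 : W.KK P.p 0 = 0 := by
    unfold W.KK
    exact intervalIntegral.integral_same
  refine ⟨hKc, hK0, ?_⟩
  have hev : ∀ᶠ z in 𝓝 (0 : ℝ), 0 < W.KK P.p z + κ := by
    have h1 : ContinuousAt (fun z => W.KK P.p z + κ) 0 := (hKc.add continuous_const).continuousAt
    have h2 : (0 : ℝ) < W.KK P.p 0 + κ := by rw [hK0]; linarith
    exact h1.eventually (lt_mem_nhds h2)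
  obtain ⟨δ, hδ, hball⟩ := Metric.eventually_nhds_iff.mp hev
  have hpos : ∀ z : ℝ, -δ < z → 0 < W.KK P.p z + κ := by
    intro z hz
    rcases le_or_gt 0 z with h0 | h0
    · have : 0 ≤ W.KK P.p z := intervalIntegral.integral_nonneg h0 fun t _ => hk0 t
      linarith
    · apply hball
      rw [Real.dist_eq, sub_zero, abs_of_neg h0]
      linarith
  refine ⟨δ, hδ, fun z hz => ⟨hpos z hz, ?_⟩⟩
  have hcon : ContinuousOn (fun t => (W.KK P.p t + κ)⁻¹) (Ioi (-δ)) :=
    ((hKc.add continuous_const).continuousOn).inv₀ fun t ht => (hpos t ht).ne'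
  have hz' : z ∈ Ioi (-δ) := hz
  refine intervalIntegral.integral_hasDerivAt_left ?_ (hcon.stronglyMeasurableAtFilter isOpen_Ioi z hz')
    (hcon.continuousAt (isOpen_Ioi.mem_nhds hz'))
  refine (hcon.mono ?_).intervalIntegrable
  intro t ht
  rw [mem_uIcc] at ht
  have h1 : (-δ : ℝ) < 1 := by linarith
  rcases ht with ht | ht
  · exact lt_of_lt_of_le hz ht.1
  · exact lt_of_lt_of_le h1 ht.1

/-- CHUNK T3b (S). The differential of `θ` near the sphere `|x| = R`, for every `C^3` function `v` with `v = 0` there.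
PROOF. `v` is continuous, so `v > -δ` in a neighbourhood of the compact sphere; `s` by compactness (uniform continuity near the
sphere, or: the closed set `{v <= -δ}` has positive distance from the sphere, and a point `x` with `R - s < |x| < R + s` has
distance `< s` from `R x/|x|`). Chain rule for `FF ∘ v`. -/
theorem pd_th {P : Par} (hP : P.Ok) {v : E3 → ℝ} (h : FlatV v (2 * P.R1) P.R) : ∃ s : ℝ, 0 < s ∧
    ∀ x : E3, P.R - s < ‖x‖ → ‖x‖ < P.R + s → 0 < W.KK P.p (v x) + P.kap v ∧
      ∀ i, pd i (P.th v) x = -(pd i v x) / (W.KK P.p (v x) + P.kap v) := by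
  have hR : 0 < P.R := by
    have := hP.R_ge
    have := hP.R1_ge
    have := hP.r1_ge
    linarith
  have hκ : 0 < P.kap v := by
    unfold Par.kap
    have h1 := (Cv_eq h).2.1
    positivity
  obtain ⟨_, _, δ, hδ, hF⟩ := hasDeriv_FF hP hκ
  have hvc : Continuous v := h.smooth.continuous
  have hopen : IsOpen {x : E3 | -δ < v x} := isOpen_lt continuous_const hvc
  have hsub : Metric.sphere (0 : E3) P.R ⊆ {x : E3 | -δ < v x} := by
    intro x hx
    have hx' : ‖x‖ = P.R := by rwa [mem_sphere_zero_iff_norm] at hx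
    show -δ < v x
    rw [h.zero x hx']
    linarith
  obtain ⟨s, hs, hth⟩ := (isCompact_sphere (0 : E3) P.R).exists_thickening_subset_open hopen hsub
  refine ⟨min s P.R, lt_min hs hR, fun x h1 h2 => ?_⟩
  have h3 : 0 < ‖x‖ := by
    have := min_le_right s P.R
    linarith
  have h4 : -δ < v x := by
    apply hth
    rw [Metric.mem_thickening_iff]
    refine ⟨(P.R / ‖x‖) • x, ?_, ?_⟩
    · rw [mem_sphere_zero_iff_norm, norm_smul, Real.norm_eq_abs, abs_of_pos (by positivity)]
      field_simp
    · rw [dist_eq_norm]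
      have e : x - (P.R / ‖x‖) • x = (1 - P.R / ‖x‖) • x := by rw [sub_smul, one_smul]
      rw [e, norm_smul, Real.norm_eq_abs]
      have e2 : |1 - P.R / ‖x‖| * ‖x‖ = |‖x‖ - P.R| := by
        have : ‖x‖ - P.R = (1 - P.R / ‖x‖) * ‖x‖ := by field_simp
        rw [this, abs_mul, abs_norm]
      rw [e2, abs_lt]
      have := min_le_left s P.R
      constructor <;> linarith
  obtain ⟨h5, h6⟩ := hF (v x) h4
  refine ⟨h5, fun i => ?_⟩
  have hvd : HasFDerivAt v (fderiv ℝ v x) x :=
    ((h.smooth.differentiable (by norm_num)) x).hasFDerivAt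
  have h7 : HasFDerivAt (P.th v) ((-(W.KK P.p (v x) + P.kap v)⁻¹) • fderiv ℝ v x) x := by
    have := h6.comp_hasFDerivAt x hvd
    exact this
  unfold pd
  rw [h7.fderiv]
  simp only [smul_apply, smul_eq_mul]
  rw [neg_div, div_eq_inv_mul]
  ring

/-- T3c. On the sphere. -/
theorem pd_th_R {P : Par} (hP : P.Ok) {v : E3 → ℝ} (h : FlatV v (2 * P.R1) P.R) {x : E3} (hx : ‖x‖ = P.R) (i : Fin 3) :
    pd i (P.th v) x = -(pd i v x) / (fluxC v P.R / P.R) := by
  obtain ⟨s, hs, hall⟩ := pd_th hP h
  have h0 : 0 < P.Cv v / P.R := by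
    have h1 := (Cv_eq h).2.1
    have h2 : 0 < P.R := by
      have := hP.R_ge
      have := hP.R1_ge
      have := hP.r1_ge
      linarith
    positivity
  have h3 := (hall x (by rw [hx]; linarith) (by rw [hx]; linarith)).2 i
  rw [h.zero x hx, (hasDeriv_FF hP (κ := P.Cv v / P.R) h0).2.1, zero_add] at h3
  rw [h3]
  unfold Par.kap
  rw [(Cv_eq h).1]

end UMB.Far
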