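import Pool.Agent.Lib.UMB.Far.H5a
import Pool.Agent.Lib.UMB.Far.H5b
import Pool.Agent.Lib.UMB.Far.T1
import Pool.Agent.Lib.UMB.Far.T3
import Pool.Agent.Lib.UMB.S1.Met

set_option autoImplicit false

/-! # UMB.Far, chunk T4: the end value in the language of `Par` -/

open Filter Topology Set MeasureTheory
open scoped ContDiff

namespace UMB.Far

open Pool.Agent.Lib.PenroseSph (E3 S2 Tens pd trg meanCurv gradNorm normal chr avg sm admFlux fluxDensity)

/-- `Near` on the sphere of radius `R` for large `R`. -/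
theorem near_of_dec {g : Tens} {a Cg R : ℝ} (hg : AF g a) (hd : Dec g Cg) (hR : 1 ≤ R) (hRC : 1000 * Cg ≤ R) {x : E3}
    (hx : ‖x‖ = R) : Near g (Cg / R) x := by
  have h0 : (0:ℝ) < R := by linarith
  refine ⟨by rw [hx]; exact h0, ?_, ?_, ?_, hg.symm x (by rw [hx]; linarith [hg.lt])⟩
  · rw [div_le_iff₀ h0]; linarith
  · intro i j
    have := (hd x (by rw [hx]; exact hR) i j 0).1
    rwa [hx] at this
  · intro i j k
    have := (hd x (by rw [hx]; exact hR) i j k).2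
    rw [hx] at this
    rw [hx]
    calc _ ≤ _ := this
      _ = _ := by field_simp

theorem t4_cont {P : Par} {v : E3 → ℝ} (hP : P.Ok) (hg : AF P.g P.a) (hv : FlatV v (2 * P.R1) P.R) :
    Continuous fun n : S2 => P.y v (P.R • (n : E3)) := by
  have hR1 : 1 ≤ P.R1 := by linarith [hP.r1_ge, hP.R1_ge]
  have hR0 : 0 < P.R := by linarith [hP.R_ge]
  have hnorm : ∀ n : S2, ‖P.R • (n : E3)‖ = P.R := by
    intro n
    have h1 : ‖(n : E3)‖ = 1 := by simp
    rw [norm_smul, h1, mul_one, Real.norm_of_nonneg hR0.le]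
  have hM : MetOn P.g {x : E3 | P.a < ‖x‖} :=
    ⟨isOpen_lt continuous_const continuous_norm, hg.smooth, hg.symm, fun x hx w hw => hg.pos x hx w hw⟩
  have hc : Continuous fun n : S2 => P.R • (n : E3) := by fun_prop
  have hG : ∀ i j, Continuous fun n : S2 => (P.g (P.R • (n : E3)))⁻¹ i j := by
    intro i j
    refine (hM.inv_smooth i j).continuousOn.comp_continuous hc fun n => ?_
    change P.a < ‖P.R • (n : E3)‖
    rw [hnorm]
    linarith [hg.lt, hP.R_ge]
  have hpd : ∀ i, Continuous fun n : S2 => pd i v (P.R • (n : E3)) := by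
    intro i
    have h1 : Continuous (pd i v) := by
      unfold pd
      exact (hv.smooth.continuous_fderiv (by norm_num)).clm_apply continuous_const
    exact h1.comp hc
  have e : (fun n : S2 => P.y v (P.R • (n : E3))) = fun n : S2 =>
      Real.sqrt ((∑ i, (-(pd i v (P.R • (n : E3))) / (fluxC v P.R / P.R)) * ∑ j, (P.g (P.R • (n : E3)))⁻¹ i j *
        (-(pd j v (P.R • (n : E3))) / (fluxC v P.R / P.R))) + 0) := by
    funext n
    unfold Par.y yreg gsq gradU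
    simp only [pd_th_R hP hv (hnorm n)]
  rw [e]
  refine Real.continuous_sqrt.comp ?_
  refine Continuous.add ?_ continuous_const
  refine continuous_finsetSum _ fun i _ => ?_
  refine Continuous.mul ((hpd i).neg.div_const _) ?_
  refine continuous_finsetSum _ fun j _ => ?_
  exact (hG i j).mul ((hpd j).neg.div_const _)

theorem t4_tr (g k : Tens) (r : ℝ) : 0 ≤ trFlux g k r := by
  unfold trFlux
  exact integral_nonneg fun n => mul_nonneg (sq_nonneg _) (abs_nonneg _)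

/-- CHUNK T4 (M/L). THE END VALUE in the language of `Par`.
PROOF. `ε = Cg/R`, `s = (6144 CH (2 R1) + 4 Cg)/R`, `Y = P.y v = yreg P.g (P.th v) 0`; `y_bdry` with `pd_th_R` gives
`|Y - 1/R| <= s/R`, `Y >= 0`; `Y` is continuous on the sphere (there `Y = (- dr v/κ) gradNorm`, or: `yreg` is the root of a continuous
expression in `pd i (P.th v) = - pd i v/κ`). `end_alg` with `a := max P.a 0`. With `R1 >= 1`, `R >= 16 R1`, `Cg <= C' R1` ... all
error terms are `<= C' R1/R` and `R (..)^2 <= C' R1^2/R`. `s <= 1` and `1000 Cg <= R` hold for `R >= C' R1`. -/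
theorem end_value (Cg : ℝ) : ∃ C' : ℝ, 0 < C' ∧ ∀ (P : Par) (v : E3 → ℝ), P.Ok → AF P.g P.a → Dec P.g Cg →
    (∀ i j, ContDiffOn ℝ ∞ (fun x => P.k x i j) {x : E3 | P.a < ‖x‖}) → FlatV v (2 * P.R1) P.R → C' * P.R1 ≤ P.R →
    P.R * (4 * Real.pi + sphQ P.g P.k (P.y v) P.R) ≤ 8 * Real.pi * admFlux P.g P.R
      + (1 + C' * P.R1 / P.R) * trFlux P.g P.k P.R + C' * P.R1 ^ 2 / P.R := by
  have hCH : 0 < CH := Real.exp_pos _
  obtain ⟨S, hS⟩ : ∃ S : ℝ, S = 12288 * CH + 4 * |Cg| := ⟨_, rfl⟩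
  have hS0 : 0 < S := by
    rw [hS]
    positivity
  obtain ⟨T, hT⟩ : ∃ T : ℝ, T = 4000000 * |Cg| ^ 2 + 8 * Real.pi * (S + 30 * |Cg|) ^ 2 := ⟨_, rfl⟩
  have hT0 : 0 ≤ T := by
    rw [hT]
    positivity
  refine ⟨1004 * |Cg| + 3 * S + T, by positivity, fun P v hP hg hd hk hv hR => ?_⟩
  have hR1 : 1 ≤ P.R1 := by linarith [hP.r1_ge, hP.R1_ge]
  have hRR1 : 8 * P.R1 ≤ P.R := hP.R_ge
  have hR0 : 0 < P.R := by linarith
  have hCg : 0 ≤ Cg := by
    have h1 : ‖(EuclideanSpace.single 0 1 : E3)‖ = 1 := by simp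
    have h2 := (hd (EuclideanSpace.single 0 1) (by rw [h1]) 0 0 0).1
    rw [h1, div_one] at h2
    exact (abs_nonneg _).trans h2
  rw [abs_of_nonneg hCg] at hS hT hR ⊢
  have b1 : 1000 * Cg ≤ P.R := by
    have h1 : 1000 * Cg * 1 ≤ 1000 * Cg * P.R1 := mul_le_mul_of_nonneg_left hR1 (by positivity)
    have h2 : 1000 * Cg * P.R1 ≤ (1004 * Cg + 3 * S + T) * P.R1 := mul_le_mul_of_nonneg_right (by linarith) (by linarith)
    linarith
  have b2 : S * P.R1 ≤ P.R := by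
    have h2 : S * P.R1 ≤ (1004 * Cg + 3 * S + T) * P.R1 := mul_le_mul_of_nonneg_right (by linarith) (by linarith)
    linarith
  obtain ⟨s, hs⟩ : ∃ s : ℝ, s = (6144 * CH * (2 * P.R1) + 4 * Cg) / P.R := ⟨_, rfl⟩
  have hs0 : 0 ≤ s := by
    rw [hs]
    positivity
  have hsR : s * P.R = 6144 * CH * (2 * P.R1) + 4 * Cg := by
    rw [hs]
    field_simp
  have hsS : s * P.R ≤ S * P.R1 := by
    rw [hsR, hS]
    have : 4 * Cg * 1 ≤ 4 * Cg * P.R1 := mul_le_mul_of_nonneg_left hR1 (by positivity)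
    linarith
  have hs1 : s ≤ 1 := by
    by_contra h1
    have h2 : 1 * P.R < s * P.R := mul_lt_mul_of_pos_right (not_le.1 h1) hR0
    linarith
  have hnear : ∀ x : E3, ‖x‖ = P.R → Near P.g (Cg / P.R) x := fun x hx => near_of_dec hg hd (by linarith) b1 hx
  have hy : ∀ x : E3, ‖x‖ = P.R → 0 ≤ P.y v x ∧ |P.y v x - 1 / P.R| ≤ s / P.R := by
    intro x hx
    have h1 := y_bdry hv hx (hnear x hx) (by linarith) fun i => pd_th_R hP hv hx i
    refine ⟨h1.1, h1.2.trans (le_of_eq ?_)⟩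
    rw [hs, sq, div_div]
  have hsub : ∀ x : E3, max P.a 0 < ‖x‖ → P.a < ‖x‖ := fun x hx => lt_of_le_of_lt (le_max_left _ _) hx
  have hal : max P.a 0 < P.R := max_lt (by linarith [hg.lt]) hR0
  have main := end_alg (g := P.g) (k := P.k) (a := max P.a 0) (r := P.R) (ε := Cg / P.R) (s := s) (Y := P.y v)
    (le_max_right _ _) hal (fun i j => (hg.smooth i j).mono fun x hx => hsub x hx)
    (fun i j => (hk i j).mono fun x hx => hsub x hx) (fun x hx => hg.symm x (hsub x hx))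
    (fun x hx => hg.pos x (hsub x hx)) hnear hs0 hs1 (t4_cont hP hg hv) (fun x hx => (hy x hx).1)
    (fun x hx => (hy x hx).2)
  refine main.trans ?_
  have hR1sq : 1 ≤ P.R1 ^ 2 := one_le_pow₀ hR1
  have c1 : (1 + 4 * (Cg / P.R) + 2 * s) * trFlux P.g P.k P.R ≤
      (1 + (1004 * Cg + 3 * S + T) * P.R1 / P.R) * trFlux P.g P.k P.R := by
    refine mul_le_mul_of_nonneg_right ?_ (t4_tr _ _ _)
    have h1 : 4 * (Cg / P.R) + 2 * s = (4 * Cg + 2 * (s * P.R)) / P.R := by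
      field_simp
    have h2 : (4 * Cg + 2 * (s * P.R)) / P.R ≤ (1004 * Cg + 3 * S + T) * P.R1 / P.R := by
      refine div_le_div_of_nonneg_right ?_ hR0.le
      have h3 : 4 * Cg * 1 ≤ 4 * Cg * P.R1 := mul_le_mul_of_nonneg_left hR1 (by positivity)
      have h4 : 0 ≤ (1000 * Cg + S + T) * P.R1 := by positivity
      have h5 : (1004 * Cg + 3 * S + T) * P.R1 = 4 * Cg * P.R1 + 2 * (S * P.R1) + (1000 * Cg + S + T) * P.R1 := by ring
      linarith
    linarith
  have c2 : P.R * (4000000 * (Cg / P.R) ^ 2 + 8 * Real.pi * (s + 30 * (Cg / P.R)) ^ 2) ≤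
      (1004 * Cg + 3 * S + T) * P.R1 ^ 2 / P.R := by
    have h1 : P.R * (4000000 * (Cg / P.R) ^ 2 + 8 * Real.pi * (s + 30 * (Cg / P.R)) ^ 2) =
        (4000000 * Cg ^ 2 + 8 * Real.pi * (s * P.R + 30 * Cg) ^ 2) / P.R := by
      field_simp
    rw [h1]
    refine div_le_div_of_nonneg_right ?_ hR0.le
    have h2 : (s * P.R + 30 * Cg) ^ 2 ≤ ((S + 30 * Cg) * P.R1) ^ 2 := by
      have h0 : 0 ≤ s * P.R := mul_nonneg hs0 hR0.le
      have h3 : 30 * Cg * 1 ≤ 30 * Cg * P.R1 := mul_le_mul_of_nonneg_left hR1 (by positivity)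
      refine pow_le_pow_left₀ (by positivity) ?_ 2
      have h4 : (S + 30 * Cg) * P.R1 = S * P.R1 + 30 * Cg * P.R1 := by ring
      linarith
    have h3 : 8 * Real.pi * (s * P.R + 30 * Cg) ^ 2 ≤ 8 * Real.pi * ((S + 30 * Cg) * P.R1) ^ 2 :=
      mul_le_mul_of_nonneg_left h2 (by positivity)
    have h4 : 4000000 * Cg ^ 2 * 1 ≤ 4000000 * Cg ^ 2 * P.R1 ^ 2 := mul_le_mul_of_nonneg_left hR1sq (by positivity)
    have h5 : 4000000 * Cg ^ 2 * P.R1 ^ 2 + 8 * Real.pi * ((S + 30 * Cg) * P.R1) ^ 2 = T * P.R1 ^ 2 := by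
      rw [hT]
      ring
    have h6 : 0 ≤ (1004 * Cg + 3 * S) * P.R1 ^ 2 := by positivity
    have h7 : (1004 * Cg + 3 * S + T) * P.R1 ^ 2 = (1004 * Cg + 3 * S) * P.R1 ^ 2 + T * P.R1 ^ 2 := by ring
    linarith
  linarith

end UMB.Far
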