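import Pool.Agent.Lib.UMB.Far.T5
import Pool.Agent.Lib.UMB.M.Defs

set_option autoImplicit false

/-! # UMB.Far, T6: the end value in the form used by the assembly (FZ2) -/

open Filter Topology Set MeasureTheory
open scoped ContDiff

namespace UMB.Far

open Pool.Agent.Lib.PenroseSph (E3 S2 Tens pd trg meanCurv gradNorm normal chr avg sm admFlux fluxDensity pd_congr norm_ray)
open UMB.Lin (Ann cAnn)

theorem yreg_eq (g : Tens) (u : E3 → ℝ) (x : E3) : yreg g u 0 x = gradNorm g u x := by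
  unfold yreg gsq gradU gradNorm
  rw [add_zero]
  congr 1
  refine Finset.sum_congr rfl fun i _ => ?_
  rw [Finset.mul_sum]
  exact Finset.sum_congr rfl fun j _ => by ring

theorem sphQ_eq_bdry (P : Par) (v : E3 → ℝ) : sphQ P.g P.k (P.y v) P.R = bdry P.g P.k (P.th v) P.R := by
  unfold sphQ bdry
  refine integral_congr_ae (Eventually.of_forall fun n => ?_)
  unfold areaD bd Par.y
  simp only [yreg_eq]
  ring

theorem dec_of_AF {g : Tens} {a : ℝ} (hg : AF g a) : ∃ Cg : ℝ, Dec g Cg := hg.decay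

/-- **(FZ2)**. -/
theorem fz2 {g : Tens} {a E : ℝ} (hg : AF g a) (hE : Tendsto (admFlux g) atTop (𝓝 E)) (R1 : ℝ) {τ : ℝ} (hτ : 0 < τ) :
    ∀ᶠ R in atTop, ∀ (P : Par) (v : E3 → ℝ) (δ' : ℝ), P.Ok → P.g = g → P.a = a → P.R1 = R1 → P.R = R →
      (∀ i j, ContDiffOn ℝ ∞ (fun x => P.k x i j) {x : E3 | P.a < ‖x‖}) → W.Sol P.op v →
      (∀ x : E3, 1 < ‖x‖ → ‖x‖ < P.R → 0 < v x) → (∀ x : E3, P.R1 / 2 ≤ ‖x‖ → ‖x‖ ≤ P.R → v x ≤ P.v1) →
      0 ≤ δ' → trFlux g P.k R ≤ δ' →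
      Real.exp (P.T v) * (4 * Real.pi + bdry g P.k (P.th v) R) * P.CC v ≤ 8 * Real.pi * E + 2 * δ' + τ := by
  obtain ⟨Cg, hCg⟩ := hg.decay
  obtain ⟨C', hC', key⟩ := end_value' Cg
  have h1 : ∀ᶠ R in atTop, 8 * Real.pi * admFlux g R ≤ 8 * Real.pi * E + τ / 2 := by
    have h2 := (hE.const_mul (8 * Real.pi)).eventually (gt_mem_nhds (show 8 * Real.pi * E < 8 * Real.pi * E + τ / 2 by linarith))
    filter_upwards [h2] with R h
    exact h.le
  have h3 : Tendsto (fun R : ℝ => C' * R1 ^ 2 / R) atTop (𝓝 0) := tendsto_const_nhds.div_atTop tendsto_id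
  have h4 : Tendsto (fun R : ℝ => C' * R1 / R) atTop (𝓝 0) := tendsto_const_nhds.div_atTop tendsto_id
  filter_upwards [h1, h3.eventually (gt_mem_nhds (show (0:ℝ) < τ / 2 by linarith)),
    h4.eventually (gt_mem_nhds (show (0:ℝ) < 1 by norm_num)), eventually_ge_atTop (C' * R1)] with R a1 a2 a3 a4
  intro P v δ' hP hPg hPa hPR1 hPR hk hsol hpos hv1 hδ htr
  have hRpos : 0 < P.R := by linarith [hP.r1_ge, hP.R1_ge, hP.R_ge]
  have h5 := key P v hP (by rw [hPg, hPa]; exact hg) (by rw [hPg]; exact hCg) hk hsol hpos hv1 (by rw [hPR1, hPR]; exact a4)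
  rw [sphQ_eq_bdry, hPg, hPR, hPR1] at h5
  have h6 : Real.exp (P.T v) * (4 * Real.pi + bdry g P.k (P.th v) R) * P.CC v = R * (4 * Real.pi + bdry g P.k (P.th v) R) := by
    unfold Par.CC
    rw [hPR]
    have : Real.exp (P.T v) * Real.exp (-P.T v) = 1 := by rw [← Real.exp_add]; simp
    calc _ = R * (4 * Real.pi + bdry g P.k (P.th v) R) * (Real.exp (P.T v) * Real.exp (-P.T v)) := by ring
      _ = _ := by rw [this, mul_one]
  rw [h6]
  have h7 : (1 + C' * R1 / R) * trFlux g P.k R ≤ 2 * δ' := by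
    have h8 : 0 ≤ trFlux g P.k R := by
      unfold trFlux
      exact integral_nonneg fun n => by positivity
    nlinarith
  linarith

end UMB.Far
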